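import Mathlib

/-! Tools for renormalization towers: logarithms of charts, lifts between charts, last hits. -/

set_option autoImplicit false

open Filter Topology Set Metric Complex
open scoped Real

namespace RT2

/-- two continuous logarithms of one function on a preconnected set that agree at a point -/
theorem log_eqOn {X : Type*} [TopologicalSpace X] {S : Set X} (hS : IsPreconnected S)
    {f g : X → ℂ} (hf : ContinuousOn f S) (hg : ContinuousOn g S)
    (h : ∀ x ∈ S, exp (f x) = exp (g x)) {x₀ : X} (hx : x₀ ∈ S) (e : f x₀ = g x₀) : EqOn f g S :=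
  isCoveringMap_exp.eqOn_of_comp_eqOn hS hf hg (fun x hx => Subtype.ext (h x hx)) hx e

/-- functions on a preconnected set that differ by multiples of `I` differ by a constant -/
theorem int_const {X : Type*} [TopologicalSpace X] {S : Set X} (hS : IsPreconnected S)
    {f g : X → ℂ} (hf : ContinuousOn f S) (hg : ContinuousOn g S)
    (h : ∀ x ∈ S, ∃ m : ℤ, f x = g x + m * I) : ∃ m : ℤ, ∀ x ∈ S, f x = g x + m * I := by
  rcases S.eq_empty_or_nonempty with rfl | ⟨x₀, hx⟩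
  · exact ⟨0, fun _ h => h.elim⟩
  obtain ⟨m, hm⟩ := h x₀ hx
  refine ⟨m, fun x hx' => mul_left_cancel₀ (mul_ne_zero two_ne_zero (ofReal_ne_zero.2 Real.pi_ne_zero))
    (log_eqOn (f := fun x => 2 * π * f x) (g := fun x => 2 * π * (g x + m * I)) hS
      (continuousOn_const.mul hf) (continuousOn_const.mul (hg.add continuousOn_const))
      (fun y hy => ?_) hx (by simp only [hm]) hx')⟩
  obtain ⟨k, hk⟩ := h y hy
  refine exp_eq_exp_iff_exists_int.2 ⟨k - m, ?_⟩
  rw [hk]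
  push_cast
  ring

theorem conv (a : ℝ) : Convex ℝ {z : ℂ | a < z.re} := convex_halfSpace_re_gt a

theorem re_shift (z : ℂ) (k : ℤ) (n : ℕ) : (z + k * (I / n)).re = z.re := by
  simp [div_re]

theorem re_one (z : ℂ) (n : ℕ) : (z + I / n).re = z.re := by simp [div_re]

theorem im_one (z : ℂ) (n : ℕ) : (z + I / n).im = z.im + 1 / n := by
  rw [add_im, ← ofReal_natCast, div_ofReal_im, I_im]

/-- a step rule iterates -/
theorem shift_int {A : ℂ → ℂ} {n : ℕ} {c : ℂ}
    (h : ∀ z : ℂ, 0 < z.re → A (z + I / n) = A z + c) (k : ℤ) {z : ℂ} (hz : 0 < z.re) :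
    A (z + k * (I / n)) = A z + k * c := by
  induction k using Int.induction_on with
  | zero => simp
  | succ k ih =>
    have := h (z + (k : ℤ) * (I / n)) (by rwa [re_shift])
    push_cast at this ih ⊢
    rw [add_mul, one_mul, ← add_assoc, this, ih]
    ring
  | pred k ih =>
    have := h (z + ((-k - 1 : ℤ) : ℂ) * (I / n)) (by rwa [re_shift])
    push_cast at this ih ⊢
    rw [show z + (-(k : ℂ) - 1) * (I / n) + I / n = z + -(k : ℂ) * (I / n) by ring, ih] at this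
    linear_combination -this

theorem shift_I {A : ℂ → ℂ} {n : ℕ} (hn : 0 < n) {c : ℂ}
    (h : ∀ z : ℂ, 0 < z.re → A (z + I / n) = A z + c / n) (m : ℤ) {z : ℂ} (hz : 0 < z.re) :
    A (z + m * I) = A z + m * c := by
  have h0 : (n : ℂ) ≠ 0 := by exact_mod_cast hn.ne'
  have := shift_int h (m * n) hz
  push_cast at this
  rwa [mul_assoc, mul_assoc, mul_div_cancel₀ _ h0, mul_div_cancel₀ _ h0] at this

/-- the normalised logarithm of a chart -/
theorem log_chart {B : ℂ → ℂ} {n : ℕ} {κ : ℝ} (hc : ContinuousOn B {z | 0 < z.re})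
    (h0 : ∀ z : ℂ, 0 < z.re → B z ≠ 0)
    (hr : ∀ z : ℂ, 0 < z.re → B (z + I / n) = exp (2 * π * I / n) * B z)
    (ha : Tendsto (fun z => B z * exp (-(κ * z.re + 2 * π * I * z.im))) (comap re atTop) (𝓝 1)) :
    ∃ A : ℂ → ℂ, ContinuousOn A {z | 0 < z.re} ∧ (∀ z : ℂ, 0 < z.re → exp (A z) = B z) ∧
      (∀ z : ℂ, 0 < z.re → A (z + I / n) = A z + 2 * π * I / n) ∧
      Tendsto (fun z => A z - (κ * z.re + 2 * π * I * z.im)) (comap re atTop) (𝓝 0) := by
  set L : ℂ → ℂ := fun z => κ * z.re + 2 * π * I * z.im with hL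
  have Lc : Continuous L := by fun_prop
  have Lr : ∀ z, L (z + I / n) = L z + 2 * π * I / n := fun z => by
    simp only [hL, re_one, im_one]
    push_cast
    ring
  set u : ℂ → ℂ := fun z => B z * exp (-L z) with hu
  have uc : ContinuousOn u {z | 0 < z.re} := hc.mul (by fun_prop)
  have ur : ∀ z : ℂ, 0 < z.re → u (z + I / n) = u z := fun z hz => by
    simp only [hu, hr z hz, Lr, neg_add, exp_add, exp_neg]
    field_simp
  have := (conv 0).contractibleSpace ⟨1, by simp⟩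
  obtain ⟨a, ac, ae⟩ := exists_continuousOn_eqOn_exp_comp (U := {z : ℂ | 0 < z.re})
    (SimplyConnectedSpace.ofContractible _) (isOpen_lt continuous_const continuous_re) uc (by
      rintro ⟨z, hz, e⟩
      exact mul_ne_zero (h0 z hz) (exp_ne_zero _) e)
  obtain ⟨T, hT⟩ : ∃ T : ℝ, ∀ z : ℂ, T ≤ z.re → u z ∈ slitPlane := by
    obtain ⟨T, hT⟩ := eventually_atTop.1 (eventually_comap.1
      (ha.eventually (isOpen_slitPlane.mem_nhds one_mem_slitPlane)))
    exact ⟨T, fun z hz => hT _ hz z rfl⟩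
  set T' := max T 0 with hT'
  have s1 : ∀ z : ℂ, T' < z.re → 0 < z.re := fun z hz => (le_max_right _ _).trans_lt hz
  have s2 : ∀ z : ℂ, T' < z.re → u z ∈ slitPlane := fun z hz =>
    hT z ((le_max_left _ _).trans hz.le)
  have s3 : ∀ z : ℂ, T' < z.re → exp (log (u z)) = u z := fun z hz =>
    exp_log (slitPlane_ne_zero (s2 z hz))
  have z0 : T' < ((T' + 1 : ℝ) : ℂ).re := by simp
  obtain ⟨m, hm⟩ := exp_eq_exp_iff_exists_int.1 ((ae (s1 _ z0)).trans (s3 _ z0).symm)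
  set b : ℂ → ℂ := fun z => a z - m * (2 * π * I) with hb
  have bc : ContinuousOn b {z | 0 < z.re} := ac.sub continuousOn_const
  have be : ∀ z : ℂ, 0 < z.re → exp (b z) = u z := fun z hz => by
    rw [hb, exp_sub, exp_int_mul_two_pi_mul_I, div_one]
    exact ae hz
  have bl : EqOn b (fun z => log (u z)) {z | T' < z.re} :=
    log_eqOn (conv T').isPreconnected (bc.mono s1) ((uc.mono s1).clog s2)
      (fun z hz => (be z (s1 z hz)).trans (s3 z hz).symm) z0 (by simp only [hb, hm]; ring)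
  have br : EqOn (fun z => b (z + I / n)) b {z | 0 < z.re} :=
    log_eqOn (conv 0).isPreconnected
      (bc.comp (by fun_prop) fun z hz => by simpa only [mem_ofPred, re_one] using hz) bc
      (fun z hz => by rw [be _ (by rwa [re_one]), be z hz, ur z hz]) (s1 _ z0) (by
        rw [bl (by simpa only [mem_ofPred, re_one] using z0), bl z0]
        simp only [ur _ (s1 _ z0)])
  refine ⟨fun z => b z + L z, bc.add Lc.continuousOn, fun z hz => ?_, fun z hz => ?_, ?_⟩
  · rw [exp_add, be z hz, hu, mul_assoc, ← exp_add, neg_add_cancel, exp_zero, mul_one]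
  · have := br hz
    simp only at this ⊢
    rw [this, Lr, ← add_assoc]
  · have h1 := (continuousAt_clog one_mem_slitPlane).tendsto.comp ha
    rw [log_one] at h1
    refine h1.congr' ?_
    filter_upwards [tendsto_comap.eventually (eventually_gt_atTop T')] with z hz
    simp only [bl hz]
    exact (add_sub_cancel_right _ _).symm

/-- the logarithm of a chart is injective -/
theorem log_inj {A B : ℂ → ℂ} {n : ℕ} (hn : 0 < n) (he : ∀ z : ℂ, 0 < z.re → exp (A z) = B z)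
    (hr : ∀ z : ℂ, 0 < z.re → A (z + I / n) = A z + 2 * π * I / n)
    (hi : ∀ z z' : ℂ, 0 < z.re → 0 < z'.re → B z = B z' → ∃ m : ℤ, z = z' + m * I) {z z' : ℂ}
    (hz : 0 < z.re) (hz' : 0 < z'.re) (e : A z = A z') : z = z' := by
  obtain ⟨m, rfl⟩ := hi z z' hz hz' (by rw [← he z hz, e, he z' hz'])
  rw [shift_I hn hr m hz', add_eq_left, mul_eq_zero] at e
  rw [e.resolve_right two_pi_I_ne_zero, zero_mul, add_zero]

/-- the logarithm of an open chart is open -/
theorem log_open {A B : ℂ → ℂ} (hc : ContinuousOn A {z | 0 < z.re})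
    (he : ∀ z : ℂ, 0 < z.re → exp (A z) = B z) {z : ℂ} (hz : 0 < z.re)
    (ho : 𝓝 (B z) ≤ map B (𝓝 z)) : 𝓝 (A z) ≤ map A (𝓝 z) := by
  have hp : {z : ℂ | 0 < z.re} ∈ 𝓝 z := (isOpen_lt continuous_const continuous_re).mem_nhds hz
  refine fun V hV => ?_
  have h1 : B '' (A ⁻¹' V ∩ ({z | 0 < z.re} ∩ A ⁻¹' ball (A z) 1)) ∈ 𝓝 (exp (A z)) := by
    rw [he z hz]
    exact ho (image_mem_map (inter_mem hV (inter_mem hp
      ((hc.continuousAt hp).preimage_mem_nhds (ball_mem_nhds _ one_pos)))))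
  filter_upwards [continuous_exp.continuousAt.preimage_mem_nhds h1, ball_mem_nhds (A z) one_pos]
    with y ⟨w, ⟨w1, w2, w3⟩, e⟩ hy
  obtain ⟨m, hm⟩ := exp_eq_exp_iff_exists_int.1 ((he w w2).trans e)
  have h2 : ‖(m : ℂ) * (2 * π * I)‖ < 2 := by
    rw [show (m : ℂ) * (2 * π * I) = A w - y by rw [hm]; ring, ← dist_eq_norm]
    linarith [dist_triangle_right (A w) y (A z), mem_ball.1 hy, mem_ball.1 w3]
  have h3 : m = 0 := by
    by_contra h
    have h4 : (1 : ℝ) ≤ |(m : ℝ)| := by exact_mod_cast Int.one_le_abs h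
    simp only [norm_mul, norm_intCast, norm_ofNat, norm_real, norm_I, mul_one, Real.norm_eq_abs,
      abs_of_pos Real.pi_pos] at h2
    nlinarith [Real.pi_gt_three]
  rw [h3, Int.cast_zero, zero_mul, add_zero] at hm
  exact hm ▸ w1

/-- a continuous function invariant under `I`, bounded above far out, is bounded above on every
smaller half plane -/
theorem band {φ : ℂ → ℝ} (hc : ContinuousOn φ {z | 0 < z.re})
    (hp : ∀ (m : ℤ) (z : ℂ), 0 < z.re → φ (z + m * I) = φ z) {W : ℝ}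
    (hW : ∀ᶠ z in comap re atTop, φ z < W) {a : ℝ} (ha : 0 < a) :
    (∃ W', ∀ z : ℂ, a ≤ z.re → φ z ≤ W') ∧
      ((∀ z : ℂ, 0 < z.re → φ z < 0) → W < 0 → ∃ W' < 0, ∀ z : ℂ, a ≤ z.re → φ z ≤ W') := by
  obtain ⟨T, hT⟩ := eventually_atTop.1 (eventually_comap.1 hW)
  have hK : IsCompact (Icc a (max a T) ×ℂ Icc (0 : ℝ) 1) := isCompact_Icc.reProdIm isCompact_Icc
  obtain ⟨p, hp1, hp2⟩ := hK.exists_isMaxOn ⟨a, by simp [mem_reProdIm]⟩
    (hc.mono fun z hz => ha.trans_le hz.1.1)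
  have key : ∀ z : ℂ, a ≤ z.re → φ z ≤ max W (φ p) := fun z hz => by
    rcases le_total T z.re with h | h
    · exact (hT _ h z rfl).le.trans (le_max_left _ _)
    · rw [← hp (-⌊z.im⌋) z (ha.trans_le hz)]
      refine le_trans (hp2 ⟨?_, ?_⟩) (le_max_right _ _)
      · simpa using ⟨hz, Or.inr h⟩
      · simpa [← sub_eq_add_neg] using (Int.fract_lt_one z.im).le
  exact ⟨⟨_, key⟩, fun h1 h2 => ⟨_, max_lt h2 (h1 p (ha.trans_le hp1.1.1)), key⟩⟩

/-- the lift of a rescaled chart through another chart -/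
theorem lift {B B' : ℂ → ℂ} {n : ℕ} (hn : 0 < n) {κ κ' : ℝ} (hκ : 0 < κ) (hκ' : 0 < κ') {s : ℂ}
    (hs : s ≠ 0) (hc : ContinuousOn B {z | 0 < z.re}) (h0 : ∀ z : ℂ, 0 < z.re → B z ≠ 0)
    (hr : ∀ z : ℂ, 0 < z.re → B (z + I / n) = exp (2 * π * I / n) * B z)
    (ha : Tendsto (fun z => B z * exp (-(κ * z.re + 2 * π * I * z.im))) (comap re atTop) (𝓝 1))
    (hi : ∀ z z' : ℂ, 0 < z.re → 0 < z'.re → B z = B z' → ∃ m : ℤ, z = z' + m * I)
    (hc' : ContinuousOn B' {z | 0 < z.re}) (h0' : ∀ z : ℂ, 0 < z.re → B' z ≠ 0)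
    (hr' : ∀ z : ℂ, 0 < z.re → B' (z + I / n) = exp (2 * π * I / n) * B' z)
    (ha' : Tendsto (fun z => B' z * exp (-(κ' * z.re + 2 * π * I * z.im))) (comap re atTop) (𝓝 1))
    (hi' : ∀ z z' : ℂ, 0 < z.re → 0 < z'.re → B' z = B' z' → ∃ m : ℤ, z = z' + m * I)
    (ho' : ∀ z : ℂ, 0 < z.re → 𝓝 (B' z) ≤ map B' (𝓝 z))
    (hb' : ∀ T : ℝ, ∃ R : ℝ, ∀ z : ℂ, 0 < z.re → z.re ≤ T → ‖B' z‖ ≤ R)
    (him : ∀ z : ℂ, 0 < z.re → ∃ z' : ℂ, 0 < z'.re ∧ B' z' = B z / s) :
    ∃ Λ : ℂ → ℂ, ContinuousOn Λ {z | 0 < z.re} ∧ (∀ z : ℂ, 0 < z.re → 0 < (Λ z).re) ∧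
      (∀ z : ℂ, 0 < z.re → B' (Λ z) = B z / s) ∧
      (∀ z : ℂ, 0 < z.re → Λ (z + I / n) = Λ z + I / n) ∧
      (∀ (m : ℤ) (z : ℂ), 0 < z.re → Λ (z + m * I) = Λ z + m * I) ∧ InjOn Λ {z | 0 < z.re} ∧
      Tendsto (fun z => (Λ z).re) (comap re atTop) atTop ∧
      Tendsto (fun z => (Λ z).im - z.im) (comap re atTop) (𝓝 (-arg s / (2 * π))) ∧
      (∀ a > 0, ∃ W : ℝ, ∀ z : ℂ, a ≤ z.re → |(Λ z).im - z.im| ≤ W) ∧
      ∀ a > 0, ∃ a' > 0, ∀ z : ℂ, a ≤ z.re → a' ≤ (Λ z).re := by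
  obtain ⟨A, Ac, Ae, Ar, Aa⟩ := log_chart hc h0 hr ha
  obtain ⟨C, Cc, Ce, Cr, Ca⟩ := log_chart hc' h0' hr' ha'
  have ex : ∀ z : ℂ, ∃ z' : ℂ, 0 < z.re → 0 < z'.re ∧ C z' = A z - log s := fun z => by
    by_cases hz : 0 < z.re
    · obtain ⟨w, hw, e⟩ := him z hz
      obtain ⟨m, hm⟩ := exp_eq_exp_iff_exists_int.1 (show exp (C w) = exp (A z - log s) by
        rw [Ce w hw, e, exp_sub, Ae z hz, exp_log hs])
      refine ⟨w + ((-m : ℤ) : ℂ) * I, fun _ => ⟨by simpa using hw, ?_⟩⟩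
      rw [shift_I hn Cr _ hw, hm]
      push_cast
      ring
    · exact ⟨0, fun h => (hz h).elim⟩
  choose Λ hΛ using ex
  have p : ∀ z : ℂ, 0 < z.re → 0 < (Λ z).re := fun z hz => (hΛ z hz).1
  have q : ∀ z : ℂ, 0 < z.re → C (Λ z) = A z - log s := fun z hz => (hΛ z hz).2
  have Ci := fun {z z' : ℂ} => log_inj (z := z) (z' := z') hn Ce Cr hi'
  have e1 : ∀ z : ℂ, 0 < z.re → B' (Λ z) = B z / s := fun z hz => by
    rw [← Ce _ (p z hz), q z hz, exp_sub, Ae z hz, exp_log hs]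
  have Lc : ContinuousOn Λ {z | 0 < z.re} := fun z hz U hU => by
    have h1 := log_open Cc Ce (p z hz) (ho' _ (p z hz)) (image_mem_map (inter_mem hU
      ((isOpen_lt continuous_const continuous_re).mem_nhds (p z hz))))
    rw [q z hz] at h1
    rw [mem_map]
    filter_upwards [((Ac z hz).sub continuousWithinAt_const).preimage_mem_nhdsWithin h1,
      self_mem_nhdsWithin] with w ⟨u, hu, e⟩ hw
    rw [mem_preimage, Ci (p w hw) hu.2 ((q w hw).trans e.symm)]
    exact hu.1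
  have Lr : ∀ z : ℂ, 0 < z.re → Λ (z + I / n) = Λ z + I / n := fun z hz => by
    have hz' : 0 < (z + I / n).re := by rwa [re_one]
    refine Ci (p _ hz') (by rw [re_one]; exact p z hz) ?_
    rw [q _ hz', Cr _ (p z hz), q z hz, Ar z hz]
    ring
  have Lm : ∀ (m : ℤ) (z : ℂ), 0 < z.re → Λ (z + m * I) = Λ z + m * I := fun m z hz =>
    shift_I hn Lr m hz
  have ev : ∀ᶠ z : ℂ in comap re atTop, 0 < z.re := tendsto_comap.eventually (eventually_gt_atTop 0)
  have t1 : Tendsto (fun z => (Λ z).re) (comap re atTop) atTop := by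
    have h1 : Tendsto (fun z => ‖B z / s‖) (comap re atTop) atTop := by
      have h2 := (continuous_re.tendsto _).comp Aa
      have h3 : Tendsto (fun z : ℂ => κ * z.re) (comap re atTop) atTop :=
        tendsto_comap.const_mul_atTop hκ
      refine ((Real.tendsto_exp_atTop.comp (h2.add_atTop h3)).atTop_div_const
        (norm_pos_iff.2 hs)).congr' ?_
      filter_upwards [ev] with z hz
      simp [← Ae z hz, norm_exp]
    refine tendsto_atTop.2 fun T => ?_
    obtain ⟨R, hR⟩ := hb' T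
    filter_upwards [ev, h1.eventually (eventually_gt_atTop R)] with z hz h2
    by_contra! h
    exact h2.not_ge (e1 z hz ▸ hR _ (p z hz) h.le)
  have t2 : Tendsto (fun z => (Λ z).im - z.im) (comap re atTop) (𝓝 (-arg s / (2 * π))) := by
    have h1 := (continuous_im.tendsto _).comp Aa
    have h2 := (continuous_im.tendsto _).comp (Ca.comp (tendsto_comap_iff.2 t1))
    have h3 := ((h1.sub h2).sub_const (arg s)).div_const (2 * π)
    rw [sub_self, zero_sub] at h3
    refine h3.congr' ?_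
    filter_upwards [ev] with z hz
    rw [div_eq_iff (by positivity)]
    simp [q z hz, log_im]
    ring
  refine ⟨Λ, Lc, p, e1, Lr, Lm, fun z hz w hw e => ?_, t1, t2, fun a ha => ?_, fun a ha => ?_⟩
  · refine log_inj hn Ae Ar hi hz hw ?_
    have := q z hz
    rw [e, q w hw] at this
    exact (sub_left_inj.1 this).symm
  · exact (band (φ := fun z => |(Λ z).im - z.im|)
      (((continuous_im.comp_continuousOn Lc).sub continuous_im.continuousOn).abs)
      (fun m z hz => by simp [Lm m z hz]) (t2.abs.eventually (gt_mem_nhds (lt_add_one _))) ha).1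
  · obtain ⟨W, h1, h2⟩ := (band (φ := fun z => -(Λ z).re) (W := -1)
      (continuous_re.comp_continuousOn Lc).neg (fun m z hz => by simp [Lm m z hz])
      ((t1.eventually (eventually_gt_atTop 1)).mono fun z hz => neg_lt_neg hz) ha).2
      (fun z hz => neg_lt_zero.2 (p z hz)) (by norm_num)
    exact ⟨-W, neg_pos.2 h1, fun z hz => by linarith [h2 z hz]⟩

/-- an exact chart satisfies the asymptotic rule -/
theorem asym_of_exact {B : ℂ → ℂ} {κ t₀ : ℝ}
    (h : ∀ z : ℂ, t₀ ≤ z.re → B z = exp (κ * z.re + 2 * π * I * z.im)) :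
    Tendsto (fun z => B z * exp (-(κ * z.re + 2 * π * I * z.im))) (comap re atTop) (𝓝 1) := by
  refine tendsto_const_nhds.congr' ?_
  filter_upwards [tendsto_comap.eventually (eventually_ge_atTop t₀)] with z hz
  rw [h z hz, ← exp_add, add_neg_cancel, exp_zero]

/-- the last hit of a level -/
theorem last_hit {f : ℝ → ℝ} {t₀ u : ℝ} (hc : ContinuousOn f (Ici t₀)) (h0 : f t₀ ≤ u)
    (ht : Tendsto f atTop atTop) : ∃ T, t₀ ≤ T ∧ f T = u ∧ ∀ t, T < t → u < f t := by
  obtain ⟨b, hb⟩ := eventually_atTop.1 (ht.eventually (eventually_gt_atTop u))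
  have hK : IsCompact (Icc t₀ b ∩ f ⁻¹' Iic u) := isCompact_Icc.of_isClosed_subset
    ((hc.mono Icc_subset_Ici_self).preimage_isClosed_of_isClosed isClosed_Icc isClosed_Iic)
    inter_subset_left
  have h1 : ∀ t, f t ≤ u → t ≤ b := fun t h => le_of_not_ge fun h' => (hb t h').not_ge h
  obtain ⟨T, ⟨hT, hT'⟩, hm⟩ := hK.exists_isGreatest ⟨t₀, ⟨le_rfl, h1 _ h0⟩, h0⟩
  have h2 : ∀ t, T < t → u < f t := fun t h => lt_of_not_ge fun h' =>
    h.not_ge (hm ⟨⟨hT.1.trans h.le, h1 t h'⟩, h'⟩)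
  obtain ⟨x, hx, e⟩ := intermediate_value_Icc hT.2 (hc.mono fun x hx => hT.1.trans hx.1)
    ⟨hT', (hb b le_rfl).le⟩
  refine ⟨T, hT.1, ?_, h2⟩
  rwa [(hx.1.eq_or_lt.resolve_right fun h => (h2 x h).ne' e)]

/-- last hits are unique -/
theorem last_hit_uniq {f : ℝ → ℝ} {u T T' : ℝ} (h : f T = u ∧ ∀ t, T < t → u < f t)
    (h' : f T' = u ∧ ∀ t, T' < t → u < f t) : T = T' :=
  le_antisymm (le_of_not_gt fun c => (h'.2 T c).ne' h.1) (le_of_not_gt fun c => (h.2 T' c).ne' h'.1)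

/-- last hits of small levels correspond under a functional equation -/
theorem last_hit_iff {f g : ℝ → ℝ} {N Q t₀ t₁ u T : ℝ} (hN : 0 < N) (hQ : 0 < Q)
    (fe : ∀ t, t₀ ≤ t → t < t₁ → N * f t = g (Q * t)) (hf : ∀ t, t₁ ≤ t → u < f t)
    (hg : ∀ t, t₁ ≤ t → N * u < g (Q * t)) (hT : t₀ ≤ T) :
    (f T = u ∧ ∀ t, T < t → u < f t) ↔ g (Q * T) = N * u ∧ ∀ t, Q * T < t → N * u < g t := by
  constructor
  · rintro ⟨h1, h2⟩
    refine ⟨by rw [← fe T hT (lt_of_not_ge fun c => (hf T c).ne' h1), h1], fun t ht => ?_⟩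
    have h3 : T < t / Q := by rwa [lt_div_iff₀' hQ]
    rw [← mul_div_cancel₀ t hQ.ne']
    rcases lt_or_ge (t / Q) t₁ with c | c
    · rw [← fe _ (hT.trans h3.le) c]
      exact mul_lt_mul_of_pos_left (h2 _ h3) hN
    · exact hg _ c
  · rintro ⟨h1, h2⟩
    refine ⟨mul_left_cancel₀ hN.ne' ((fe T hT (lt_of_not_ge fun c => (hg T c).ne' h1)).trans h1),
      fun t ht => ?_⟩
    rcases lt_or_ge t t₁ with c | c
    · exact lt_of_mul_lt_mul_left (by
        rw [fe t (hT.trans ht.le) c]; exact h2 _ (mul_lt_mul_of_pos_left ht hQ)) hN.le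
    · exact hf t c

end RT2
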