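import Mathlib

/-! Tools for renormalization towers: the parameter velocity, its cone, escape estimates. -/

set_option autoImplicit false

open Filter Topology Set Metric Complex

namespace RT23

theorem diff_iter {G : ℂ → ℂ} (hG : Differentiable ℂ G) (k : ℕ) : Differentiable ℂ G^[k] :=
  hG.iterate k

theorem deriv_iter_add {G : ℂ → ℂ} (hG : Differentiable ℂ G) (a b : ℕ) (z : ℂ) :
    deriv G^[a + b] z = deriv G^[a] (G^[b] z) * deriv G^[b] z := by
  rw [Function.iterate_add]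
  exact deriv_comp z (diff_iter hG a _) (diff_iter hG b _)

theorem deriv_iter_succ {G : ℂ → ℂ} (hG : Differentiable ℂ G) (k : ℕ) (z : ℂ) :
    deriv G^[k + 1] z = deriv G (G^[k] z) * deriv G^[k] z := by
  rw [add_comm, deriv_iter_add hG, Function.iterate_one]

/-- closed form of the velocity recursion -/
theorem vsum {G : ℂ → ℂ} (hG : Differentiable ℂ G) (z : ℂ) {V v : ℕ → ℂ} (h0 : V 0 = v 0)
    (hs : ∀ k, V (k + 1) = deriv G (G^[k] z) * V k + v (k + 1)) (k : ℕ) :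
    V k = ∑ m ∈ Finset.range (k + 1), deriv G^[k - m] (G^[m] z) * v m := by
  induction k with
  | zero => simp [h0]
  | succ k ih =>
    rw [hs, ih, Finset.sum_range_succ _ (k + 1), Finset.mul_sum]
    congr 1
    · refine Finset.sum_congr rfl fun m hm => ?_
      have hm' : m ≤ k := Nat.lt_succ_iff.mp (Finset.mem_range.mp hm)
      rw [show k + 1 - m = k - m + 1 by omega, deriv_iter_succ hG, ← Function.iterate_add_apply,
        Nat.sub_add_cancel hm', mul_assoc]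
    · simp

theorem deriv_iter_ne {G : ℂ → ℂ} (hG : Differentiable ℂ G) {z : ℂ} {k m : ℕ} (hm : m ≤ k)
    (hD : deriv G^[k] z ≠ 0) : deriv G^[m] z ≠ 0 := by
  intro h
  rw [← Nat.sub_add_cancel hm, deriv_iter_add hG, h, mul_zero] at hD
  exact hD rfl

theorem vsum_div {G : ℂ → ℂ} (hG : Differentiable ℂ G) (z : ℂ) {V v : ℕ → ℂ} (h0 : V 0 = v 0)
    (hs : ∀ k, V (k + 1) = deriv G (G^[k] z) * V k + v (k + 1)) (k : ℕ)
    (hD : deriv G^[k] z ≠ 0) :
    V k = deriv G^[k] z * ∑ m ∈ Finset.range (k + 1), v m / deriv G^[m] z := by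
  rw [vsum hG z h0 hs, Finset.mul_sum]
  refine Finset.sum_congr rfl fun m hm => ?_
  have hm' : m ≤ k := Nat.lt_succ_iff.mp (Finset.mem_range.mp hm)
  have h1 := deriv_iter_ne hG hm' hD
  have h2 := deriv_iter_add hG (k - m) m z
  rw [Nat.sub_add_cancel hm'] at h2
  rw [h2]
  field_simp

/-- The velocity recursion: `V k y` is the parameter derivative of `G^[k] (g y)`. -/
structure Vel (n : ℕ) (G g w : ℂ → ℂ) (V : ℕ → ℂ → ℂ) : Prop where
  zero : ∀ y, V 0 y = w y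
  succ : ∀ k y, V (k + 1) y = deriv G (G^[k] (g y)) * V k y + w ((G^[k] (g y)) ^ n)

theorem Vel.diff {n : ℕ} {G g w : ℂ → ℂ} {V : ℕ → ℂ → ℂ} (h : Vel n G g w V)
    (hG : Differentiable ℂ G) (hg : Differentiable ℂ g) (hw : Differentiable ℂ w) (k : ℕ) :
    Differentiable ℂ (V k) := by
  induction k with
  | zero => rwa [show V 0 = w from funext h.zero]
  | succ k ih =>
    rw [show V (k + 1) = _ from funext (h.succ k)]
    have h1 : Differentiable ℂ fun y => G^[k] (g y) := (diff_iter hG k).comp hg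
    exact ((hG.deriv.comp h1).mul ih).add (hw.comp (h1.pow n))

/-- `V k y = D_k * S` with `S = w y + sum_(i < k) a_(i+1) w (c_i ^ n)`. -/
theorem Vel.at {n : ℕ} {G g w : ℂ → ℂ} {V : ℕ → ℂ → ℂ} (h : Vel n G g w V)
    (hG : Differentiable ℂ G) (k : ℕ) (y : ℂ) (hD : deriv G^[k] (g y) ≠ 0) :
    V k y = deriv G^[k] (g y) * (w y + ∑ i ∈ Finset.range k,
      (deriv G^[i + 1] (g y))⁻¹ * w ((G^[i] (g y)) ^ n)) := by
  rw [vsum_div hG (g y) (V := fun k => V k y)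
    (v := fun m => Nat.casesOn m (w y) fun i => w ((G^[i] (g y)) ^ n)) (h.zero y)
    (fun k => h.succ k y) k hD, Finset.sum_range_succ']
  simp only [Function.iterate_zero, deriv_id, div_eq_inv_mul, inv_one, one_mul]
  rw [add_comm]
  rfl

/-- the recursion computes the parameter derivative -/
theorem Vel.param {n : ℕ} {F : ℂ → ℂ → ℂ} (hF : Differentiable ℂ fun p : ℂ × ℂ => F p.1 p.2)
    {c B : ℂ} {w : ℂ → ℂ} {V : ℕ → ℂ → ℂ} (h : Vel n (fun u => F c (u ^ n)) (F c) w V)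
    (hw : ∀ y, HasDerivAt (fun l => F l y) (B * w y) c) (k : ℕ) (y : ℂ) :
    HasDerivAt (fun l => (fun u => F l (u ^ n))^[k] (F l y)) (B * V k y) c := by
  induction k with
  | zero => rw [h.zero]; exact hw y
  | succ k ih =>
    simp only [Function.iterate_succ_apply']
    set φ : ℂ → ℂ := fun l => (fun u => F l (u ^ n))^[k] (F l y) with hφ
    have hL := (hF (c, φ c ^ n)).hasFDerivAt
    set L := fderiv ℂ (fun p : ℂ × ℂ => F p.1 p.2) (c, φ c ^ n)
    have h1 : HasDerivAt (fun l => F l (φ c ^ n)) (L (1, 0)) c :=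
      HasFDerivAt.comp_hasDerivAt (f := fun l => (l, φ c ^ n)) c hL
        ((hasDerivAt_id c).prodMk (hasDerivAt_const c _))
    have h2 : HasDerivAt (fun u => F c (u ^ n)) (L (0, n * φ c ^ (n - 1))) (φ c) :=
      HasFDerivAt.comp_hasDerivAt (f := fun u => (c, u ^ n)) (φ c) hL
        ((hasDerivAt_const _ c).prodMk (hasDerivAt_pow n _))
    have h3 : HasDerivAt (fun l => F l (φ l ^ n)) (L (1, n * φ c ^ (n - 1) * (B * V k y))) c :=
      HasFDerivAt.comp_hasDerivAt (f := fun l => (l, φ l ^ n)) c hL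
        ((hasDerivAt_id c).prodMk (ih.fun_pow n))
    have h4 : ((1 : ℂ), n * φ c ^ (n - 1) * (B * V k y)) =
        (1, 0) + (B * V k y) • (0, n * φ c ^ (n - 1)) := by
      ext <;> simp [mul_comm]
    rw [h4, map_add, map_smul, h1.unique (hw _), ← h2.deriv] at h3
    convert h3 using 1
    rw [h.succ, smul_eq_mul]
    change B * (deriv _ (φ c) * V k y + w (φ c ^ n)) = _
    ring

/-- Schwarz step -/
theorem schwarz {P : ℂ → ℂ} {r M σ : ℝ} {x0 x : ℂ} (hP : DifferentiableOn ℂ P (ball 0 r))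
    (hM : ∀ x ∈ ball (0 : ℂ) r, ‖P x‖ ≤ M) (hσ : 4 * σ < r) (h0 : ‖x0‖ ≤ σ) (hx : ‖x‖ ≤ σ) :
    ‖P x - P x0‖ ≤ 8 * M * σ / r := by
  have hσ0 : 0 ≤ σ := (norm_nonneg _).trans h0
  have hr : 0 < r := by linarith
  have hsub : ball x0 (r / 2) ⊆ ball 0 r := ball_subset_ball' (by rw [dist_zero_right]; linarith)
  have hd : dist x x0 ≤ 2 * σ := by
    rw [dist_eq_norm]; linarith [norm_sub_le x x0]
  have hx0 : x0 ∈ ball (0 : ℂ) r := mem_ball_zero_iff.mpr (by linarith)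
  have hM0 : 0 ≤ M := (norm_nonneg _).trans (hM _ hx0)
  have h1 := dist_le_div_mul_dist_of_mapsTo_ball (R₂ := 2 * M) (hP.mono hsub)
    (fun z hz => by
      rw [mem_closedBall, dist_eq_norm]
      linarith [norm_sub_le (P z) (P x0), hM z (hsub hz), hM _ hx0])
    (show x ∈ ball x0 (r / 2) by rw [mem_ball]; linarith)
  rw [dist_eq_norm] at h1
  refine h1.trans ?_
  calc 2 * M / (r / 2) * dist x x0 ≤ 2 * M / (r / 2) * (2 * σ) := by gcongr
    _ = _ := by field_simp; ring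

/-- along an inverse branch the forward derivative is the inverse of the branch derivative -/
theorem inv_branch {G Y : ℂ → ℂ} (hG : Differentiable ℂ G) {U : Set ℂ} (hU : IsOpen U)
    (hY : DifferentiableOn ℂ Y U) {N m : ℕ} (hm : m ≤ N) (hid : ∀ x ∈ U, G^[N] (Y x) = x)
    {x : ℂ} (hx : x ∈ U) :
    deriv G^[N - m] (G^[m] (Y x)) * deriv (fun x => G^[m] (Y x)) x = 1 := by
  have h1 : DifferentiableAt ℂ (fun x => G^[m] (Y x)) x :=
    (diff_iter hG m _).comp x (hY.differentiableAt (hU.mem_nhds hx))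
  have h2 := ((diff_iter hG (N - m) _).hasDerivAt.comp x h1.hasDerivAt)
  refine h2.unique ((hasDerivAt_id x).congr_of_eventuallyEq ?_)
  filter_upwards [hU.mem_nhds hx] with y hy
  simp only [Function.comp, id]
  rw [← Function.iterate_add_apply, Nat.sub_add_cancel hm, hid y hy]

/-- bound of the velocity along the inverse branch -/
theorem Vel.psi {n : ℕ} {G g w : ℂ → ℂ} {V : ℕ → ℂ → ℂ} (h : Vel n G g w V)
    (hG : Differentiable ℂ G) (hg : Differentiable ℂ g) {N : ℕ} {ρ A : ℝ} {Z : ℂ → ℂ}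
    {U : Set ℂ} {x0 x : ℂ} (hU : IsOpen U) (hw1 : ∀ y, ‖y‖ ≤ ρ → ‖w y - 1‖ ≤ 1 / 4)
    (hZ : DifferentiableOn ℂ Z U) (hid : ∀ x ∈ U, G^[N] (g (Z x)) = x) (h0 : x0 ∈ U) (hx : x ∈ U)
    (hb0 : ‖Z x‖ ≤ ρ) (hb : ∀ m < N, ‖G^[m] (g (Z x))‖ ^ n ≤ ρ)
    (hdist : ∀ m ≤ N, ‖deriv (fun x => G^[m] (g (Z x))) x /
      deriv (fun x => G^[m] (g (Z x))) x0 - 1‖ ≤ 1 / 2)
    (hlow : ∀ m ≤ N, ‖deriv G^[N] (g (Z x0))‖ ≤ A * ‖deriv G^[m] (g (Z x0))‖)
    (hD : deriv G^[N] (g (Z x0)) ≠ 0) : ‖V N (Z x)‖ ≤ 5 / 2 * (N + 1) * A := by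
  have hY : DifferentiableOn ℂ (fun x => g (Z x)) U := hg.comp_differentiableOn hZ
  have hw : ∀ y, ‖y‖ ≤ ρ → ‖w y‖ ≤ 5 / 4 := fun y hy => by
    have := norm_add_le (w y - 1) 1
    rw [sub_add_cancel, norm_one] at this
    linarith [hw1 y hy]
  rw [vsum hG (g (Z x)) (V := fun k => V k (Z x))
    (v := fun m => Nat.casesOn m (w (Z x)) fun i => w ((G^[i] (g (Z x))) ^ n)) (h.zero _)
    (fun k => h.succ k _) N]
  refine (norm_sum_le_of_le (n := fun _ => 2 * A * (5 / 4)) _ fun m hm => ?_).trans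
    (le_of_eq (by simp; ring))
  have hm' : m ≤ N := Nat.lt_succ_iff.mp (Finset.mem_range.mp hm)
  have h1 := inv_branch hG hU hY hm' hid hx
  have h2 := inv_branch hG hU hY hm' hid h0
  have h3 := hdist m hm'
  have h4 := deriv_iter_add hG (N - m) m (g (Z x0))
  rw [Nat.sub_add_cancel hm'] at h4
  have h5 := hlow m hm'
  have h6 : 0 < ‖deriv G^[m] (g (Z x0))‖ := norm_pos_iff.mpr (deriv_iter_ne hG hm' hD)
  rw [h4, norm_mul] at h5
  have h7 := le_of_mul_le_mul_right h5 h6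
  set a := deriv G^[N - m] (G^[m] (g (Z x)))
  set a0 := deriv G^[N - m] (G^[m] (g (Z x0)))
  set e := deriv (fun x => G^[m] (g (Z x))) x
  set e0 := deriv (fun x => G^[m] (g (Z x))) x0
  have he0 : e0 ≠ 0 := right_ne_zero_of_mul_eq_one h2
  have h8 : a - a0 = -(a * (e / e0 - 1)) := by
    field_simp
    linear_combination h1 - h2
  have h9 : ‖a‖ ≤ 2 * A := by
    have h10 := norm_add_le (a - a0) a0
    rw [sub_add_cancel, h8, norm_neg, norm_mul] at h10
    nlinarith [norm_nonneg a]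
  rw [norm_mul]
  refine mul_le_mul h9 ?_ (norm_nonneg _) ((norm_nonneg _).trans h9)
  rcases m with _ | m
  · exact hw _ hb0
  · exact hw _ (by rw [norm_pow]; exact hb m (by omega))

/-- **Cone**: the rescaled velocity of the return map is again almost constant. -/
theorem Vel.cone {n : ℕ} {G g w : ℂ → ℂ} {V : ℕ → ℂ → ℂ} (h : Vel n G g w V)
    (hG : Differentiable ℂ G) (hg : Differentiable ℂ g) (hw : Differentiable ℂ w)
    {N : ℕ} {ρ r σ A : ℝ} {Z : ℂ → ℂ} {x0 : ℂ} (hw1 : ∀ y, ‖y‖ ≤ ρ → ‖w y - 1‖ ≤ 1 / 4)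
    (hZ : DifferentiableOn ℂ Z (ball 0 r)) (hid : ∀ x ∈ ball (0 : ℂ) r, G^[N] (g (Z x)) = x)
    (hZ0 : Z x0 = 0) (h0 : ‖x0‖ ≤ σ) (hσ : 4 * σ < r)
    (hb0 : ∀ x ∈ ball (0 : ℂ) r, ‖Z x‖ ≤ ρ)
    (hb : ∀ x ∈ ball (0 : ℂ) r, ∀ m < N, ‖G^[m] (g (Z x))‖ ^ n ≤ ρ)
    (hdist : ∀ x ∈ ball (0 : ℂ) r, ∀ m ≤ N, ‖deriv (fun x => G^[m] (g (Z x))) x /
      deriv (fun x => G^[m] (g (Z x))) x0 - 1‖ ≤ 1 / 2)
    (hlow : ∀ m ≤ N, ‖deriv G^[N] (g 0)‖ ≤ A * ‖deriv G^[m] (g 0)‖)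
    (hD : deriv G^[N] (g 0) ≠ 0) (hS : 80 * (N + 1) * A * σ ≤ r * ‖V N 0‖) (hV : V N 0 ≠ 0)
    {x : ℂ} (hx : ‖x‖ ≤ σ) : ‖V N (Z x) / V N 0 - 1‖ ≤ 1 / 4 := by
  have hσ0 : 0 ≤ σ := (norm_nonneg _).trans h0
  have hr : 0 < r := by linarith
  have hx0 : x0 ∈ ball (0 : ℂ) r := mem_ball_zero_iff.mpr (by linarith)
  have h1 := schwarz (P := fun x => V N (Z x)) ((h.diff hG hg hw N).comp_differentiableOn hZ)
    (fun x hx => h.psi hG hg isOpen_ball hw1 hZ hid hx0 hx (hb0 x hx) (hb x hx) (hdist x hx)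
      (by rwa [hZ0]) (by rwa [hZ0])) hσ h0 hx
  simp only [hZ0] at h1
  rw [div_sub_one hV, norm_div, div_le_iff₀ (norm_pos_iff.mpr hV)]
  refine h1.trans ?_
  rw [div_le_iff₀ hr]
  linarith

/-- a sequence which grows geometrically as long as it is large is unbounded -/
theorem grow {t : ℕ → ℝ} {a M : ℝ} (ha : 0 < a) (hs : ∀ k, a ≤ t k → 3 / 2 * t k ≤ t (k + 1))
    (hM : ∀ k, t k ≤ M) (k : ℕ) : t k < a := by
  by_contra hk
  have h1 : ∀ j : ℕ, (3 / 2 : ℝ) ^ j * a ≤ t (k + j) := fun j => by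
    induction j with
    | zero => simpa using not_lt.mp hk
    | succ j ih =>
      have h2 : (1 : ℝ) ≤ (3 / 2) ^ j := one_le_pow₀ (by norm_num)
      have h3 := hs (k + j) (by nlinarith)
      rw [pow_succ, ← add_assoc]
      linarith
  obtain ⟨j, hj⟩ := pow_unbounded_of_one_lt (M / a) (by norm_num : (1 : ℝ) < 3 / 2)
  rw [div_lt_iff₀ ha] at hj
  linarith [h1 j, hM (k + j)]

/-- **ORB**: a bounded orbit of an almost unicritical recursion is bounded by `4`. -/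
theorem orb {n : ℕ} (hn : 2 ≤ n) {u : ℕ → ℂ} {χ : ℂ} {M : ℝ} (h1 : u 1 = χ)
    (hM : ∀ k, ‖u k‖ ≤ M) (hs : ∀ k, ‖u (k + 1) - χ - u k ^ n‖ ≤ ‖u (k + 1) - χ‖ / 10) :
    ‖χ‖ < 3 ∧ ∀ k, ‖u k‖ < 4 := by
  have key : ∀ k, 1 ≤ ‖u k‖ → ‖u k‖ ^ 2 ≤ 11 / 10 * (‖u (k + 1)‖ + ‖χ‖) := fun k hk => by
    have h2 : ‖u k‖ ^ 2 ≤ ‖u k‖ ^ n := pow_le_pow_right₀ hk hn
    have h3 := norm_sub_le (u (k + 1) - χ) (u (k + 1) - χ - u k ^ n)
    rw [sub_sub_cancel, norm_pow] at h3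
    linarith [hs k, norm_sub_le (u (k + 1)) χ]
  have hχ : ‖χ‖ < 3 := by
    by_contra h
    have h := not_lt.mp h
    have := grow (t := fun k => ‖u k‖) (a := ‖χ‖) (by linarith) (fun k hk => by
      have := key k (by linarith)
      nlinarith) hM 1
    simp [h1] at this
  exact ⟨hχ, grow (t := fun k => ‖u k‖) (by norm_num) (fun k hk => by
    have := key k (by linarith)
    nlinarith) hM⟩

/-- **CHI**: a small critical value produces an attracting fixed point. -/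
theorem chi {n : ℕ} (hn : 2 ≤ n) {g : ℂ → ℂ} (hg : Differentiable ℂ g)
    (h4 : ∀ y : ℂ, ‖y‖ ≤ 100 → ‖g y - y‖ ≤ 4) (h0 : ‖g 0‖ < 1 / 8) :
    ∃ z, g (z ^ n) = z ∧ ‖deriv (fun u => g (u ^ n)) z‖ < 1 := by
  have hd : ∀ y : ℂ, ‖y‖ ≤ 1 → ‖deriv g y‖ ≤ 11 / 10 := fun y hy => by
    have h1 := norm_deriv_le_of_forall_mem_sphere_norm_le (f := fun y => g y - y) (c := y)
      (R := 99) (C := 4) (by norm_num) (hg.sub differentiable_id).diffContOnCl fun z hz => h4 z (by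
        have := norm_add_le (z - y) y
        rw [sub_add_cancel, ← dist_eq_norm, mem_sphere.mp hz] at this
        linarith)
    rw [((hg y).hasDerivAt.fun_sub (hasDerivAt_id' y)).deriv] at h1
    have := norm_add_le (deriv g y - 1) 1
    rw [sub_add_cancel, norm_one] at this
    linarith
  have hp : ∀ m : ℕ, ((m : ℝ) + 2) * (1 / 4) ^ (m + 1) ≤ 1 / 2 := fun m => by
    induction m with
    | zero => norm_num
    | succ m ih =>
      have : (0 : ℝ) ≤ (1 / 4) ^ (m + 1) := by positivity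
      have : (0 : ℝ) ≤ m * (1 / 4) ^ (m + 1) := by positivity
      rw [pow_succ]; push_cast; nlinarith
  obtain ⟨m, rfl⟩ := Nat.exists_eq_add_of_le' hn
  have hD : ∀ u ∈ closedBall (0 : ℂ) (1 / 4), HasDerivAt (fun u => g (u ^ (m + 2)))
      (deriv g (u ^ (m + 2)) * (((m + 2 : ℕ) : ℂ) * u ^ (m + 1))) u ∧
      ‖deriv g (u ^ (m + 2)) * (((m + 2 : ℕ) : ℂ) * u ^ (m + 1))‖ ≤ 11 / 20 := fun u hu => by
    have hu' := mem_closedBall_zero_iff.mp hu
    refine ⟨(hg _).hasDerivAt.comp u (hasDerivAt_pow (m + 2) u), ?_⟩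
    have h1 := hd (u ^ (m + 2)) (by rw [norm_pow]; exact pow_le_one₀ (norm_nonneg _) (by linarith))
    have h2 : ‖((m + 2 : ℕ) : ℂ) * u ^ (m + 1)‖ ≤ 1 / 2 := by
      rw [norm_mul, norm_natCast, norm_pow]
      refine le_trans ?_ (hp m)
      push_cast
      gcongr
    rw [norm_mul]
    nlinarith [norm_nonneg (deriv g (u ^ (m + 2))), norm_nonneg (((m + 2 : ℕ) : ℂ) * u ^ (m + 1))]
  have hmaps : MapsTo (fun u => g (u ^ (m + 2))) (closedBall (0 : ℂ) (1 / 4))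
      (closedBall 0 (1 / 4)) := fun u hu => by
    have hu' := mem_closedBall_zero_iff.mp hu
    have h1 : ‖u ^ (m + 2)‖ ≤ 1 / 16 := by
      rw [norm_pow]
      calc ‖u‖ ^ (m + 2) ≤ ‖u‖ ^ 2 := pow_le_pow_of_le_one (norm_nonneg _) (by linarith) (by omega)
        _ ≤ (1 / 4) ^ 2 := by gcongr
        _ = _ := by norm_num
    have h2 := (convex_closedBall (0 : ℂ) 1).norm_image_sub_le_of_norm_deriv_le (f := g)
      (fun y _ => hg y) (fun y hy => hd y (mem_closedBall_zero_iff.mp hy))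
      (mem_closedBall_self zero_le_one) (mem_closedBall_zero_iff.mpr (h1.trans (by norm_num)))
    rw [sub_zero] at h2
    have h3 := norm_add_le (g (u ^ (m + 2)) - g 0) (g 0)
    rw [sub_add_cancel] at h3
    rw [mem_closedBall_zero_iff]
    linarith
  have hcon : ContractingWith (11 / 20) (hmaps.restrict _ _ _) := by
    refine ⟨by norm_num, LipschitzWith.of_dist_le_mul fun x y => ?_⟩
    have := (convex_closedBall (0 : ℂ) (1 / 4)).norm_image_sub_le_of_norm_hasDerivWithin_le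
      (fun u hu => (hD u hu).1.hasDerivWithinAt) (fun u hu => (hD u hu).2) y.2 x.2
    simpa [Subtype.dist_eq, dist_eq_norm] using this
  obtain ⟨z, hz, hfix, -⟩ := ContractingWith.exists_fixedPoint' isClosed_closedBall.isComplete hmaps
    hcon (mem_closedBall_self (by norm_num)) (edist_ne_top _ _)
  exact ⟨z, hfix, by rw [(hD z hz).1.deriv]; linarith [(hD z hz).2]⟩

end RT23
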