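import Pool.Agent.Lib.RT.T23
import Pool.Agent.Lib.MP_c35c17_an.LDefs

/-! The unnormalised parameter velocity and its bound by the distance to hyperbolic parameters. -/

set_option autoImplicit false

open Filter Topology Set Metric N62a1eb23

namespace RT23

open Pool.Agent.Lib.MP_c35c17_an

/-- `W n c k y` is the derivative in `c` of `f_c^[k] (y + c)`. -/
noncomputable def W (n : ℕ) (c : ℂ) : ℕ → ℂ → ℂ
  | 0, _ => 1
  | k + 1, y => (n : ℂ) * ((F n c)^[k] (y + c)) ^ (n - 1) * W n c k y + 1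

theorem W_zero (n : ℕ) (c y : ℂ) : W n c 0 y = 1 := rfl

theorem W_succ (n : ℕ) (c : ℂ) (k : ℕ) (y : ℂ) :
    W n c (k + 1) y = (n : ℂ) * ((F n c)^[k] (y + c)) ^ (n - 1) * W n c k y + 1 := rfl

theorem dP_eq {n : ℕ} (hn : 2 ≤ n) (c : ℂ) (k : ℕ) : dP n c (k + 1) = W n c k 0 := by
  induction k with
  | zero => simp [dP, W]
  | succ k ih =>
    rw [dP, W, ih, Function.iterate_succ_apply]
    simp [F, zero_pow (show n ≠ 0 by omega)]

theorem W_diff (n : ℕ) (c : ℂ) (k : ℕ) : Differentiable ℂ (W n c k) := by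
  induction k with
  | zero => exact differentiable_const (1 : ℂ)
  | succ k ih =>
    rw [show W n c (k + 1) = _ from funext (W_succ n c k)]
    exact (((((differentiable_iter n c k).comp (differentiable_id.add_const c)).pow
      (n - 1)).const_mul _).mul ih).add_const 1

theorem W_add (n : ℕ) (c : ℂ) (a p : ℕ) (y : ℂ) : W n c (a + (p + 1)) y =
    dF n c (p + 1) ((F n c)^[a] (y + c)) * W n c a y + W n c p (((F n c)^[a] (y + c)) ^ n) := by
  induction p with
  | zero => simp [W, dF]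
  | succ p ih =>
    rw [← add_assoc, W_succ, ih, W_succ, dF_succ n c (p + 1), add_comm a (p + 1),
      Function.iterate_add_apply, Function.iterate_succ_apply]
    ring

section level

variable {n p : ℕ} {c σ : ℂ} {g : ℂ → ℂ}

theorem lv_one (hσ : σ ≠ 0) (hg : ∀ y, g y = σ⁻¹ * (F n c)^[p] (σ ^ n * y + c)) (u : ℂ) :
    σ * g (u ^ n) = (F n c)^[p + 1] (σ * u) := by
  rw [hg, mul_inv_cancel_left₀ hσ, Function.iterate_succ_apply, ← mul_pow]

theorem lv_iter (hσ : σ ≠ 0) (hg : ∀ y, g y = σ⁻¹ * (F n c)^[p] (σ ^ n * y + c)) (k : ℕ) (u : ℂ) :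
    σ * (fun u => g (u ^ n))^[k] u = (F n c)^[k * (p + 1)] (σ * u) := by
  induction k with
  | zero => simp
  | succ k ih =>
    rw [Function.iterate_succ_apply', lv_one hσ hg, ih, ← Function.iterate_add_apply]
    congr 1
    ring

theorem lv_val (hσ : σ ≠ 0) (hg : ∀ y, g y = σ⁻¹ * (F n c)^[p] (σ ^ n * y + c)) (k : ℕ) (y : ℂ) :
    σ * (fun u => g (u ^ n))^[k] (g y) = (F n c)^[k * (p + 1) + p] (σ ^ n * y + c) := by
  rw [lv_iter hσ hg, hg, mul_inv_cancel_left₀ hσ, Function.iterate_add_apply]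

theorem lv_diff (hg : ∀ y, g y = σ⁻¹ * (F n c)^[p] (σ ^ n * y + c)) : Differentiable ℂ g := by
  rw [show g = _ from funext hg]
  exact ((differentiable_iter n c p).comp
    ((differentiable_id.const_mul _).add_const c)).const_mul _

theorem lv_deriv (hσ : σ ≠ 0) (hg : ∀ y, g y = σ⁻¹ * (F n c)^[p] (σ ^ n * y + c)) (k : ℕ) (u : ℂ) :
    HasDerivAt (fun u => g (u ^ n))^[k] (dF n c (k * (p + 1)) (σ * u)) u := by
  have h1 : (fun u => g (u ^ n))^[k] = fun u => σ⁻¹ * (F n c)^[k * (p + 1)] (σ * u) :=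
    funext fun u => by rw [← lv_iter hσ hg, inv_mul_cancel_left₀ hσ]
  rw [h1]
  refine (((hasDerivAt_iter n c _ (σ * u)).comp u
    ((hasDerivAt_id' u).const_mul σ)).const_mul σ⁻¹).congr_deriv ?_
  field_simp

/-- the next level of the tower has the same form -/
theorem lv_next (hσ : σ ≠ 0) (hg : ∀ y, g y = σ⁻¹ * (F n c)^[p] (σ ^ n * y + c)) (s : ℂ) (N : ℕ)
    (y : ℂ) : s⁻¹ * (fun u => g (u ^ n))^[N] (g (s ^ n * y)) =
      (σ * s)⁻¹ * (F n c)^[N * (p + 1) + p] ((σ * s) ^ n * y + c) := by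
  rw [mul_pow, mul_assoc, ← lv_val hσ hg, mul_inv, mul_comm σ⁻¹, mul_assoc,
    inv_mul_cancel_left₀ hσ]

/-- the level invariant `W p (σ ^ n y) = β w y` propagates along the velocity recursion -/
theorem Vel.lv {β : ℂ} {w : ℂ → ℂ} {V : ℕ → ℂ → ℂ} (h : Vel n (fun u => g (u ^ n)) g w V)
    (hσ : σ ≠ 0) (hg : ∀ y, g y = σ⁻¹ * (F n c)^[p] (σ ^ n * y + c))
    (hw : ∀ y, W n c p (σ ^ n * y) = β * w y) (k : ℕ) (y : ℂ) :
    W n c (k * (p + 1) + p) (σ ^ n * y) = β * V k y := by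
  induction k with
  | zero => simp [hw, h.zero]
  | succ k ih =>
    have h1 := (lv_deriv hσ hg 1 ((fun u => g (u ^ n))^[k] (g y))).deriv
    rw [Function.iterate_one, one_mul] at h1
    rw [show (k + 1) * (p + 1) + p = k * (p + 1) + p + (p + 1) by ring, W_add, ih, h.succ, h1,
      ← lv_val hσ hg, mul_pow, hw]
    ring

end level

/-- `param_bound` with its constant. -/
theorem dP_le {n : ℕ} (hn : 2 ≤ n) {c : ℂ} (hc : c ∈ multibrotSet n) {r₀ : ℝ} (hr₀ : 0 < r₀)
    (hH : ∀ b ∈ {c : ℂ | ∃ m z, IsAttractingCycle (fun z ↦ z ^ n + c) m z}, r₀ ≤ dist c b)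
    (k : ℕ) : ‖dP n c k‖ ≤ (‖c‖ + 4) / (min r₀ 1 / 2) := by
  set r := min r₀ 1 with hr
  have hr0 : 0 < r := lt_min hr₀ one_pos
  set ρ := ‖c‖ + 4 with hρ
  have hρ1 : 1 ≤ ρ := by linarith [norm_nonneg c]
  set Λ : ℝ := n * (ρ + 1) ^ (n - 1) with hΛ
  have hn' : (2 : ℝ) ≤ n := by exact_mod_cast hn
  have hΛ1 : 1 ≤ Λ := by
    have : (1 : ℝ) ≤ (ρ + 1) ^ (n - 1) := one_le_pow₀ (by linarith)
    nlinarith
  have hρu : ∀ u ∈ ball (0 : ℂ) r, ‖c + u‖ + 3 ≤ ρ := by
    intro u hu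
    have h1 : ‖u‖ < 1 := (mem_ball_zero_iff.mp hu).trans_le (min_le_right _ _)
    linarith [norm_add_le c u]
  have hlow : ∀ u ∈ ball (0 : ℂ) r, ∀ k, 1 / (4 * Λ ^ (k + 1)) < ‖(F n (c + u))^[k + 1] 0‖ := by
    intro u hu k
    by_contra hcon
    have hcon := not_lt.mp hcon
    have hle : 1 / (4 * Λ ^ (k + 1)) < ρ := by
      have : 1 ≤ Λ ^ (k + 1) := one_le_pow₀ hΛ1
      rw [div_lt_iff₀ (by positivity)]
      nlinarith
    have hb : ∀ j ≤ k + 1, ‖(F n (c + u))^[j] 0‖ ≤ ρ := by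
      intro j hj
      by_contra h
      obtain ⟨i, hi⟩ := Nat.exists_eq_add_of_le' hj
      have := (escape_iter hn (hρu u hu) (not_le.mp h).le i).1
      rw [← Function.iterate_add_apply, ← hi] at this
      linarith [not_le.mp h]
    obtain ⟨z, hz⟩ := attracting_of_close hn (by linarith) (Nat.succ_pos k) hb hcon
    have := hH (c + u) ⟨_, z, hz⟩
    rw [dist_comm, dist_eq_norm, add_sub_cancel_left] at this
    linarith [(mem_ball_zero_iff.mp hu).trans_le (min_le_left _ _)]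
  have hne : ∀ u ∈ ball (0 : ℂ) r, ∀ k, (F n (c + u))^[k + 1] 0 ≠ 0 := by
    intro u hu k h
    have := hlow u hu k
    rw [h, norm_zero] at this
    have : 0 < 1 / (4 * Λ ^ (k + 1)) := by positivity
    linarith
  have hdiff : ∀ k, Differentiable ℂ fun u => (F n (c + u))^[k] 0 := fun k u =>
    ((hasDerivAt_param n k (c + u)).comp_const_add c u).differentiableAt
  set A : ℝ := 5 * Real.log (4 * Λ) + 3 * (Real.log ρ + Real.pi) with hA
  have hl4 : 0 < Real.log (4 * Λ) := Real.log_pos (by linarith)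
  have hlρ : 0 ≤ Real.log ρ := Real.log_nonneg hρ1
  have hup : ∀ u ∈ closedBall (0 : ℂ) (r / 2), ∀ k,
      ‖(F n (c + u))^[k + 1] 0‖ ≤ Real.exp (A * (k + 1)) := by
    intro u hu k
    obtain ⟨φ, h0, hφ, he⟩ := exists_log_ball (hdiff (k + 1)) hr0 fun z hz => hne z hz k
    have hM : ∀ z ∈ ball (0 : ℂ) r, -(φ z).re ≤ (k + 1) * Real.log (4 * Λ) := by
      intro z hz
      have h1 := hlow z hz k
      rw [← he z hz, Complex.norm_exp] at h1
      have h2 := Real.log_lt_log (by positivity) h1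
      rw [Real.log_exp, one_div, Real.log_inv] at h2
      have h3 : Real.log (4 * Λ ^ (k + 1)) ≤ Real.log ((4 * Λ) ^ (k + 1)) := by
        refine Real.log_le_log (by positivity) ?_
        rw [mul_pow (4 : ℝ) Λ]
        exact mul_le_mul_of_nonneg_right (le_self_pow₀ (by norm_num : (1 : ℝ) ≤ 4) (by omega))
          (by positivity)
      rw [Real.log_pow] at h3
      push_cast at h3
      linarith
    have hu' : ‖u‖ ≤ r / 2 := by simpa using hu
    have hub : u ∈ ball (0 : ℂ) r := by rw [mem_ball_zero_iff]; linarith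
    have hBC := Complex.borelCaratheodory (f := fun z => -φ z) (M := (k + 1) * Real.log (4 * Λ))
      (by positivity) hφ.neg (fun z hz => by simpa using hM z hz) hr0 hub
    have h00 : ‖φ 0‖ ≤ (k + 1) * Real.log (4 * Λ) + (Real.log ρ + Real.pi) := by
      refine (Complex.norm_le_abs_re_add_abs_im _).trans ?_
      have a1 : |(φ 0).im| ≤ Real.pi := by rw [h0, Complex.log_im]; exact Complex.abs_arg_le_pi _
      have a2 := hM 0 (mem_ball_self hr0)
      have a3 : (φ 0).re ≤ Real.log ρ := by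
        rw [h0, Complex.log_re]
        refine Real.log_le_log (norm_pos_iff.mpr (hne 0 (mem_ball_self hr0) k)) ?_
        rw [add_zero]
        exact (orbit_lt hn hc (by linarith) _).le
      have a4 : 0 ≤ (k + 1) * Real.log (4 * Λ) := by positivity
      have : |(φ 0).re| ≤ (k + 1) * Real.log (4 * Λ) + Real.log ρ := abs_le.mpr ⟨by linarith, by linarith⟩
      linarith
    simp only [norm_neg] at hBC
    have hd : 0 < r - ‖u‖ := by linarith
    have b1 : 2 * ((k + 1) * Real.log (4 * Λ)) * ‖u‖ / (r - ‖u‖) ≤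
        2 * ((k + 1) * Real.log (4 * Λ)) := by
      rw [div_le_iff₀ hd]
      gcongr
      linarith
    have b2 : ‖φ 0‖ * (r + ‖u‖) / (r - ‖u‖) ≤ ‖φ 0‖ * 3 := by
      rw [div_le_iff₀ hd, mul_assoc]
      gcongr
      linarith
    rw [← he u hub, Complex.norm_exp]
    refine Real.exp_le_exp.mpr ((Complex.re_le_norm _).trans ?_)
    have hk : (0 : ℝ) ≤ k := Nat.cast_nonneg k
    have := Real.pi_pos
    rw [hA]
    nlinarith
  have hbd : ∀ u ∈ closedBall (0 : ℂ) (r / 2), ∀ k, ‖(F n (c + u))^[k] 0‖ ≤ ρ := by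
    intro u hu j
    by_contra h
    have hub : u ∈ ball (0 : ℂ) r := closedBall_subset_ball (by linarith) hu
    obtain ⟨m, hm⟩ := lin_lt_dbl A j
    have h1 := (escape_iter hn (hρu u hub) (not_le.mp h).le (m + 1)).2
    rw [← Function.iterate_add_apply, show m + 1 + j = (m + j) + 1 by ring] at h1
    have h2 := hup u hu (m + j)
    have h3 : Real.exp (2 ^ m * Real.log (3 / 2)) ≤ 2 * (3 / 2 : ℝ) ^ (2 ^ (m + 1)) := by
      have : Real.exp (2 ^ m * Real.log (3 / 2)) = (3 / 2 : ℝ) ^ (2 ^ m) := by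
        rw [show (2 : ℝ) ^ m = ((2 ^ m : ℕ) : ℝ) by push_cast; ring, Real.exp_nat_mul,
          Real.exp_log (by norm_num)]
      rw [this]
      have h4 : (3 / 2 : ℝ) ^ (2 ^ m) ≤ (3 / 2 : ℝ) ^ (2 ^ (m + 1)) :=
        pow_le_pow_right₀ (by norm_num) (Nat.pow_le_pow_right (by norm_num) (by omega))
      have h5 : (0 : ℝ) ≤ (3 / 2 : ℝ) ^ (2 ^ (m + 1)) := by positivity
      linarith
    push_cast at h2
    have := Real.exp_lt_exp.mpr hm
    linarith
  have h1 := Complex.norm_deriv_le_of_forall_mem_sphere_norm_le (c := 0) (half_pos hr0)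
    (hdiff k).diffContOnCl fun z hz => hbd z (sphere_subset_closedBall hz) k
  have h2 : HasDerivAt (fun u => (F n (c + u))^[k] 0) (dP n c k) 0 :=
    HasDerivAt.comp_const_add c 0 (by simpa using hasDerivAt_param n k c)
  rwa [h2.deriv] at h1

/-- **END**: a large parameter derivative of the critical orbit forces `c` to be close to the
hyperbolic parameters. -/
theorem dist_mul_le {n : ℕ} (hn : 2 ≤ n) {c : ℂ} (hc : c ∈ multibrotSet n) (k : ℕ) :
    min (infDist c {c : ℂ | ∃ m z, IsAttractingCycle (fun z ↦ z ^ n + c) m z}) 1 * ‖dP n c k‖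
      ≤ 12 := by
  set H := {c : ℂ | ∃ m z, IsAttractingCycle (fun z ↦ z ^ n + c) m z}
  rcases (infDist_nonneg (x := c) (s := H)).eq_or_lt with h | h
  · rw [← h, min_eq_left zero_le_one]; norm_num
  have h1 := dP_le hn hc h (fun b hb => infDist_le_dist_of_mem hb) k
  have h2 : 0 < min (infDist c H) 1 := lt_min h one_pos
  rw [le_div_iff₀ (half_pos h2)] at h1
  linarith [L.norm_le_two hn hc]

theorem dist_le {n : ℕ} (hn : 2 ≤ n) {c : ℂ} (hc : c ∈ multibrotSet n) {k : ℕ} {S : ℝ}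
    (h : Real.exp S ≤ ‖dP n c k‖) :
    infDist c {c : ℂ | ∃ m z, IsAttractingCycle (fun z ↦ z ^ n + c) m z} ≤ 24 * Real.exp (-S) := by
  have h1 := dist_mul_le hn hc k
  set H := {c : ℂ | ∃ m z, IsAttractingCycle (fun z ↦ z ^ n + c) m z}
  have h0 : (0 : ℂ) ∈ H := by
    refine ⟨1, 0, one_pos, ?_, differentiable_iter n 0 1 0, ?_⟩
    · simp [Function.IsPeriodicPt, Function.IsFixedPt]; omega
    · rw [(hasDerivAt_iter n 0 1 0).deriv]
      simp [dF, zero_pow (show n - 1 ≠ 0 by omega)]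
  have h2 := infDist_le_dist_of_mem (x := c) h0
  rw [dist_zero_right] at h2
  have h3 := L.norm_le_two hn hc
  have h4 : infDist c H ≤ 2 * min (infDist c H) 1 := by
    rcases min_cases (infDist c H) 1 with h | h <;> linarith [infDist_nonneg (x := c) (s := H)]
  have h5 : 0 ≤ min (infDist c H) 1 := le_min infDist_nonneg zero_le_one
  rw [Real.exp_neg, ← div_eq_mul_inv, le_div_iff₀ (Real.exp_pos S)]
  nlinarith [mul_le_mul_of_nonneg_left h h5, Real.exp_pos S]

end RT23
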