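import Pool.Agent.Lib.KN55.B_BR
import Pool.Agent.Lib.KN55.B_MODEL

/-! Inverse branches of `u ↦ hom (u ^ n)` on the complement of a slit. -/

set_option autoImplicit false

open Filter Topology Set Metric Complex Bornology
open scoped Real

namespace RT27

open Pool.Agent.Lib.MP_c35c17_an KN

section chart

variable {n : ℕ} {B : ℂ → ℂ}

/-- rotation by several steps -/
theorem rot_nat (hrot : ∀ ζ : ℂ, 0 < ζ.re → B (ζ + I / n) = exp (2 * π * I / n) * B ζ) {t : ℝ}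
    (ht : 0 < t) (x : ℝ) (a : ℕ) : B ⟨t, x + a / n⟩ = exp (2 * π * I / n) ^ a * B ⟨t, x⟩ := by
  induction a with
  | zero => simp
  | succ a ih =>
    have h1 := hrot ⟨t, x + a / n⟩ ht
    have h2 : (⟨t, x + a / n⟩ : ℂ) + I / n = ⟨t, x + (a + 1 : ℕ) / n⟩ := by
      have h3 : (I / n : ℂ) = ((1 / n : ℝ) : ℂ) * I := by push_cast; ring
      rw [h3]
      refine Complex.ext (by simp) ?_
      simp only [add_im, mul_im, ofReal_re, I_im, mul_one, ofReal_im, I_re, mul_zero, add_zero]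
      push_cast
      ring
    rw [← h2, h1, ih, pow_succ]
    ring

/-- the period -/
theorem per_int (hn : 2 ≤ n)
    (hrot : ∀ ζ : ℂ, 0 < ζ.re → B (ζ + I / n) = exp (2 * π * I / n) * B ζ) {t : ℝ}
    (ht : 0 < t) (x : ℝ) (m : ℤ) : B ⟨t, x + m⟩ = B ⟨t, x⟩ := by
  have h1 : ∀ y : ℝ, B ⟨t, y + 1⟩ = B ⟨t, y⟩ := fun y => by
    have h2 := rot_nat hrot ht y n
    rwa [div_self (npos hn).ne', (isPrimitiveRoot_exp n (by omega)).pow_eq_one, one_mul] at h2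
  induction m using Int.induction_on with
  | zero => simp
  | succ k ih => rw [← ih, ← h1 (x + ((k : ℤ) : ℝ))]; congr 2; push_cast; ring
  | pred k ih => rw [← ih, ← h1 (x + ((-(k : ℤ) - 1 : ℤ) : ℝ))]; congr 2; push_cast; ring

theorem cg_eq (hn : 2 ≤ n)
    (hrot : ∀ ζ : ℂ, 0 < ζ.re → B (ζ + I / n) = exp (2 * π * I / n) * B ζ) {t : ℝ}
    (ht : 0 < t) {x y : ℝ} (h : Cg x y) : B ⟨t, x⟩ = B ⟨t, y⟩ := by
  obtain ⟨m, rfl⟩ := h
  exact per_int hn hrot ht y m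

theorem mk_mul (n : ℕ) (t x : ℝ) : (n : ℂ) * (⟨t, x⟩ : ℂ) = ⟨n * t, n * x⟩ :=
  Complex.ext (by simp) (by simp)

theorem cont_mk {X : Type} [TopologicalSpace X] {u v : X → ℝ} (hu : Continuous u)
    (hv : Continuous v) : Continuous fun p => (⟨u p, v p⟩ : ℂ) := by
  have h1 : (fun p => (⟨u p, v p⟩ : ℂ)) = fun p => (u p : ℂ) + (v p : ℂ) * I :=
    funext fun p => Complex.ext (by simp) (by simp)
  rw [h1]
  fun_prop

end chart

theorem unb_preimage (hom : ℂ ≃ₜ ℂ) {S : Set ℂ} (hb : ¬ IsBounded S) :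
    ¬ IsBounded (hom ⁻¹' S) := fun h => hb (by
  have h1 := (h.isCompact_closure.image hom.continuous).isBounded
  exact h1.subset fun y hy => ⟨hom.symm y, subset_closure (by simpa using hy), by simp⟩)

/-- holomorphic roots off the pulled back slit, normalised by the chart -/
theorem roots {n : ℕ} (hn : 2 ≤ n) (hom : ℂ ≃ₜ ℂ) {B : ℂ → ℂ} {S : Set ℂ} {g₀ ϑ : ℝ}
    (hB : ContinuousOn B {ζ | 0 < ζ.re})
    (hG : ∀ ζ : ℂ, 0 < ζ.re → hom (B ζ ^ n) = B (n * ζ))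
    (hrot : ∀ ζ : ℂ, 0 < ζ.re → B (ζ + I / n) = exp (2 * π * I / n) * B ζ)
    (hcl : IsClosed S) (hS : IsPreconnected S) (hb : ¬ IsBounded S) (hSc : IsPreconnected Sᶜ)
    (hc : hom 0 ∈ S) (hg₀ : 0 < g₀)
    (hoff : ∀ t x : ℝ, g₀ < t → ϑ < x → x < ϑ + 1 → B ⟨t, x⟩ ∉ S) :
    ∃ ρ : ZMod n → ℂ → ℂ, (∀ a, DifferentiableOn ℂ (ρ a) (hom ⁻¹' S)ᶜ) ∧
      (∀ a z, hom z ∉ S → ρ a z ^ n = z) ∧
      (∀ a b z, hom z ∉ S → ρ a z = ρ b z → a = b) ∧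
      (∀ u, hom (u ^ n) ∉ S → ∃ a, u = ρ a (u ^ n)) ∧
      ∀ a, ∀ t x : ℝ, g₀ < t → ¬ Cg x ϑ → ρ a (hom.symm (B ⟨t, x⟩)) = B ⟨t / n, gh n ϑ a x⟩ := by
  have hn0 : n ≠ 0 := by omega
  have : NeZero n := ⟨hn0⟩
  have hnR := npos hn
  have hnC : (n : ℂ) ≠ 0 := by exact_mod_cast hn0
  have hω := isPrimitiveRoot_exp n hn0
  have hS' : IsPreconnected (hom ⁻¹' S) := by
    rw [← hom.image_symm]
    exact hS.image _ hom.symm.continuous.continuousOn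
  have hSc' : IsPreconnected (hom ⁻¹' S)ᶜ := by
    rw [← preimage_compl, ← hom.image_symm]
    exact hSc.image _ hom.symm.continuous.continuousOn
  obtain ⟨Lz, hLd, hLe⟩ := Q.exists_log_of_full (hcl.preimage hom.continuous).isOpen_compl hSc'
    (XBR.full_compl hS' (unb_preimage hom hb)) (x := 0) fun h => h hc
  have hr : ∀ z, hom z ∉ S → exp (Lz z / n) ^ n = z := fun z hz => by
    rw [← exp_nat_mul, mul_div_cancel₀ _ hnC, hLe z hz, sub_zero]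
  have hBp : ∀ t x : ℝ, 0 < t → B ⟨t / n, x / n⟩ ^ n = hom.symm (B ⟨t, x⟩) := fun t x ht => by
    have h1 := hG ⟨t / n, x / n⟩ (div_pos ht hnR)
    rw [mk_mul, mul_div_cancel₀ _ hnR.ne', mul_div_cancel₀ _ hnR.ne'] at h1
    rw [← h1, hom.symm_apply_apply]
  set R : Set (ℝ × ℝ) := Ioi g₀ ×ˢ Ioo ϑ (ϑ + 1) with hR
  have hp : ((g₀ + 1, ϑ + 1 / 2) : ℝ × ℝ) ∈ R := ⟨by simp, by constructor <;> linarith⟩
  have hRS : ∀ p ∈ R, hom (hom.symm (B ⟨p.1, p.2⟩)) ∉ S := fun p hp => by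
    rw [hom.apply_symm_apply]
    exact hoff _ _ hp.1 hp.2.1 hp.2.2
  set ω : ℂ := B ⟨(g₀ + 1) / n, (ϑ + 1 / 2) / n⟩ /
    exp (Lz (hom.symm (B ⟨g₀ + 1, ϑ + 1 / 2⟩)) / n) with hωd
  have hω1 : ω ^ n = 1 := by
    rw [hωd, div_pow, hBp _ _ (by linarith), div_eq_one_iff_eq (pow_ne_zero _ (exp_ne_zero _))]
    exact (hr _ (hRS _ hp)).symm
  have hω0 : ω ≠ 0 := fun h => by
    rw [h, zero_pow hn0] at hω1
    exact zero_ne_one hω1
  have hroot : ∀ (a : ℕ) z, hom z ∉ S →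
      (exp (2 * π * I / n) ^ a * (ω * exp (Lz z / n))) ^ n = z := fun a z hz => by
    rw [mul_pow, mul_pow, hω1, one_mul, hr z hz, ← pow_mul, mul_comm a n, pow_mul, hω.pow_eq_one,
      one_pow, one_mul]
  have hc1 : ∀ u v : ℝ × ℝ → ℝ, Continuous u → Continuous v → (∀ p ∈ R, 0 < u p) →
      ContinuousOn (fun p => B ⟨u p, v p⟩) R := fun u v hu hv h0 =>
    hB.comp (f := fun p => (⟨u p, v p⟩ : ℂ)) (cont_mk hu hv).continuousOn fun p hp => h0 p hp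
  have hmain : EqOn (fun p : ℝ × ℝ => B ⟨p.1 / n, p.2 / n⟩)
      (fun p : ℝ × ℝ => ω * exp (Lz (hom.symm (B ⟨p.1, p.2⟩)) / n)) R := by
    refine L.eqOn_of_pow hn0 (isPreconnected_Ioi.prod isPreconnected_Ioo)
      (hc1 _ _ (by fun_prop) (by fun_prop) fun p hp => div_pos (hg₀.trans hp.1) hnR)
      (continuousOn_const.mul (ContinuousOn.cexp (ContinuousOn.div_const
        (hLd.continuousOn.comp (hom.symm.continuous.comp_continuousOn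
          (hc1 _ _ continuous_fst continuous_snd fun p hp => hg₀.trans hp.1))
          fun p hp => hRS p hp) _)))
      (fun p _ => mul_ne_zero hω0 (exp_ne_zero _)) (fun p hp => ?_) hp ?_
    · rw [hBp _ _ (hg₀.trans hp.1), mul_pow, hω1, one_mul, hr _ (hRS p hp)]
    · exact (div_mul_cancel₀ _ (exp_ne_zero _)).symm
  refine ⟨fun a z => exp (2 * π * I / n) ^ a.val * (ω * exp (Lz z / n)), fun a => ?_,
    fun a z hz => hroot _ z hz, fun a b z _ e => ?_, fun y hy => ?_, fun a t x ht hx => ?_⟩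
  · exact (differentiableOn_const _).mul ((differentiableOn_const _).mul (hLd.div_const _).cexp)
  · exact ZMod.val_injective n (hω.pow_inj (ZMod.val_lt a) (ZMod.val_lt b)
      (mul_right_cancel₀ (mul_ne_zero hω0 (exp_ne_zero _)) e))
  · have h0 : ω * exp (Lz (y ^ n) / n) ≠ 0 := mul_ne_zero hω0 (exp_ne_zero _)
    have h1 : (y / (ω * exp (Lz (y ^ n) / n))) ^ n = 1 := by
      rw [div_pow, div_eq_one_iff_eq (pow_ne_zero _ h0), mul_pow, hω1, one_mul, hr _ hy]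
    obtain ⟨i, hi, he⟩ := hω.eq_pow_of_pow_eq_one h1
    refine ⟨(i : ZMod n), ?_⟩
    simp only [ZMod.val_cast_of_lt hi]
    rw [he, div_mul_cancel₀ _ h0]
  · have h0 := hg₀.trans ht
    have h3 : (⌊x - ϑ⌋ : ℝ) < x - ϑ :=
      (Int.floor_le _).lt_of_ne fun e => hx ⟨⌊x - ϑ⌋, by rw [e]; ring⟩
    have h4 := Int.lt_floor_add_one (x - ϑ)
    have h5 := hmain (show ((t, x - ⌊x - ϑ⌋) : ℝ × ℝ) ∈ R from
      ⟨ht, by simp only; linarith, by simp only; linarith⟩)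
    simp only at h5 ⊢
    rw [← cg_eq hn hrot h0 (cg_sub_int x ⌊x - ϑ⌋), ← h5, ← rot_nat hrot (div_pos h0 hnR)]
    refine cg_eq hn hrot (div_pos h0 hnR) ⟨-⌊x - ϑ⌋, ?_⟩
    rw [gh]
    push_cast
    field_simp
    ring

/-- inverse branches of `G u = hom (u ^ n)` -/
theorem bra {n : ℕ} (hn : 2 ≤ n) (hom : ℂ ≃ₜ ℂ) {G B : ℂ → ℂ} {S : Set ℂ} {g₀ ϑ : ℝ}
    (hGd : ∀ u, G u = hom (u ^ n)) (hB : ContinuousOn B {ζ | 0 < ζ.re})
    (hG : ∀ ζ : ℂ, 0 < ζ.re → G (B ζ) = B (n * ζ))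
    (hrot : ∀ ζ : ℂ, 0 < ζ.re → B (ζ + I / n) = exp (2 * π * I / n) * B ζ)
    (hcl : IsClosed S) (hS : IsPreconnected S) (hb : ¬ IsBounded S) (hSc : IsPreconnected Sᶜ)
    (hc : hom 0 ∈ S) (hg₀ : 0 < g₀)
    (hoff : ∀ t x : ℝ, g₀ < t → ¬ Cg x ϑ → B ⟨t, x⟩ ∉ S) :
    ∃ g : ZMod n → ℂ → ℂ, (∀ a, ContinuousOn (g a) Sᶜ) ∧
      (∀ a (U : Set ℂ), Disjoint U S → DifferentiableOn ℂ hom.symm U →
        DifferentiableOn ℂ (g a) U) ∧
      (∀ a, ∀ y ∉ S, G (g a y) = y) ∧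
      (∀ a b, ∀ y ∉ S, ∀ y' ∉ S, g a y = g b y' → a = b) ∧
      (∀ y, G y ∉ S → ∃ a, y = g a (G y)) ∧
      (∀ a (U : Set ℂ), IsOpen U → Disjoint U S → IsOpen (g a '' U)) ∧
      ∀ a, ∀ t x : ℝ, g₀ < t → ¬ Cg x ϑ → g a (B ⟨t, x⟩) = B ⟨t / n, gh n ϑ a x⟩ := by
  obtain ⟨ρ, h1, h2, h3, h4, h5⟩ := roots hn hom hB (fun ζ hζ => by rw [← hGd, hG ζ hζ]) hrot hcl
    hS hb hSc hc hg₀ fun t x ht e1 e2 => hoff t x ht fun e =>
      e1.ne' (e.eq_of_abs (abs_lt.mpr ⟨by linarith, by linarith⟩))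
  have hs : ∀ y ∉ S, hom (hom.symm y) ∉ S := fun y hy => by rwa [hom.apply_symm_apply]
  have hinv : ∀ a, ∀ y ∉ S, G (ρ a (hom.symm y)) = y := fun a y hy => by
    rw [hGd, h2 a _ (hs y hy), hom.apply_symm_apply]
  refine ⟨fun a y => ρ a (hom.symm y), fun a => ?_, fun a U hU hd => ?_, hinv,
    fun a b y hy y' hy' e => ?_, fun y hy => ?_, fun a U hU hd => ?_, h5⟩
  · exact (h1 a).continuousOn.comp hom.symm.continuous.continuousOn fun y hy => hs y hy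
  · exact (h1 a).comp hd fun y hy => hs y (disjoint_left.mp hU hy)
  · have e' : ρ a (hom.symm y) = ρ b (hom.symm y') := e
    have e1 : y = y' := by rw [← hinv a y hy, e', hinv b y' hy']
    subst e1
    exact h3 a b _ (hs y hy) e'
  · rw [hGd] at hy
    obtain ⟨a, ha⟩ := h4 y hy
    exact ⟨a, by simp only; rwa [hGd, hom.symm_apply_apply]⟩
  · rw [← image_image (ρ a) hom.symm]
    refine Q.isOpen_image_of_injOn (hcl.preimage hom.continuous).isOpen_compl (h1 a)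
      (fun z hz z' hz' e => by rw [← h2 a z hz, e, h2 a z' hz']) _ ?_ (hom.symm.isOpenMap _ hU)
    rintro _ ⟨y, hy, rfl⟩
    exact hs y (disjoint_left.mp hd hy)

/-- a connected set whose image avoids the first slit lies in one sector -/
theorem sector {ι : Type} {G : ℂ → ℂ} {S A : Set ℂ} {g : ι → ℂ → ℂ}
    (ho : ∀ a, IsOpen (g a '' Sᶜ))
    (hj : ∀ a b, ∀ y ∉ S, ∀ y' ∉ S, g a y = g b y' → a = b)
    (hs : ∀ y, G y ∉ S → ∃ a, y = g a (G y)) (hA : IsPreconnected A)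
    (hm : ∀ y ∈ A, G y ∉ S) {a : ι} (ha : (A ∩ g a '' Sᶜ).Nonempty) : A ⊆ g a '' Sᶜ := by
  refine hA.subset_left_of_subset_union (ho a)
    (isOpen_biUnion (s := {b | b ≠ a}) fun b _ => ho b) ?_ (fun y hy => ?_) ha
  · refine disjoint_left.mpr ?_
    rintro _ ⟨y, hy, rfl⟩ h1
    obtain ⟨b, hb, y', hy', e⟩ := mem_iUnion₂.mp h1
    exact hb (hj _ _ _ hy' _ hy e)
  · obtain ⟨b, hb⟩ := hs y (hm y hy)
    by_cases e : b = a
    · exact Or.inl ⟨_, hm y hy, e ▸ hb.symm⟩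
    · exact Or.inr (mem_iUnion₂.mpr ⟨b, e, _, hm y hy, hb.symm⟩)

/-- the letter of a connected set containing a chart point of high potential -/
theorem sect {n : ℕ} (hn : 2 ≤ n) {G B : ℂ → ℂ} {S A : Set ℂ} {g : ZMod n → ℂ → ℂ} {g₀ ϑ t x : ℝ}
    (hG : ∀ ζ : ℂ, 0 < ζ.re → G (B ζ) = B (n * ζ))
    (hrot : ∀ ζ : ℂ, 0 < ζ.re → B (ζ + I / n) = exp (2 * π * I / n) * B ζ)
    (ho : ∀ a, IsOpen (g a '' Sᶜ))
    (hj : ∀ a b, ∀ y ∉ S, ∀ y' ∉ S, g a y = g b y' → a = b)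
    (hs : ∀ y, G y ∉ S → ∃ a, y = g a (G y))
    (hch : ∀ a, ∀ t x : ℝ, g₀ < t → ¬ Cg x ϑ → g a (B ⟨t, x⟩) = B ⟨t / n, gh n ϑ a x⟩)
    (hray : ∀ t, g₀ < t → B ⟨t, ϑ⟩ ∈ S) (hg : 0 < g₀)
    (hA : IsPreconnected A) (hm : ∀ y ∈ A, G y ∉ S) (ht : g₀ < n * t) (hx : B ⟨t, x⟩ ∈ A) :
    A ⊆ g (lt n ϑ x) '' Sᶜ := by
  have h0 : 0 < t := (mul_pos_iff_of_pos_left (npos hn)).mp (hg.trans ht)
  have h1 := hm _ hx
  have h2 := hG ⟨t, x⟩ h0
  rw [mk_mul] at h2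
  refine sector ho hj hs hA hm ⟨_, hx, _, h1, ?_⟩
  rw [h2] at h1 ⊢
  rw [hch _ _ _ ht fun e => h1 (by rw [cg_eq hn hrot (hg.trans ht) e]; exact hray _ ht),
    mul_div_cancel_left₀ _ (npos hn).ne']
  exact cg_eq hn hrot h0 (gh_back hn x)

end RT27
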