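import Mathlib

/-! Radial retraction keeps the complement of radial slits connected. -/

set_option autoImplicit false

open Set Metric Complex
open scoped Real

namespace RT27

theorem rad {O : Set ℂ} {ρ : ℝ} (hρ : 0 < ρ) (hO : IsPreconnected O)
    (hr : ∀ z ∈ O, ρ ≤ ‖z‖ → ((ρ / ‖z‖ : ℝ) : ℂ) * z ∈ O) :
    IsPreconnected (O ∩ closedBall 0 ρ) := by
  have hm : ∀ z : ℂ, 0 < max ρ ‖z‖ := fun z => lt_max_of_lt_left hρ
  have hc : Continuous fun z : ℂ => ((ρ / max ρ ‖z‖ : ℝ) : ℂ) * z :=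
    (continuous_ofReal.comp (continuous_const.div (continuous_const.max continuous_norm)
      fun z => (hm z).ne')).mul continuous_id
  have he : O ∩ closedBall 0 ρ = (fun z : ℂ => ((ρ / max ρ ‖z‖ : ℝ) : ℂ) * z) '' O := by
    refine Subset.antisymm (fun z hz => ⟨z, hz.1, ?_⟩) ?_
    · simp only
      rw [max_eq_left (mem_closedBall_zero_iff.mp hz.2), div_self hρ.ne', ofReal_one, one_mul]
    · rintro _ ⟨z, hz, rfl⟩
      simp only
      rcases le_total ρ ‖z‖ with h | h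
      · rw [max_eq_right h]
        refine ⟨hr z hz h, mem_closedBall_zero_iff.mpr (le_of_eq ?_)⟩
        rw [norm_mul, norm_real, Real.norm_of_nonneg (div_nonneg hρ.le (norm_nonneg _)),
          div_mul_cancel₀ _ (hρ.trans_le h).ne']
      · rw [max_eq_left h, div_self hρ.ne', ofReal_one, one_mul]
        exact ⟨hz, mem_closedBall_zero_iff.mpr h⟩
  rw [he]
  exact hO.image _ hc.continuousOn

/-- polar coordinates in the round part of a chart -/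
theorem polar {lam t₁ : ℝ} (hl : 0 < lam) {z : ℂ} (hz : Real.exp (lam * t₁) ≤ ‖z‖) :
    ∃ t x : ℝ, t₁ ≤ t ∧ z = exp ⟨lam * t, 2 * π * x⟩ ∧
      ((Real.exp (lam * t₁) / ‖z‖ : ℝ) : ℂ) * z = exp ⟨lam * t₁, 2 * π * x⟩ := by
  have h0 : 0 < ‖z‖ := (Real.exp_pos _).trans_le hz
  have hπ := Real.pi_pos
  have hx : 2 * π * (arg z / (2 * π)) = arg z := by field_simp
  have h1 : ∀ r : ℝ, exp (⟨r, arg z⟩ : ℂ) = (Real.exp r : ℂ) * exp (arg z * I) := fun r => by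
    rw [mk_eq_add_mul_I, exp_add, ofReal_exp]
  refine ⟨Real.log ‖z‖ / lam, arg z / (2 * π), ?_, ?_, ?_⟩
  · rw [le_div_iff₀ hl, mul_comm, Real.le_log_iff_exp_le h0]
    exact hz
  · rw [hx, mul_div_cancel₀ _ hl.ne', h1, Real.exp_log h0, norm_mul_exp_arg_mul_I]
  · rw [hx, h1]
    nth_rewrite 2 [← norm_mul_exp_arg_mul_I z]
    have : (‖z‖ : ℂ) ≠ 0 := by exact_mod_cast h0.ne'
    push_cast
    field_simp

/-- the complement of slits that are radial in the round part of the chart -/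
theorem rad_chart {B : ℂ → ℂ} {O : Set ℂ} {lam t₁ : ℝ} (hl : 0 < lam)
    (hB : ∀ t x : ℝ, t₁ ≤ t → B ⟨t, x⟩ = exp ⟨lam * t, 2 * π * x⟩) (hO : IsPreconnected O)
    (hr : ∀ t x : ℝ, t₁ ≤ t → B ⟨t, x⟩ ∈ O → B ⟨t₁, x⟩ ∈ O) :
    IsPreconnected (O ∩ closedBall 0 (Real.exp (lam * t₁))) := by
  refine rad (Real.exp_pos _) hO fun z hz h => ?_
  obtain ⟨t, x, h1, h2, h3⟩ := polar hl h
  rw [h3, ← hB _ _ le_rfl]
  exact hr t x h1 (by rwa [hB _ _ h1, ← h2])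

/-- the round part of the chart is the exterior of a disc -/
theorem ext_round {B : ℂ → ℂ} {lam t₀ t₁ : ℝ} (hl : 0 < lam) (h01 : t₀ ≤ t₁)
    (hB : ∀ t x : ℝ, t₀ ≤ t → B ⟨t, x⟩ = exp ⟨lam * t, 2 * π * x⟩) (z : ℂ) :
    z ∈ B '' {ζ | t₁ ≤ ζ.re} ↔ Real.exp (lam * t₁) ≤ ‖z‖ := by
  refine ⟨?_, fun h => ?_⟩
  · rintro ⟨ζ, h1, rfl⟩
    rw [show B ζ = B ⟨ζ.re, ζ.im⟩ from rfl, hB _ _ (h01.trans h1), norm_exp]
    exact Real.exp_le_exp.mpr (mul_le_mul_of_nonneg_left h1 hl.le)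
  · obtain ⟨t, x, h1, h2, -⟩ := polar hl h
    exact ⟨⟨t, x⟩, h1, by rw [hB _ _ (h01.trans h1), ← h2]⟩

end RT27
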