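import Mathlib

/-! Tools for renormalization towers: order of disjoint legs. -/

set_option autoImplicit false

open Filter Topology Set Metric Complex
open scoped Real

namespace RT28

theorem stay {θ : ℝ → ℝ} (hθ : Continuous θ) {x y v : ℝ} (hxy : x ≤ y)
    (h : ∀ t ∈ Icc x y, θ t ≠ v) : v < θ x ↔ v < θ y := by
  constructor <;> intro h1 <;> by_contra! h2
  · obtain ⟨t, ht, e⟩ := intermediate_value_Icc' hxy hθ.continuousOn ⟨h2, h1.le⟩
    exact h t ht e
  · obtain ⟨t, ht, e⟩ := intermediate_value_Icc hxy hθ.continuousOn ⟨h2, h1.le⟩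
    exact h t ht e

/-- Two disjoint curves that start on a vertical line, stay to its right and go to infinity in a
given vertical order start in this order. -/
theorem ord {a b : ℝ → ℂ} {s₀ t₀ m : ℝ} (ha : ContinuousOn a (Ici s₀))
    (hb : ContinuousOn b (Ici t₀)) (hne : ∀ s, s₀ ≤ s → ∀ t, t₀ ≤ t → a s ≠ b t)
    (h0 : (a s₀).re = (b t₀).re) (h1 : ∀ s, s₀ ≤ s → (a s₀).re ≤ (a s).re)
    (h2 : ∀ t, t₀ ≤ t → (b t₀).re ≤ (b t).re) (ha' : Tendsto (fun s => (a s).re) atTop atTop)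
    (hb' : Tendsto (fun t => (b t).re) atTop atTop) (h3 : ∀ᶠ s in atTop, (a s).im < m)
    (h4 : ∀ᶠ t in atTop, m < (b t).im) : (a s₀).im < (b t₀).im := by
  by_contra! hlt
  have hc : 0 < (a s₀).im - (b t₀).im := by
    refine sub_pos.2 (lt_of_le_of_ne hlt fun e => hne s₀ le_rfl t₀ le_rfl (Complex.ext h0 e.symm))
  set d : ℝ × ℝ → ℂ := fun p => b (max t₀ p.2) - a (max s₀ p.1) with hd
  have dc : Continuous d :=
    (hb.comp_continuous (by fun_prop) fun p => mem_Ici.2 (le_max_left _ _)).sub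
      (ha.comp_continuous (by fun_prop) fun p => mem_Ici.2 (le_max_left _ _))
  have := (convex_univ (𝕜 := ℝ) (E := ℝ × ℝ)).contractibleSpace univ_nonempty
  obtain ⟨f, hf, hf'⟩ := exists_continuousOn_eqOn_exp_comp (U := (univ : Set (ℝ × ℝ)))
    (SimplyConnectedSpace.ofContractible _) isOpen_univ dc.continuousOn (by
      rintro ⟨p, -, hp⟩
      exact hne _ (le_max_left _ _) _ (le_max_left _ _) (sub_eq_zero.1 hp).symm)
  have fc := continuousOn_univ.1 hf
  set L : ℝ × ℝ → ℂ := fun p =>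
    f p - f (s₀, t₀) + (Real.log ((a s₀).im - (b t₀).im) : ℝ) + (-(π / 2) : ℝ) * I with hL
  have Lc : Continuous fun p => (L p).im := by fun_prop
  have Le : ∀ s, s₀ ≤ s → ∀ t, t₀ ≤ t → exp (L (s, t)) = b t - a s := fun s hs t ht => by
    have e1 : exp (f (s, t)) = b t - a s := by
      simpa [hd, hs, ht] using hf' (mem_univ (s, t))
    have e2 : exp (f (s₀, t₀)) = (((a s₀).im - (b t₀).im : ℝ) : ℂ) * (-I) := by
      have := hf' (mem_univ (s₀, t₀))
      simp only [Function.comp, hd, max_self] at this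
      rw [this]
      apply Complex.ext <;> simp [h0]
    have e3 : exp (((-(π / 2) : ℝ) : ℂ) * I) = -I := by
      rw [exp_mul_I]; simp
    have e4 : (((a s₀).im - (b t₀).im : ℝ) : ℂ) ≠ 0 := ofReal_ne_zero.2 hc.ne'
    simp only [hL]
    rw [exp_add, exp_add, exp_sub, e1, e2, e3, ← ofReal_exp, Real.exp_log hc]
    field_simp
  have L0 : (L (s₀, t₀)).im = -(π / 2) := by
    simp only [hL, sub_self, zero_add, add_im, ofReal_im, mul_im, I_im, I_re, ofReal_re]; ring
  have neg : ∀ s, s₀ ≤ s → ∀ t, t₀ ≤ t → (L (s, t)).im = -π →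
      (b t).re < (a s).re ∧ (a s).im = (b t).im := fun s hs t ht e => by
    have r1 := congrArg re (Le s hs t ht)
    have r2 := congrArg im (Le s hs t ht)
    simp only [exp_re, exp_im, e, Real.cos_neg, Real.sin_neg, Real.cos_pi, Real.sin_pi, sub_re,
      sub_im] at r1 r2
    constructor <;> linarith [Real.exp_pos (L (s, t)).re]
  have pos : ∀ s, s₀ ≤ s → ∀ t, t₀ ≤ t → (L (s, t)).im = 0 →
      (a s).re < (b t).re ∧ (a s).im = (b t).im := fun s hs t ht e => by
    have r1 := congrArg re (Le s hs t ht)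
    have r2 := congrArg im (Le s hs t ht)
    simp only [exp_re, exp_im, e, Real.cos_zero, Real.sin_zero, sub_re, sub_im] at r1 r2
    constructor <;> linarith [Real.exp_pos (L (s, t)).re]
  obtain ⟨S, hS⟩ := eventually_atTop.1 (h3.and h4)
  obtain ⟨A, hA⟩ := (isCompact_Icc (a := s₀) (b := S)).bddAbove_image
    (continuous_re.comp_continuousOn (ha.mono Icc_subset_Ici_self))
  obtain ⟨B, hB⟩ := (isCompact_Icc (a := t₀) (b := S)).bddAbove_image
    (continuous_re.comp_continuousOn (hb.mono Icc_subset_Ici_self))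
  obtain ⟨S₁, k1, k2, k3⟩ := ((ha'.eventually_ge_atTop B).and
    ((eventually_ge_atTop S).and (eventually_ge_atTop s₀))).exists
  obtain ⟨S₂, l1, l2, l3⟩ := ((hb'.eventually_ge_atTop A).and
    ((eventually_ge_atTop S).and (eventually_ge_atTop t₀))).exists
  have p1 := (stay (θ := fun t => (L (s₀, t)).im) (by fun_prop) l3 (v := -π) fun t ht e => by
    linarith [(neg _ le_rfl _ ht.1 e).1, h2 t ht.1]).1 (by rw [L0]; linarith [Real.pi_pos])
  have p2 := (stay (θ := fun s => (L (s, S₂)).im) (by fun_prop) k3 (v := -π) fun s hs e => by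
    obtain ⟨e1, e2⟩ := neg _ hs.1 _ l3 e
    rcases le_total s S with h | h
    · have : (a s).re ≤ A := hA ⟨s, ⟨hs.1, h⟩, rfl⟩
      linarith
    · linarith [(hS s h).1, (hS S₂ l2).2]).1 p1
  have q1 := (stay (θ := fun s => (L (s, t₀)).im) (by fun_prop) k3 (v := 0) fun s hs e => by
    linarith [(pos _ hs.1 _ le_rfl e).1, h1 s hs.1]).not.1
      (by rw [L0]; linarith [Real.pi_pos])
  have q2 := (stay (θ := fun t => (L (S₁, t)).im) (by fun_prop) l3 (v := 0) fun t ht e => by
    obtain ⟨e1, e2⟩ := pos _ k3 _ ht.1 e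
    rcases le_total t S with h | h
    · have : (b t).re ≤ B := hB ⟨t, ⟨ht.1, h⟩, rfl⟩
      linarith
    · linarith [(hS S₁ k2).1, (hS t h).2]).not.1 q1
  have r2 := congrArg im (Le S₁ k3 S₂ l3)
  rw [exp_im, sub_im] at r2
  have r3 := Real.sin_nonpos_of_nonpos_of_neg_pi_le (not_lt.1 q2) p2.le
  nlinarith [(hS S₁ k2).1, (hS S₂ l2).2, Real.exp_pos (L (S₁, S₂)).re]

end RT28
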