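import Pool.Agent.Lib.RT.T2
import Pool.Agent.Lib.RT.T28b
import Pool.Agent.Lib.RT.T27

/-! Heights of the first leg and the letters of the renormalised kneading sequence. -/

set_option autoImplicit false

open Filter Topology Set Metric Complex
open scoped Real

namespace RT27

open KN

variable {n : ℕ} {Λ : ℂ → ℂ} {κ : ℝ}

theorem leg_cont (hc : ContinuousOn Λ {z | 0 < z.re}) {T : ℝ} (hT : 0 < T) (x : ℝ) :
    ContinuousOn (fun t : ℝ => Λ ⟨t, x⟩) (Ici T) :=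
  hc.comp (cont_mk continuous_id continuous_const).continuousOn fun _ ht => hT.trans_le ht

theorem leg_tendsto (x : ℝ) : Tendsto (fun t : ℝ => (⟨t, x⟩ : ℂ)) atTop (comap re atTop) :=
  tendsto_comap_iff.mpr tendsto_id

/-- last hits of one level are ordered like the angles -/
theorem ord_leg (hc : ContinuousOn Λ {z | 0 < z.re}) (hi : InjOn Λ {z | 0 < z.re})
    (hre : Tendsto (fun z => (Λ z).re) (comap re atTop) atTop)
    (him : Tendsto (fun z => (Λ z).im - z.im) (comap re atTop) (𝓝 κ)) {x x' T T' u : ℝ}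
    (hx : x < x') (hT : 0 < T) (hT' : 0 < T')
    (h : (Λ ⟨T, x⟩).re = u ∧ ∀ t, T < t → u < (Λ ⟨t, x⟩).re)
    (h' : (Λ ⟨T', x'⟩).re = u ∧ ∀ t, T' < t → u < (Λ ⟨t, x'⟩).re) :
    (Λ ⟨T, x⟩).im < (Λ ⟨T', x'⟩).im := by
  refine RT28.ord (a := fun t : ℝ => Λ ⟨t, x⟩) (b := fun t : ℝ => Λ ⟨t, x'⟩)
    (m := κ + (x + x') / 2) (leg_cont hc hT x) (leg_cont hc hT' x') (fun s hs t ht e => ?_)
    (h.1.trans h'.1.symm) (fun s hs => ?_) (fun s hs => ?_) (hre.comp (leg_tendsto x))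
    (hre.comp (leg_tendsto x')) ?_ ?_
  · exact hx.ne (congrArg im (hi (x₁ := ⟨s, x⟩) (hT.trans_le hs) (x₂ := ⟨t, x'⟩)
      (hT'.trans_le ht) e))
  · rcases hs.eq_or_lt with rfl | h1
    · exact le_rfl
    · exact h.1.le.trans (h.2 s h1).le
  · rcases hs.eq_or_lt with rfl | h1
    · exact le_rfl
    · exact h'.1.le.trans (h'.2 s h1).le
  · filter_upwards [(him.comp (leg_tendsto x)).eventually
      (eventually_lt_nhds (b := κ + (x' - x) / 2) (by linarith))] with s hs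
    simp only [Function.comp] at hs
    linarith
  · filter_upwards [(him.comp (leg_tendsto x')).eventually
      (eventually_gt_nhds (b := κ - (x' - x) / 2) (by linarith))] with s hs
    simp only [Function.comp] at hs
    linarith

theorem leg_shift (hr : ∀ z : ℂ, 0 < z.re → Λ (z + I / n) = Λ z + I / n) {t : ℝ} (ht : 0 < t)
    (x : ℝ) (j : ℤ) : Λ ⟨t, x + j / n⟩ = Λ ⟨t, x⟩ + ((j / n : ℝ) : ℂ) * I := by
  have h1 := RT2.shift_int hr j (z := ⟨t, x⟩) ht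
  have h2 : (j : ℂ) * (I / n) = ((j / n : ℝ) : ℂ) * I := by push_cast; ring
  rw [h2] at h1
  rw [← h1]
  congr 1
  exact Complex.ext (by simp only [add_re, re_ofReal_mul, I_re, mul_zero, add_zero])
    (by simp only [add_im, im_ofReal_mul, I_im, mul_one])

section legs

variable {Q t₁ v τ : ℝ} {x : ℕ → ℝ} {K : ℕ} {M : ℕ → ℤ}

/-- one step of the functional equation at a last hit -/
theorem hit_step (hn : 2 ≤ n) (hQ : 1 ≤ Q)
    (fe : ∀ k ≤ K, ∀ t, Q ^ k * τ ≤ t → t < t₁ → n * Λ ⟨t, x k⟩ = Λ ⟨Q * t, x (k + 1)⟩ + M k * I)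
    (hv : ∀ z : ℂ, t₁ ≤ z.re → v < (Λ z).re) (ht₁ : 0 < t₁) {k : ℕ} (hk : k ≤ K) {u T : ℝ}
    (hu0 : 0 ≤ u) (hu : n * u ≤ v) (hT : Q ^ k * τ ≤ T) :
    ((Λ ⟨T, x k⟩).re = u ∧ ∀ t, T < t → u < (Λ ⟨t, x k⟩).re) ↔
      (Λ ⟨Q * T, x (k + 1)⟩).re = n * u ∧ ∀ t, Q * T < t → n * u < (Λ ⟨t, x (k + 1)⟩).re := by
  have h2 := ntwo hn
  refine RT2.last_hit_iff (f := fun t => (Λ ⟨t, x k⟩).re) (g := fun t => (Λ ⟨t, x (k + 1)⟩).re)
    (t₁ := t₁) (npos hn) (one_pos.trans_le hQ) (fun t h1 h3 => ?_) (fun t h1 => ?_)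
    (fun t h1 => ?_) hT
  · simpa using congrArg re (fe k hk t h1 h3)
  · exact lt_of_le_of_lt (by nlinarith) (hv ⟨t, x k⟩ h1)
  · exact hu.trans_lt (hv ⟨Q * t, x (k + 1)⟩ (by simp only; nlinarith))

/-- several steps, starting from the first leg -/
theorem hit_iter (hn : 2 ≤ n) (hQ : 1 ≤ Q)
    (fe : ∀ k ≤ K, ∀ t, Q ^ k * τ ≤ t → t < t₁ → n * Λ ⟨t, x k⟩ = Λ ⟨Q * t, x (k + 1)⟩ + M k * I)
    (hv : ∀ z : ℂ, t₁ ≤ z.re → v < (Λ z).re) (ht₁ : 0 < t₁) (k : ℕ) (hk : k ≤ K) :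
    ∃ m : ℤ, ∀ u T : ℝ, 0 ≤ u → (n : ℝ) ^ k * u ≤ v → Q * τ ≤ T →
      ((Λ ⟨T, x 1⟩).re = u ∧ ∀ t, T < t → u < (Λ ⟨t, x 1⟩).re) →
      ((Λ ⟨Q ^ k * T, x (k + 1)⟩).re = (n : ℝ) ^ k * u ∧
        ∀ t, Q ^ k * T < t → (n : ℝ) ^ k * u < (Λ ⟨t, x (k + 1)⟩).re) ∧
      (Λ ⟨Q ^ k * T, x (k + 1)⟩).im = (n : ℝ) ^ k * (Λ ⟨T, x 1⟩).im - m := by
  have h2 := ntwo hn
  induction k with
  | zero => exact ⟨0, fun u T _ _ _ h => by simpa using h⟩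
  | succ k ih =>
    obtain ⟨m, hm⟩ := ih (by omega)
    refine ⟨n * m + M (k + 1), fun u T h0 hu hT h => ?_⟩
    have h3 : 0 ≤ (n : ℝ) ^ k * u := mul_nonneg (npow_pos hn k).le h0
    rw [pow_succ', mul_assoc] at hu
    obtain ⟨h4, h5⟩ := hm u T h0 (by nlinarith) hT h
    have h6 : Q ^ (k + 1) * τ ≤ Q ^ k * T := by
      rw [pow_succ, mul_assoc]
      exact mul_le_mul_of_nonneg_left hT (by positivity)
    have h7 := (hit_step hn hQ fe hv ht₁ hk h3 hu h6).mp h4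
    have h8 := congrArg im (fe (k + 1) hk _ h6 (lt_of_not_ge fun c => by
      have h9 := hv ⟨Q ^ k * T, x (k + 1)⟩ c
      rw [h4.1] at h9
      nlinarith))
    rw [pow_succ' Q, pow_succ' (n : ℝ), mul_assoc, mul_assoc, mul_assoc]
    refine ⟨h7, ?_⟩
    simp only [mul_im, natCast_re, natCast_im, zero_mul, add_zero, add_im, intCast_re, I_im,
      mul_one, intCast_im, I_re, mul_zero] at h8
    rw [h5] at h8
    push_cast
    linarith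

theorem heights_core (hn : 2 ≤ n) (hQ : 1 ≤ Q) (hτ : 0 < τ)
    (hc : ContinuousOn Λ {z | 0 < z.re}) (hr : ∀ z : ℂ, 0 < z.re → Λ (z + I / n) = Λ z + I / n)
    (hi : InjOn Λ {z | 0 < z.re}) (hre : Tendsto (fun z => (Λ z).re) (comap re atTop) atTop)
    (him : Tendsto (fun z => (Λ z).im - z.im) (comap re atTop) (𝓝 κ))
    (fe : ∀ k ≤ K, ∀ t, Q ^ k * τ ≤ t → t < t₁ → n * Λ ⟨t, x k⟩ = Λ ⟨Q * t, x (k + 1)⟩ + M k * I)
    (hv : ∀ z : ℂ, t₁ ≤ z.re → v < (Λ z).re) (ht₁ : 0 < t₁) (hv0 : 0 ≤ v) {T : ℕ → ℝ}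
    (hT : ∀ r ≤ K, Q * τ ≤ T r ∧ (Λ ⟨T r, x 1⟩).re = v / (n : ℝ) ^ r ∧
      ∀ t, T r < t → v / (n : ℝ) ^ r < (Λ ⟨t, x 1⟩).re) {j : ℕ → ℤ}
    (hj : ∀ k ≤ K, x 0 + j k / n < x (k + 1) ∧ x (k + 1) < x 0 + (j k + 1 : ℤ) / n) :
    ∃ m : ℕ → ℤ, ∀ r k, r + k + 1 ≤ K →
      ((M 0 + j k + n * m k : ℤ) : ℝ) <
        (n : ℝ) ^ (k + 1) * (Λ ⟨T (r + k + 1), x 1⟩).im - (Λ ⟨T r, x 1⟩).im ∧
      (n : ℝ) ^ (k + 1) * (Λ ⟨T (r + k + 1), x 1⟩).im - (Λ ⟨T r, x 1⟩).im <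
        ((M 0 + j k + n * m k : ℤ) : ℝ) + 1 := by
  have hn0 := npos hn
  have hQ0 := one_pos.trans_le hQ
  choose! m hm using hit_iter hn hQ fe hv ht₁
  refine ⟨m, fun r k hk => ?_⟩
  have p := npow_pos hn
  have lev : ∀ r, v / (n : ℝ) ^ r ≤ v := fun r =>
    div_le_self hv0 (one_le_pow₀ (by linarith [ntwo hn]))
  set u := v / (n : ℝ) ^ (r + 1) with hu
  have u0 : 0 ≤ u := div_nonneg hv0 (p _).le
  have e1 : n * u = v / (n : ℝ) ^ r := by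
    rw [hu, pow_succ]
    field_simp
  have e2 : (n : ℝ) ^ k * (v / (n : ℝ) ^ (r + k + 1)) = u := by
    rw [hu, show r + k + 1 = r + 1 + k by ring, pow_add (n : ℝ) (r + 1) k]
    have := (p k).ne'
    have := (p (r + 1)).ne'
    field_simp
  obtain ⟨a1, a2⟩ := hT r (by omega)
  obtain ⟨b1, b2⟩ := hT (r + k + 1) hk
  obtain ⟨c1, c2⟩ := hm k (by omega) _ _ (div_nonneg hv0 (p _).le) (e2.trans_le (lev _)) b1 b2
  rw [e2] at c1
  have d0 : Q ^ 0 * τ ≤ T r / Q := by rwa [pow_zero, one_mul, le_div_iff₀' hQ0]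
  have d1 : Q * (T r / Q) = T r := mul_div_cancel₀ _ hQ0.ne'
  have d2 := (hit_step hn hQ fe hv ht₁ (Nat.zero_le K) u0 (e1.trans_le (lev r)) d0).mpr
    (by rwa [d1, e1])
  have d3 := congrArg im (fe 0 (Nat.zero_le K) _ d0 (lt_of_not_ge fun c => by
    have h9 := hv ⟨T r / Q, x 0⟩ c
    rw [d2.1] at h9
    exact h9.not_ge (lev _)))
  simp only [mul_im, natCast_re, natCast_im, zero_mul, add_zero, add_im, intCast_re, I_im,
    mul_one, intCast_im, I_re, mul_zero, d1, zero_add] at d3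
  have t0 : 0 < T r / Q := lt_of_lt_of_le (by positivity) d0
  have t1 : 0 < Q ^ k * T (r + k + 1) := mul_pos (by positivity) (lt_of_lt_of_le (by positivity) b1)
  have sh : ∀ i : ℤ, ((Λ ⟨T r / Q, x 0 + i / n⟩).re = u ∧
      ∀ t, T r / Q < t → u < (Λ ⟨t, x 0 + i / n⟩).re) ∧
      n * (Λ ⟨T r / Q, x 0 + i / n⟩).im = (Λ ⟨T r, x 1⟩).im + M 0 + i := fun i => by
    refine ⟨⟨?_, fun t ht => ?_⟩, ?_⟩
    · rw [leg_shift hr t0, add_re, re_ofReal_mul, I_re, mul_zero, add_zero, d2.1]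
    · rw [leg_shift hr (t0.trans ht), add_re, re_ofReal_mul, I_re, mul_zero, add_zero]
      exact d2.2 t ht
    · rw [leg_shift hr t0, add_im, im_ofReal_mul, I_im, mul_one, mul_add, d3,
        mul_div_cancel₀ _ hn0.ne']
  obtain ⟨j1, j2⟩ := hj k (by omega)
  have o1 := mul_lt_mul_of_pos_left (ord_leg hc hi hre him j1 t0 t1 (sh _).1 c1) hn0
  have o2 := mul_lt_mul_of_pos_left (ord_leg hc hi hre him j2 t1 t0 c1 (sh _).1) hn0
  rw [(sh _).2, c2] at o1 o2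
  rw [pow_succ']
  push_cast at o1 o2 ⊢
  constructor <;> nlinarith

end legs

/-- the input of the angle step -/
theorem heights (hn : 2 ≤ n) {q : ℕ} (hq : 0 < q) {g θ t₁ v : ℝ} {K : ℕ} (hg : 0 < g)
    (hc : ContinuousOn Λ {z | 0 < z.re}) (hr : ∀ z : ℂ, 0 < z.re → Λ (z + I / n) = Λ z + I / n)
    (hi : InjOn Λ {z | 0 < z.re}) (hre : Tendsto (fun z => (Λ z).re) (comap re atTop) atTop)
    (him : Tendsto (fun z => (Λ z).im - z.im) (comap re atTop) (𝓝 κ))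
    (fe : ∀ k ≤ K, ∃ M : ℤ, ∀ t, (n : ℝ) ^ (k * q) * g / n ≤ t → t < t₁ →
      n * Λ ⟨t, (n : ℝ) ^ (k * q) * θ / n⟩ =
        Λ ⟨(n : ℝ) ^ q * t, (n : ℝ) ^ ((k + 1) * q) * θ / n⟩ + M * I)
    (hv : ∀ z : ℂ, t₁ ≤ z.re → v < (Λ z).re) (ht₁ : 0 < t₁) (hv0 : 0 ≤ v) {T : ℕ → ℝ}
    (hT : ∀ r ≤ K, (n : ℝ) ^ q * g / n ≤ T r ∧
      (Λ ⟨T r, (n : ℝ) ^ q * θ / n⟩).re = v / (n : ℝ) ^ r ∧
      ∀ t, T r < t → v / (n : ℝ) ^ r < (Λ ⟨t, (n : ℝ) ^ q * θ / n⟩).re)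
    (hθ : ∀ k ≤ K, ¬ Cg ((n : ℝ) ^ ((k + 1) * q) * θ) θ) :
    ∃ (N : ℕ → ℤ) (a : ZMod n), (∀ k, (N k : ZMod n) = nu n θ ((k + 1) * q - 1) + a) ∧
      ∀ r k, r + k + 1 ≤ K →
        (N k : ℝ) < (n : ℝ) ^ (k + 1) * (Λ ⟨T (r + k + 1), (n : ℝ) ^ q * θ / n⟩).im -
          (Λ ⟨T r, (n : ℝ) ^ q * θ / n⟩).im ∧
        (n : ℝ) ^ (k + 1) * (Λ ⟨T (r + k + 1), (n : ℝ) ^ q * θ / n⟩).im -
          (Λ ⟨T r, (n : ℝ) ^ q * θ / n⟩).im < N k + 1 := by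
  have hn0 := npos hn
  choose! M hM using fe
  obtain ⟨m, hm⟩ := heights_core (Λ := Λ) (Q := (n : ℝ) ^ q) (τ := g / n) (K := K) (M := M)
    (x := fun k => (n : ℝ) ^ (k * q) * θ / n) (T := T)
    (j := fun k => ⌊(n : ℝ) ^ ((k + 1) * q) * θ - θ⌋) hn
    (one_le_pow₀ (by linarith [ntwo hn])) (div_pos hg hn0) hc hr hi hre him
    (fun k hk t h1 h2 => hM k hk t (by rwa [← pow_mul, mul_comm q k, ← mul_div_assoc] at h1) h2)
    hv ht₁ hv0 (fun r h => by simpa only [one_mul, mul_div_assoc] using hT r h) fun k hk => by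
      have h3 : (⌊(n : ℝ) ^ ((k + 1) * q) * θ - θ⌋ : ℝ) < (n : ℝ) ^ ((k + 1) * q) * θ - θ :=
        (Int.floor_le _).lt_of_ne fun e => hθ k hk ⟨_, by rw [e]; ring⟩
      have h4 := Int.lt_floor_add_one ((n : ℝ) ^ ((k + 1) * q) * θ - θ)
      simp only [zero_mul, pow_zero, one_mul, ← add_div, div_lt_div_iff_of_pos_right hn0]
      push_cast
      constructor <;> linarith
  refine ⟨fun k => M 0 + ⌊(n : ℝ) ^ ((k + 1) * q) * θ - θ⌋ + n * m k, M 0, fun k => ?_,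
    fun r k h => by simpa only [one_mul] using hm r k h⟩
  have h1 : (k + 1) * q - 1 + 1 = (k + 1) * q := Nat.sub_add_cancel (Nat.mul_pos k.succ_pos hq)
  rw [nu, lts, lt, ← mul_assoc, ← pow_succ', h1]
  push_cast
  rw [ZMod.natCast_self, zero_mul, add_zero, add_comm]

end RT27
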