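import Mathlib

/-! Tools for renormalization towers: distortion, covering, cut-off homeomorphism. -/

set_option autoImplicit false

open Filter Topology Set Metric Complex

namespace RT28

theorem log_ball {g : ℂ → ℂ} {c : ℂ} {r : ℝ} (hr : 0 < r) (hg : DifferentiableOn ℂ g (ball c r))
    (h0 : ∀ z ∈ ball c r, g z ≠ 0) (h1 : g c = 1) :
    ∃ L : ℂ → ℂ, L c = 0 ∧ DifferentiableOn ℂ L (ball c r) ∧ ∀ z ∈ ball c r, exp (L z) = g z := by
  obtain ⟨L, hL0, hL⟩ :=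
    (((hg.deriv isOpen_ball).div hg h0).isExactOn_ball).with_val_at c 0
  have hd : DifferentiableOn ℂ L (ball c r) :=
    fun z hz => (hL z hz).differentiableAt.differentiableWithinAt
  refine ⟨L, hL0, hd, fun z hz => ?_⟩
  have h2 := isOpen_ball.is_const_of_deriv_eq_zero (f := fun z => g z * exp (-L z))
    (convex_ball c r).isPreconnected (by fun_prop) (fun w hw => by
      have h3 := ((hg.differentiableAt (isOpen_ball.mem_nhds hw)).hasDerivAt.mul
        (hL w hw).neg.cexp).deriv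
      refine h3.trans ?_
      have := h0 w hw
      simp only [Pi.div_apply, Pi.zero_apply]
      field_simp
      ring) hz (mem_ball_self hr)
  simp only [hL0, h1, neg_zero, exp_zero, mul_one, exp_neg] at h2
  rw [mul_inv_eq_one₀ (exp_ne_zero _)] at h2
  exact h2.symm

/-- Cauchy estimate on an inner ball. -/
theorem deriv_le {F : ℂ → ℂ} {c z : ℂ} {r ρ R : ℝ} (hρ : 0 < ρ)
    (hF : DifferentiableOn ℂ F (ball c r)) (hR : ∀ w ∈ ball c r, ‖F w‖ ≤ R)
    (hz : ‖z - c‖ + ρ ≤ r) : ‖deriv F z‖ ≤ 2 * R / ρ := by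
  have hs : ball z ρ ⊆ ball c r := ball_subset_ball' (by rw [dist_eq_norm]; linarith)
  refine norm_deriv_le_div_of_mapsTo_ball (hF.mono hs) (fun w hw => ?_) hρ
  rw [mem_closedBall, dist_eq_norm]
  linarith [norm_sub_le (F w) (F z), hR w (hs hw), hR z (hs (mem_ball_self hρ))]

/-- Distortion of the derivative of a bounded map without critical points. -/
theorem dist_le {F : ℂ → ℂ} {r R M κ : ℝ} {x x₀ : ℂ} (hr : 0 < r)
    (hF : DifferentiableOn ℂ F (ball 0 r)) (hR : ∀ z ∈ ball (0 : ℂ) r, ‖F z‖ ≤ R)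
    (h0 : ∀ z ∈ ball (0 : ℂ) r, deriv F z ≠ 0) (hM : 1 ≤ M) (hκ : 0 < κ) (hκ1 : κ ≤ 1)
    (hA : 4 * R / r ≤ Real.exp M * ‖deriv F x₀‖) (hx : ‖x‖ ≤ κ * r / (100 * M))
    (hx₀ : ‖x₀‖ ≤ κ * r / (100 * M)) : ‖deriv F x / deriv F x₀ - 1‖ ≤ κ := by
  set e := κ * r / (100 * M) with he
  have e1 : M * e = κ * r / 100 := by rw [he]; field_simp
  have e0 : 0 < e := by positivity
  have e2 : e ≤ r / 100 := by nlinarith
  have hn : ∀ z ∈ ball (0 : ℂ) (r / 4), ‖x₀ + z‖ < r / 2 := fun z hz => by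
    linarith [norm_add_le x₀ z, mem_ball_zero_iff.1 hz]
  have hm : ∀ z ∈ ball (0 : ℂ) (r / 4), x₀ + z ∈ ball (0 : ℂ) r := fun z hz =>
    mem_ball_zero_iff.2 (by linarith [hn z hz])
  have d0 : deriv F x₀ ≠ 0 := h0 _ (mem_ball_zero_iff.2 (by linarith))
  obtain ⟨L, hL0, hL, hLe⟩ := log_ball (g := fun z => deriv F (x₀ + z) / deriv F x₀) (c := 0)
    (r := r / 4) (by positivity)
    (((hF.deriv isOpen_ball).comp (by fun_prop) hm).div_const _)
    (fun z hz => div_ne_zero (h0 _ (hm z hz)) d0) (by simp [d0])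
  have hxx : ‖x - x₀‖ ≤ 2 * e := by linarith [norm_sub_le x x₀]
  have hz : x - x₀ ∈ ball (0 : ℂ) (r / 4) := mem_ball_zero_iff.2 (by linarith)
  have h1 := borelCaratheodory_zero (M := M) (by linarith) hL (fun z hz => by
    have h2 := deriv_le (ρ := r / 2) (z := x₀ + z) (by positivity) hF hR
      (by rw [sub_zero]; linarith [hn z hz])
    have h3 : Real.exp (L z).re = ‖deriv F (x₀ + z)‖ / ‖deriv F x₀‖ := by
      rw [← norm_exp, hLe z hz, norm_div]
    change (L z).re ≤ M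
    rw [← Real.exp_le_exp, h3, div_le_iff₀ (norm_pos_iff.2 d0)]
    refine h2.trans (le_trans (le_of_eq ?_) hA)
    field_simp
    ring) (by positivity) hz hL0
  have h2 : ‖L (x - x₀)‖ ≤ κ / 2 := by
    refine h1.trans ?_
    rw [div_le_iff₀ (by linarith)]
    have h3 : 2 * M * ‖x - x₀‖ ≤ 2 * M * (2 * e) := by gcongr
    have h4 : κ * ‖x - x₀‖ ≤ κ * (r / 50) := by gcongr; linarith
    have h5 : 0 < κ * r := by positivity
    nlinarith
  have h3 := hLe _ hz
  simp only [add_sub_cancel] at h3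
  rw [← h3]
  linarith [norm_exp_sub_one_le (x := L (x - x₀)) (by linarith)]

/-- A map with derivative close to one is close to a translation. -/
theorem near_id {Z : ℂ → ℂ} {c : ℂ} {ρ κ : ℝ} (hZ : DifferentiableOn ℂ Z (ball c ρ))
    (h : ∀ z ∈ ball c ρ, ‖deriv Z z - 1‖ ≤ κ) :
    ∀ x ∈ ball c ρ, ∀ y ∈ ball c ρ, ‖Z x - Z y - (x - y)‖ ≤ κ * ‖x - y‖ := by
  intro x hx y hy
  have h1 := (convex_ball c ρ).norm_image_sub_le_of_norm_hasDerivWithin_le
    (f := fun z => Z z - z) (f' := fun z => deriv Z z - 1)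
    (fun z hz => ((hZ.differentiableAt (isOpen_ball.mem_nhds hz)).hasDerivAt.sub
      (hasDerivAt_id z)).hasDerivWithinAt) h hy hx
  rwa [show Z x - x - (Z y - y) = Z x - Z y - (x - y) by ring] at h1

theorem approx {Z : ℂ → ℂ} {s : Set ℂ} {κ : ℝ} (hκ : 0 ≤ κ)
    (h : ∀ x ∈ s, ∀ y ∈ s, ‖Z x - Z y - (x - y)‖ ≤ κ * ‖x - y‖) :
    ApproximatesLinearOn Z (ContinuousLinearEquiv.refl ℂ ℂ : ℂ →L[ℂ] ℂ) s κ.toNNReal :=
  fun x hx y hy => by simpa [hκ] using h x hx y hy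

theorem lower {Z : ℂ → ℂ} {x y : ℂ} {κ : ℝ} (h : ‖Z x - Z y - (x - y)‖ ≤ κ * ‖x - y‖) :
    (1 - κ) * ‖x - y‖ ≤ ‖Z x - Z y‖ := by
  have := norm_sub_norm_le (x - y) (Z x - Z y)
  rw [norm_sub_rev (x - y)] at this
  linarith

/-- A map with derivative close to one covers a ball and has a holomorphic inverse there. -/
theorem cover {Z : ℂ → ℂ} {c : ℂ} {ρ κ : ℝ} (hκ : 0 ≤ κ) (hκ1 : κ < 1)
    (hZ : DifferentiableOn ℂ Z (ball c ρ)) (h : ∀ z ∈ ball c ρ, ‖deriv Z z - 1‖ ≤ κ) :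
    InjOn Z (ball c ρ) ∧ ∀ y ∈ ball (Z c) ((1 - κ) * ρ),
      ∃ x ∈ ball c ρ, Z x = y ∧ ‖x - c - (y - Z c)‖ ≤ κ / (1 - κ) * ‖y - Z c‖ := by
  have h1 := near_id hZ h
  have k1 : 0 < 1 - κ := by linarith
  refine ⟨fun x hx y hy e => ?_, fun y hy => ?_⟩
  · have h2 := lower (h1 x hx y hy)
    rw [e, sub_self, norm_zero] at h2
    exact sub_eq_zero.1 (norm_le_zero_iff.1 (by nlinarith [norm_nonneg (x - y)]))
  · rw [mem_ball, dist_eq_norm] at hy
    have h2 : ‖y - Z c‖ / (1 - κ) < ρ := by rw [div_lt_iff₀ k1]; linarith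
    have h0 : 0 ≤ ‖y - Z c‖ / (1 - κ) := by positivity
    obtain ⟨x, hx, rfl⟩ := (approx hκ h1).surjOn_closedBall_of_nonlinearRightInverse
      (ContinuousLinearEquiv.refl ℂ ℂ).toNonlinearRightInverse h0 (closedBall_subset_ball h2)
      (show y ∈ _ by
        rw [mem_closedBall, dist_eq_norm]
        simp [ContinuousLinearEquiv.toNonlinearRightInverse, hκ, mul_div_cancel₀ _ k1.ne'])
    have hx' := closedBall_subset_ball h2 hx
    refine ⟨x, hx', rfl, ?_⟩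
    rw [norm_sub_rev]
    refine (h1 x hx' c (mem_ball_self (h0.trans_lt h2))).trans ?_
    rw [mem_closedBall, dist_eq_norm] at hx
    calc _ ≤ κ * (‖Z x - Z c‖ / (1 - κ)) := by gcongr
      _ = _ := by ring

/-- The cut-off function. -/
noncomputable def cut (B t : ℝ) : ℝ := max 0 (min 1 (2 - 2 / B * t))

theorem cut_lip {B : ℝ} (hB : 0 < B) (x y : ℂ) :
    |cut B ‖x‖ - cut B ‖y‖| ≤ 2 / B * ‖x - y‖ := by
  have h1 := abs_norm_sub_norm_le x y
  have h2 : |2 - 2 / B * ‖x‖ - (2 - 2 / B * ‖y‖)| ≤ 2 / B * ‖x - y‖ := by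
    rw [show 2 - 2 / B * ‖x‖ - (2 - 2 / B * ‖y‖) = -(2 / B * (‖x‖ - ‖y‖)) by ring, abs_neg,
      abs_mul, abs_of_pos (by positivity)]
    gcongr
  refine (abs_max_sub_max_le_max _ _ _ _).trans (max_le (by simp; positivity) ?_)
  exact (abs_min_sub_min_le_max _ _ _ _).trans (max_le (by simp; positivity) h2)

theorem cut_mem (B t : ℝ) : 0 ≤ cut B t ∧ cut B t ≤ 1 :=
  ⟨le_max_left _ _, max_le zero_le_one (min_le_left _ _)⟩

theorem cut_one {B t : ℝ} (hB : 0 < B) (h : t ≤ B / 2) : cut B t = 1 := by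
  have : 2 / B * t ≤ 1 := by rw [div_mul_eq_mul_div, div_le_one hB]; linarith
  rw [cut, min_eq_left (by linarith), max_eq_right zero_le_one]

theorem cut_zero {B t : ℝ} (hB : 0 < B) (h : B ≤ t) : cut B t = 0 := by
  have : 2 ≤ 2 / B * t := by rw [div_mul_eq_mul_div, le_div_iff₀ hB]; linarith
  rw [cut, max_eq_left ((min_le_right _ _).trans (by linarith))]

/-- A map close to the identity on a large ball is the restriction of a homeomorphism of the plane
that is the identity near infinity. -/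
theorem hom {g : ℂ → ℂ} {B : ℝ} (hB : 32 ≤ B) (hg : DifferentiableOn ℂ g (ball 0 (2 * B)))
    (h4 : ∀ y ∈ ball (0 : ℂ) (2 * B), ‖g y - y‖ ≤ 4) :
    ∃ φ : ℂ ≃ₜ ℂ, (∀ y, ‖y‖ ≤ B / 2 → φ y = g y) ∧ (∀ y, B ≤ ‖y‖ → φ y = y) ∧
      (∀ y, ‖φ y - y‖ ≤ 4) ∧ (∀ x y, ‖φ x - φ y - (x - y)‖ ≤ 16 / B * ‖x - y‖) ∧
      (∀ x y, ‖φ x - φ y‖ ≤ 2 * ‖x - y‖) ∧ (∀ x y, ‖φ.symm x - φ.symm y‖ ≤ 2 * ‖x - y‖) ∧
      DifferentiableOn ℂ φ.symm (ball 0 (B / 2 - 4)) := by
  have B0 : 0 < B := by linarith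
  have hd : ∀ z : ℂ, ‖z‖ ≤ B → ‖deriv g z - 1‖ ≤ 8 / B := fun z hz => by
    have h1 := deriv_le (F := fun y => g y - y) (z := z) B0 (hg.sub differentiableOn_id) h4
      (by rw [sub_zero]; linarith)
    have h2 : DifferentiableAt ℂ g z :=
      hg.differentiableAt (isOpen_ball.mem_nhds (mem_ball_zero_iff.2 (by linarith)))
    rw [(h2.hasDerivAt.fun_sub (hasDerivAt_id' z)).deriv] at h1
    linarith [show 2 * 4 / B = 8 / B by ring]
  have hn := near_id (c := 0) (ρ := B) (hg.mono (ball_subset_ball (by linarith)))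
    fun z hz => hd z (mem_ball_zero_iff.1 hz).le
  set p : ℂ → ℂ := fun y => (cut B ‖y‖ : ℂ) * (g y - y) with hp
  have p4 : ∀ y, ‖p y‖ ≤ 4 * cut B ‖y‖ := fun y => by
    rcases le_or_gt B ‖y‖ with h | h
    · simp [hp, cut_zero B0 h]
    · rw [hp, norm_mul, norm_real, Real.norm_of_nonneg (cut_mem _ _).1, mul_comm]
      exact mul_le_mul_of_nonneg_right (h4 y (mem_ball_zero_iff.2 (by linarith))) (cut_mem _ _).1
  have out : ∀ x y, B ≤ ‖y‖ → ‖p x - p y‖ ≤ 16 / B * ‖x - y‖ := fun x y h => by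
    have h1 := cut_lip B0 x y
    have h2 : p y = 0 := by simp [hp, cut_zero B0 h]
    rw [cut_zero B0 h, sub_zero, abs_of_nonneg (cut_mem _ _).1] at h1
    have h3 : 0 ≤ 2 / B * ‖x - y‖ := by positivity
    rw [h2, sub_zero, show 16 / B * ‖x - y‖ = 8 * (2 / B * ‖x - y‖) by ring]
    linarith [p4 x]
  have lip : ∀ x y, ‖p x - p y‖ ≤ 16 / B * ‖x - y‖ := fun x y => by
    rcases le_or_gt B ‖y‖ with hy | hy
    · exact out x y hy
    rcases le_or_gt B ‖x‖ with hx | hx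
    · rw [norm_sub_rev, norm_sub_rev x]; exact out y x hx
    have e : p x - p y = ((cut B ‖x‖ - cut B ‖y‖ : ℝ) : ℂ) * (g x - x) +
        (cut B ‖y‖ : ℂ) * (g x - g y - (x - y)) := by simp only [hp]; push_cast; ring
    have h1 : ‖((cut B ‖x‖ - cut B ‖y‖ : ℝ) : ℂ) * (g x - x)‖ ≤ 2 / B * ‖x - y‖ * 4 := by
      rw [norm_mul, norm_real, Real.norm_eq_abs]
      exact mul_le_mul (cut_lip B0 x y) (h4 x (mem_ball_zero_iff.2 (by linarith))) (norm_nonneg _)
        (by positivity)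
    have h2 : ‖(cut B ‖y‖ : ℂ) * (g x - g y - (x - y))‖ ≤ 1 * (8 / B * ‖x - y‖) := by
      rw [norm_mul, norm_real, Real.norm_of_nonneg (cut_mem _ _).1]
      exact mul_le_mul (cut_mem _ _).2 (hn x (mem_ball_zero_iff.2 hx) y (mem_ball_zero_iff.2 hy))
        (norm_nonneg _) zero_le_one
    rw [e]
    refine (norm_add_le _ _).trans ((add_le_add h1 h2).trans (le_of_eq (by ring)))
  have k : 16 / B ≤ 1 / 2 := by rw [div_le_iff₀ B0]; linarith
  have ap : ∀ x y, ‖x + p x - (y + p y) - (x - y)‖ ≤ 16 / B * ‖x - y‖ := fun x y => by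
    convert lip x y using 2
    ring
  obtain ⟨φ, hφ⟩ : ∃ φ : ℂ ≃ₜ ℂ, ∀ y, φ y = y + p y :=
    ⟨(approx (Z := fun y => y + p y) (s := univ) (κ := 16 / B) (by positivity)
      fun x _ y _ => ap x y).toHomeomorph _ (Or.inr (by
        rw [← NNReal.coe_lt_coe]
        simp only [ContinuousLinearEquiv.refl_symm, ContinuousLinearEquiv.coe_refl,
          ContinuousLinearMap.nnnorm_id, inv_one, NNReal.coe_one]
        rw [Real.coe_toNNReal _ (by positivity)]
        linarith)), fun _ => rfl⟩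
  have a1 : ∀ y, ‖y‖ ≤ B / 2 → φ y = g y := fun y h => by simp [hφ, hp, cut_one B0 h]
  have a3 : ∀ y, ‖φ y - y‖ ≤ 4 := fun y => by
    rw [hφ, add_sub_cancel_left]
    linarith [p4 y, (cut_mem B ‖y‖).2]
  have a4 : ∀ x y, ‖φ x - φ y - (x - y)‖ ≤ 16 / B * ‖x - y‖ := fun x y => by
    rw [hφ, hφ]; exact ap x y
  refine ⟨φ, a1, fun y h => by simp [hφ, hp, cut_zero B0 h], a3, a4, fun x y => ?_,
    fun x y => ?_, fun w hw => ?_⟩
  · nlinarith [norm_sub_norm_le (φ x - φ y) (x - y), a4 x y, norm_nonneg (x - y)]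
  · have h1 := lower (a4 (φ.symm x) (φ.symm y))
    rw [φ.apply_symm_apply, φ.apply_symm_apply] at h1
    nlinarith [norm_nonneg (φ.symm x - φ.symm y)]
  · have hs : ∀ w ∈ ball (0 : ℂ) (B / 2 - 4), ‖φ.symm w‖ ≤ B / 2 := fun w hw => by
      have h1 := a3 (φ.symm w)
      rw [φ.apply_symm_apply, norm_sub_rev] at h1
      linarith [norm_sub_norm_le (φ.symm w) w, mem_ball_zero_iff.1 hw]
    have h1 := hs w hw
    have h2 : DifferentiableAt ℂ g (φ.symm w) :=
      hg.differentiableAt (isOpen_ball.mem_nhds (mem_ball_zero_iff.2 (by linarith)))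
    refine (h2.hasDerivAt.of_local_left_inverse φ.symm.continuous.continuousAt (fun h0 => ?_)
      ?_).differentiableAt.differentiableWithinAt
    · have h3 := hd (φ.symm w) (by linarith)
      rw [h0, zero_sub, norm_neg, norm_one, le_div_iff₀ B0] at h3
      linarith
    · filter_upwards [isOpen_ball.mem_nhds hw] with y hy
      rw [← a1 _ (hs y hy), φ.apply_symm_apply]

end RT28
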