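import Mathlib

/-! Tools for renormalization towers: angles from approximate itineraries. -/

set_option autoImplicit false

open Set

namespace RT28

/-- Steps with a constant direction. -/
theorem steps {w : ℕ → ℝ} {j L : ℕ} (h : ∀ r, r + j ≤ L → w r < w (r + j)) :
    ∀ i, (i + 1) * j ≤ L → w 0 < w ((i + 1) * j) := by
  intro i
  induction i with
  | zero => simpa using h 0
  | succ i ih =>
    intro hi
    rw [add_mul (i + 1), one_mul] at hi ⊢
    exact (ih (by omega)).trans (h _ hi)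

theorem dir {w : ℕ → ℝ} {i j L : ℕ} (hi : 0 < i) (hj : 0 < j) (hL : i * j ≤ L)
    (h : ∀ r, r + i ≤ L → w r < w (r + i)) (h' : ∀ r, r + j ≤ L → w (r + j) < w r) : False := by
  obtain ⟨i, rfl⟩ := Nat.exists_eq_succ_of_ne_zero hi.ne'
  obtain ⟨j, rfl⟩ := Nat.exists_eq_succ_of_ne_zero hj.ne'
  have h1 := steps h j (by rwa [mul_comm])
  have h2 := steps (w := fun r => -w r) (fun r hr => neg_lt_neg (h' r hr)) i hL
  rw [mul_comm] at h1
  simp only [Nat.succ_eq_add_one] at h1 h2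
  linarith

/-- A number in `ℤ / Q` strictly between `N - 1 / Q` and `N + 1 + 1 / Q`. -/
theorem grid {Q : ℝ} {q p N : ℤ} (hq : (q : ℝ) = Q) (hQ : 0 < Q) {b e : ℝ} (hb : Q * b = p)
    (he : Q * |e| < 1) (h1 : N < b + e) (h2 : b + e < N + 1) : N ≤ b ∧ b ≤ N + 1 := by
  have e1 : Q * e < 1 := lt_of_le_of_lt (by gcongr; exact le_abs_self e) he
  have e2 : Q * -e < 1 := lt_of_le_of_lt (by gcongr; exact neg_le_abs e) he
  have a1 : q * N < p + 1 := by
    have : (q : ℝ) * N < p + 1 := by rw [hq]; nlinarith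
    exact_mod_cast this
  have a2 : p < q * (N + 1) + 1 := by
    have : (p : ℝ) < q * (N + 1) + 1 := by rw [hq]; nlinarith
    exact_mod_cast this
  have a3 : (q : ℝ) * N ≤ p := by exact_mod_cast Int.lt_add_one_iff.1 a1
  have a4 : (p : ℝ) ≤ q * (N + 1) := by exact_mod_cast Int.lt_add_one_iff.1 a2
  rw [hq, ← hb] at a3 a4
  exact ⟨le_of_mul_le_mul_left a3 hQ, le_of_mul_le_mul_left a4 hQ⟩

/-- Heights close to an angle that is periodic of period `K` give a periodic itinerary. -/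
theorem per {n K l L : ℕ} {H : ℕ → ℝ} {N : ℕ → ℤ} {m : ℤ} {x δ : ℝ} (hn : 2 ≤ n) (hK : 0 < K)
    (hL : (K + 1) * (l + K + 1) ≤ L) (hx : ((n : ℝ) ^ K - 1) * x = m)
    (hδ : (n : ℝ) ^ K * (2 * (n : ℝ) ^ L * δ) < 1) (hH : ∀ r ≤ L, |H r - x| ≤ δ)
    (hN : ∀ r k, r + k + 1 ≤ L → (N k : ℝ) < (n : ℝ) ^ (k + 1) * H (r + k + 1) - H r ∧
      (n : ℝ) ^ (k + 1) * H (r + k + 1) - H r < N k + 1) :
    N (l + K) = N l + n ^ (l + 1) * m := by
  have n1 : (1 : ℝ) < n := by exact_mod_cast hn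
  have q0 : (0 : ℝ) < (n : ℝ) ^ K - 1 := sub_pos.2 (one_lt_pow₀ n1 hK.ne')
  have δ0 : 0 ≤ δ := (abs_nonneg _).trans (hH 0 (Nat.zero_le _))
  set b : ℕ → ℝ := fun k => ((n : ℝ) ^ (k + 1) - 1) * x with hb
  set w : ℕ → ℝ := fun r => (n : ℝ) ^ r * (H r - x) with hw
  have key : ∀ r k, r + k + 1 ≤ L → ((N k : ℝ) ≤ b k ∧ b k ≤ N k + 1) ∧
      (b k = N k → w r < w (r + (k + 1))) ∧ (b k = N k + 1 → w (r + (k + 1)) < w r) := by
    intro r k h
    obtain ⟨h1, h2⟩ := hN r k h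
    set e := (n : ℝ) ^ (k + 1) * (H (r + k + 1) - x) - (H r - x) with he
    have e1 : (n : ℝ) ^ (k + 1) * H (r + k + 1) - H r = b k + e := by simp only [hb, he]; ring
    have e2 : w (r + (k + 1)) - w r = (n : ℝ) ^ r * e := by
      simp only [hw, he, ← add_assoc]; ring
    have e3 : (0 : ℝ) < (n : ℝ) ^ r := by positivity
    rw [e1] at h1 h2
    refine ⟨grid (q := n ^ K - 1) (p := (n ^ (k + 1) - 1) * m) (by push_cast; rfl) q0
      (by push_cast; rw [← hx]; simp only [hb]; ring) ?_ h1 h2, fun h3 => ?_, fun h3 => ?_⟩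
    · have h3 : (n : ℝ) ^ (k + 1) ≤ (n : ℝ) ^ L := pow_le_pow_right₀ n1.le (by omega)
      have h4 : (1 : ℝ) ≤ (n : ℝ) ^ L := one_le_pow₀ n1.le
      have h5 : |e| ≤ (n : ℝ) ^ L * δ + δ := by
        refine (abs_sub _ _).trans (add_le_add ?_ (hH r (by omega)))
        rw [abs_mul, abs_of_pos (by positivity)]
        exact mul_le_mul h3 (hH _ h) (abs_nonneg _) (by positivity)
      refine lt_of_le_of_lt (mul_le_mul (by linarith) (by nlinarith) (abs_nonneg _) ?_) hδ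
      positivity
    · nlinarith [mul_pos e3 (show 0 < e by linarith)]
    · nlinarith [mul_pos e3 (show 0 < -e by linarith)]
  obtain ⟨K, rfl⟩ := Nat.exists_eq_succ_of_ne_zero hK.ne'
  simp only [Nat.succ_eq_add_one] at *
  have bK : b K = m := hx
  have bl : b (l + (K + 1)) = b l + (n : ℝ) ^ (l + 1) * m := by
    rw [← hx]; simp only [hb]; ring
  have L1 : l + (K + 1) + 1 ≤ L := by nlinarith
  have L2 : (K + 1) * (l + 1) ≤ L := by nlinarith
  obtain ⟨⟨a1, a2⟩, a3, a4⟩ := key 0 (l + (K + 1)) (by omega)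
  obtain ⟨⟨c1, c2⟩, -⟩ := key 0 l (by omega)
  obtain ⟨⟨d1, d2⟩, -⟩ := key 0 K (by omega)
  have d3 : b K = N K ∨ b K = N K + 1 := by
    rw [bK] at d1 d2 ⊢
    have d4 : N K ≤ m := by exact_mod_cast d1
    have d5 : m ≤ N K + 1 := by exact_mod_cast d2
    rcases (by omega : m = N K ∨ m = N K + 1) with h | h <;> simp [h]
  have s1 : 0 + (l + (K + 1) + 1) = l + 1 + (K + 1) := by ring
  rw [s1] at a3 a4
  set M : ℤ := N (l + (K + 1)) - n ^ (l + 1) * m with hM
  have hM' : (N (l + (K + 1)) : ℝ) = M + (n : ℝ) ^ (l + 1) * m := by rw [hM]; push_cast; ring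
  rw [hM', bl] at a1 a2 a3 a4
  suffices M = N l by omega
  rcases lt_trichotomy M (N l) with h | h | h
  · have h1 : (M : ℝ) + 1 ≤ N l := by exact_mod_cast h
    have h2 : b l = N l := by linarith
    have up := fun r (hr : r + (l + 1) ≤ L) => (key r l hr).2.1 h2
    rcases d3 with d | d
    · have := up 0 (by omega)
      rw [zero_add] at this
      linarith [a4 (by linarith), (key (l + 1) K (by omega)).2.1 d]
    · exact (dir l.succ_pos K.succ_pos (by rwa [mul_comm]) up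
        fun r hr => (key r K hr).2.2 d).elim
  · exact h
  · have h1 : (N l : ℝ) + 1 ≤ M := by exact_mod_cast h
    have h2 : b l = N l + 1 := by linarith
    have dn := fun r (hr : r + (l + 1) ≤ L) => (key r l hr).2.2 h2
    rcases d3 with d | d
    · exact (dir K.succ_pos l.succ_pos L2 (fun r hr => (key r K hr).2.1 d) dn).elim
    · have := dn 0 (by omega)
      rw [zero_add] at this
      linarith [a3 (by linarith), (key (l + 1) K (by omega)).2.2 d]

/-- Nearly equal heights with a given itinerary that is not periodic determine the beginning of the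
kneading sequence of the angle, with a margin. -/
theorem ang {n : ℕ} (hn : 2 ≤ n) {ν : ℕ → ZMod n} (hν : ∀ K, 0 < K → ∃ l, ν (l + K) ≠ ν l)
    (L : ℕ) (E : ℝ) : ∃ (L₀ : ℕ) (η : ℝ), 0 < η ∧ ∀ (H : ℕ → ℝ) (N : ℕ → ℤ) (a : ZMod n) (θ : ℝ),
      (∀ k ≤ L₀, (N k : ZMod n) = ν k + a) →
      (∀ r k, r + k + 1 ≤ L₀ → (N k : ℝ) < (n : ℝ) ^ (k + 1) * H (r + k + 1) - H r ∧
        (n : ℝ) ^ (k + 1) * H (r + k + 1) - H r < N k + 1) →
      (∀ r ≤ L₀, |H r - θ| ≤ η) → ∀ k ≤ L, ⌊((n : ℝ) ^ (k + 1) - 1) * θ⌋ = N k ∧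
        ∀ m : ℤ, E * η < |((n : ℝ) ^ (k + 1) - 1) * θ - m| := by
  choose! l hl using hν
  have n1 : (1 : ℝ) < n := by exact_mod_cast hn
  set L₀ := (L + 2) * ((Finset.range (L + 2)).sup l + L + 2) with hL₀
  set E' := |E| + 2 * (n : ℝ) ^ (L + 1) with hE'
  have E0 : 0 < E' := by positivity
  set C := (n : ℝ) ^ (L + 1) * (2 * (n : ℝ) ^ L₀ * (E' + 1)) with hC
  have C0 : 0 < C := by positivity
  refine ⟨L₀, (2 * C)⁻¹, by positivity, fun H N a θ h1 h2 h3 k hk => ?_⟩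
  set η := (2 * C)⁻¹ with hη
  have η0 : 0 < η := by positivity
  have hkL : (n : ℝ) ^ (k + 1) ≤ (n : ℝ) ^ (L + 1) := pow_le_pow_right₀ n1.le (by omega)
  have q1 : (1 : ℝ) ≤ (n : ℝ) ^ (k + 1) - 1 := by
    have : (2 : ℝ) ≤ n := by exact_mod_cast hn
    have h := le_self_pow₀ n1.le (show k + 1 ≠ 0 by omega)
    linarith
  have hle : l (k + 1) ≤ (Finset.range (L + 2)).sup l :=
    Finset.le_sup (Finset.mem_range.2 (by omega))
  have hL : (k + 1 + 1) * (l (k + 1) + (k + 1) + 1) ≤ L₀ := Nat.mul_le_mul (by omega) (by omega)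
  have far : ∀ m : ℤ, E' * η < |((n : ℝ) ^ (k + 1) - 1) * θ - m| := by
    intro m
    by_contra! h
    have hx : ((n : ℝ) ^ (k + 1) - 1) * (m / ((n : ℝ) ^ (k + 1) - 1)) = m := by field_simp
    set x := m / ((n : ℝ) ^ (k + 1) - 1)
    have h4 : |θ - x| ≤ E' * η := by
      rw [← hx, ← mul_sub, abs_mul, abs_of_pos (by linarith)] at h
      nlinarith [abs_nonneg (θ - x)]
    have h5 := per (δ := (E' + 1) * η) hn k.succ_pos hL hx (by
      calc _ ≤ (n : ℝ) ^ (L + 1) * (2 * (n : ℝ) ^ L₀ * ((E' + 1) * η)) := by gcongr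
        _ = C * η := by rw [hC]; ring
        _ < 1 := by rw [hη, ← div_eq_mul_inv, div_lt_one (by positivity)]; linarith)
      (fun r hr => by linarith [abs_sub_le (H r) θ x, h3 r hr]) h2
    apply hl (k + 1) k.succ_pos
    have h6 := congrArg (Int.cast : ℤ → ZMod n) h5
    rw [h1 _ (by nlinarith), Int.cast_add, h1 _ (by nlinarith)] at h6
    simpa using h6
  refine ⟨?_, fun m => lt_of_le_of_lt ?_ (far m)⟩
  · obtain ⟨a1, a2⟩ := h2 0 k (by nlinarith)
    have a3 := abs_le.1 (h3 (0 + k + 1) (by nlinarith))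
    have a4 := abs_le.1 (h3 0 (Nat.zero_le _))
    have a5 : ((n : ℝ) ^ (k + 1) + 1) * η ≤ E' * η := by
      gcongr
      linarith [abs_nonneg E]
    have p0 : (0 : ℝ) < (n : ℝ) ^ (k + 1) := by positivity
    have a6 := mul_le_mul_of_nonneg_left a3.1 p0.le
    have a7 := mul_le_mul_of_nonneg_left a3.2 p0.le
    have b1 := lt_abs.1 (far (N k))
    have b2 := lt_abs.1 (far (N k + 1))
    push_cast at b2
    have b0 := mul_pos E0 η0
    rw [Int.floor_eq_iff]
    constructor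
    · rcases b1 with b | b <;> nlinarith
    · rcases b2 with b | b <;> nlinarith
  · gcongr
    have : (0 : ℝ) < (n : ℝ) ^ (L + 1) := by positivity
    linarith [le_abs_self E]

end RT28
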