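import Pool.Agent.Lib.RT.T28

/-! Tools for renormalization towers: the analytic core of one renormalization step. -/

set_option autoImplicit false

open Filter Topology Set Metric Complex

namespace RT31

/-- A bounded orbit of an almost unicritical polynomial is bounded by `3`. -/
theorem orb3 {n : ℕ} (hn : 2 ≤ n) {v : ℕ → ℂ} {K : ℝ} (hK : ∀ k, ‖v k‖ ≤ K)
    (h : ∀ k, ‖v k ^ n‖ ≤ 3 / 2 * ‖v (k + 1) - v 1‖) (k : ℕ) : ‖v k‖ ≤ 3 := by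
  have hb : BddAbove (range fun k => ‖v k‖) := ⟨K, by rintro _ ⟨k, rfl⟩; exact hK k⟩
  set m := ⨆ k, ‖v k‖ with hm
  have h1 : ∀ k, ‖v k‖ ≤ m := fun k => le_ciSup hb k
  have h0 : 0 ≤ m := (norm_nonneg _).trans (h1 0)
  have h2 : ∀ k, ‖v k‖ ≤ max 1 (√(3 * m)) := fun k => by
    rcases le_or_gt ‖v k‖ 1 with h3 | h3
    · exact h3.trans (le_max_left _ _)
    refine le_trans (Real.le_sqrt_of_sq_le ?_) (le_max_right _ _)
    have h4 := pow_le_pow_right₀ h3.le hn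
    have h5 := h k
    rw [norm_pow] at h5
    linarith [norm_sub_le (v (k + 1)) (v 1), h1 (k + 1), h1 1]
  have h3 : m ≤ max 1 (√(3 * m)) := ciSup_le h2
  refine (h1 k).trans ?_
  rcases le_max_iff.1 h3 with h4 | h4
  · linarith
  · have h5 := Real.sq_sqrt (show 0 ≤ 3 * m by positivity)
    nlinarith [Real.sqrt_nonneg (3 * m)]

/-- The scaling factor and the normalised inverse branch. -/
theorem ren {n : ℕ} (hn : 2 ≤ n) {F P : ℂ → ℂ} {r γ M κ ρ : ℝ} {x₀ : ℂ} (hr : 0 < r)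
    (hF : DifferentiableOn ℂ F (ball 0 r)) (hγ : ∀ z ∈ ball (0 : ℂ) r, ‖F z‖ ≤ γ)
    (hP : Differentiable ℂ P) (hPF : ∀ z ∈ ball (0 : ℂ) r, P (F z) = z) (h0 : F x₀ = 0)
    (hM : 1 ≤ M) (hκ : 0 < κ) (hκ1 : κ ≤ 1 / 2) (hA : 4 * γ / r * ‖deriv P 0‖ ≤ Real.exp M)
    (hρ0 : 0 < ρ) (hρ : ρ ≤ κ * r / (100 * M)) (hx₀ : ‖x₀‖ ≤ ρ / 2) :
    ∃ s : ℂ, s ≠ 0 ∧ s ^ (n - 1) * deriv P 0 = 1 ∧ ‖s‖ ^ (n - 1) ≤ 4 * γ / r ∧
      (∀ x, ‖x‖ < ρ → ‖F x / s ^ n - (x - x₀) / s‖ ≤ κ * ‖(x - x₀) / s‖) ∧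
      ∀ y, ‖y‖ * ‖s‖ < ρ / 4 →
        ∃ x, ‖x‖ < ρ ∧ F x = s ^ n * y ∧ ‖(x - x₀) / s - y‖ ≤ 2 * κ * ‖y‖ := by
  have hρr : ρ ≤ r / 2 := hρ.trans (by
    rw [div_le_div_iff₀ (by positivity) two_pos]; nlinarith)
  have hsub : ball (0 : ℂ) ρ ⊆ ball 0 r := ball_subset_ball (by linarith)
  have hx : x₀ ∈ ball (0 : ℂ) ρ := mem_ball_zero_iff.2 (by linarith)
  have hd : ∀ z ∈ ball (0 : ℂ) r, deriv P (F z) * deriv F z = 1 := fun z hz => by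
    have h1 := (hP (F z)).hasDerivAt.comp z
      (hF.differentiableAt (isOpen_ball.mem_nhds hz)).hasDerivAt
    have h2 : P ∘ F =ᶠ[𝓝 z] id := by
      filter_upwards [isOpen_ball.mem_nhds hz] with w hw using hPF w hw
    exact (h1.congr_of_eventuallyEq h2.symm).unique (hasDerivAt_id z)
  have hne : ∀ z ∈ ball (0 : ℂ) r, deriv F z ≠ 0 := fun z hz => right_ne_zero_of_mul_eq_one (hd z hz)
  have hD := hd x₀ (hsub hx)
  rw [h0] at hD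
  obtain ⟨s, hs⟩ := IsAlgClosed.exists_pow_nat_eq (deriv F x₀) (show 0 < n - 1 by omega)
  have s0 : s ≠ 0 := fun e => hne x₀ (hsub hx) (by rw [← hs, e, zero_pow (by omega)])
  have sn : s ^ n = deriv F x₀ * s := by rw [← hs, ← pow_succ]; congr 1; omega
  have d0 := hne x₀ (hsub hx)
  have hA' : 4 * γ / r ≤ Real.exp M * ‖deriv F x₀‖ := by
    have h1 : ‖deriv P 0‖ * ‖deriv F x₀‖ = 1 := by rw [← norm_mul, hD, norm_one]
    calc 4 * γ / r = 4 * γ / r * ‖deriv P 0‖ * ‖deriv F x₀‖ := by rw [mul_assoc, h1, mul_one]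
      _ ≤ _ := by gcongr
  set Z : ℂ → ℂ := fun x => F x / deriv F x₀ with hZ
  have Zd : DifferentiableOn ℂ Z (ball 0 ρ) := (hF.mono hsub).div_const _
  have Z1 : ∀ z ∈ ball (0 : ℂ) ρ, ‖deriv Z z - 1‖ ≤ κ := fun z hz => by
    rw [hZ, deriv_div_const]
    exact RT28.dist_le hr hF hγ hne hM hκ (by linarith) hA'
      ((mem_ball_zero_iff.1 hz).le.trans hρ) (by linarith)
  have Z0 : Z x₀ = 0 := by simp [hZ, h0]
  have ns : 0 < ‖s‖ := norm_pos_iff.2 s0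
  refine ⟨s, s0, by rw [hs, mul_comm, hD], ?_, fun x h => ?_, fun y h => ?_⟩
  · have h1 := RT28.deriv_le (z := x₀) (ρ := r / 2) (by positivity) hF hγ
      (by rw [sub_zero]; linarith)
    rw [← norm_pow, hs]
    exact h1.trans (le_of_eq (by field_simp; ring))
  · have h1 := RT28.near_id Zd Z1 x (mem_ball_zero_iff.2 h) x₀ hx
    rw [Z0, sub_zero] at h1
    have e : F x / s ^ n - (x - x₀) / s = (Z x - (x - x₀)) / s := by
      rw [sn, hZ]; field_simp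
    rw [e, norm_div, norm_div, ← mul_div_assoc]
    gcongr
  · have hs2 : ball x₀ (ρ / 2) ⊆ ball 0 ρ :=
      ball_subset_ball' (by rw [dist_zero_right]; linarith)
    obtain ⟨x, h1, h2, h3⟩ := (RT28.cover hκ.le (by linarith) (Zd.mono hs2)
      fun z hz => Z1 z (hs2 hz)).2 (s * y) (by
        rw [Z0, mem_ball_zero_iff, norm_mul]; nlinarith)
    rw [Z0, sub_zero, norm_mul] at h3
    refine ⟨x, mem_ball_zero_iff.1 (hs2 h1), ?_, ?_⟩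
    · rw [sn, mul_assoc, ← h2, hZ]; field_simp
    · have e : (x - x₀) / s - y = (x - x₀ - s * y) / s := by field_simp
      have h4 : κ / (1 - κ) ≤ 2 * κ := by rw [div_le_iff₀ (by linarith)]; nlinarith
      rw [e, norm_div, div_le_iff₀ ns]
      calc _ ≤ _ := h3
        _ ≤ 2 * κ * (‖s‖ * ‖y‖) := by gcongr
        _ = _ := by ring

/-- The next level: the rescaled return map `g' y = P (s ^ n * y) / s`. -/
theorem level {n : ℕ} (hn : 2 ≤ n) {F P : ℂ → ℂ} {r γ M κ ρ B : ℝ} {u : ℕ → ℂ} (hr : 0 < r)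
    (hF : DifferentiableOn ℂ F (ball 0 r)) (hγ : ∀ z ∈ ball (0 : ℂ) r, ‖F z‖ ≤ γ)
    (hP : Differentiable ℂ P) (hPF : ∀ z ∈ ball (0 : ℂ) r, P (F z) = z)
    (hM : 1 ≤ M) (hκ : 0 < κ) (hκ1 : κ ≤ 1 / 2) (hA : 4 * γ / r * ‖deriv P 0‖ ≤ Real.exp M)
    (hρ0 : 0 < ρ) (hρ : ρ ≤ κ * r / (100 * M)) (hu0 : u 0 = 0) (hu : ∀ k, ‖u k‖ ≤ ρ / 2)
    (hFu : ∀ k, F (u (k + 1)) = u k ^ n) (hB : 0 < B) (hκB : 2 * κ * B ≤ 1)
    (hs : 4 * γ / r < (ρ / (4 * B)) ^ (n - 1)) :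
    ∃ s : ℂ, s ≠ 0 ∧ s ^ (n - 1) * deriv P 0 = 1 ∧ ‖s‖ ^ (n - 1) ≤ 4 * γ / r ∧
      B * ‖s‖ < ρ / 4 ∧ (∀ k, ‖u k / s‖ ≤ 3) ∧
      (∀ y, ‖y‖ ≤ B → ‖P (s ^ n * y) / s - y‖ ≤ 4) ∧
      (∀ k, (fun w => P (s ^ n * w ^ n) / s)^[k] 0 = u k / s) ∧
      (∀ y, ‖y‖ ≤ B → ∃ x, ‖x‖ < ρ ∧ ‖x‖ ≤ (B + 4) * ‖s‖ ∧ F x = s ^ n * y) ∧
      ∀ x z, ‖x‖ < ρ → F x = z ^ n → ‖z / s‖ ^ n ≤ 2 * ‖x / s‖ + 8 := by
  have hρr : ρ ≤ r / 2 := hρ.trans (by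
    rw [div_le_div_iff₀ (by positivity) two_pos]; nlinarith)
  have h0 : F (u 1) = 0 := by rw [hFu, hu0, zero_pow (by omega)]
  obtain ⟨s, s0, a1, a2, a3, a4⟩ := ren hn hr hF hγ hP hPF h0 hM hκ hκ1 hA hρ0 hρ (hu 1)
  have ns : 0 < ‖s‖ := norm_pos_iff.2 s0
  have b1 : B * ‖s‖ < ρ / 4 := by
    have h1 := lt_of_pow_lt_pow_left₀ _ (by positivity) (a2.trans_lt hs)
    rw [lt_div_iff₀ (by positivity)] at h1
    linarith
  have near : ∀ x z, ‖x‖ < ρ → F x = z ^ n → ‖(z / s) ^ n‖ ≤ 3 / 2 * ‖x / s - u 1 / s‖ :=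
    fun x z hx e => by
      have h1 := a3 x hx
      rw [e, ← div_pow, sub_div] at h1
      nlinarith [norm_sub_norm_le ((z / s) ^ n) (x / s - u 1 / s), norm_nonneg (x / s - u 1 / s)]
  have b2 : ∀ k, ‖u k / s‖ ≤ 3 :=
    orb3 hn (v := fun k => u k / s) (K := ρ / 2 / ‖s‖)
      (fun k => by rw [norm_div]; gcongr; exact hu k)
      fun k => near _ _ (by linarith [hu (k + 1)]) (hFu k)
  have cov : ∀ y, ‖y‖ ≤ B → ∃ x, ‖x‖ < ρ ∧ F x = s ^ n * y ∧ ‖x / s - y‖ ≤ 4 := fun y hy => by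
    obtain ⟨x, h1, h2, h3⟩ := a4 y (by nlinarith)
    refine ⟨x, h1, h2, ?_⟩
    have e : x / s - y = (x - u 1) / s - y + u 1 / s := by ring
    have h4 : 2 * κ * ‖y‖ ≤ 2 * κ * B := by gcongr
    rw [e]
    linarith [norm_add_le ((x - u 1) / s - y) (u 1 / s), b2 1]
  refine ⟨s, s0, a1, a2, b1, b2, fun y hy => ?_, fun k => ?_, fun y hy => ?_, fun x z hx e => ?_⟩
  · obtain ⟨x, h1, h2, h3⟩ := cov y hy
    rwa [← h2, hPF x (mem_ball_zero_iff.2 (by linarith))]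
  · induction k with
    | zero => simp [hu0]
    | succ k ih =>
      rw [Function.iterate_succ_apply', ih, ← mul_pow, mul_div_cancel₀ _ s0, ← hFu,
        hPF _ (mem_ball_zero_iff.2 (by linarith [hu (k + 1)]))]
  · obtain ⟨x, h1, h2, h3⟩ := cov y hy
    refine ⟨x, h1, ?_, h2⟩
    have h4 := norm_sub_norm_le (x / s) y
    rw [← div_le_iff₀ ns, ← norm_div]
    linarith
  · have h1 := near x z hx e
    rw [norm_pow] at h1
    linarith [norm_sub_le (x / s) (u 1 / s), b2 1, norm_nonneg (x / s)]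

end RT31
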