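import Pool.Agent.Lib.KN55.B_ARC55

/-! Order of two disjoint paths in a half plane, and sets on which logarithms exist. -/

set_option autoImplicit false

open Filter Topology Set Metric Complex Bornology
open scoped Real

namespace RT34

open Pool.Agent.Lib.MP_c35c17_an

theorem first_hit {f : ℝ → ℝ} (hf : Continuous f) (ht : Tendsto f atTop atTop) {T S U : ℝ}
    (h : ∀ s ∈ Icc T S, f s < U) (hTS : T ≤ S) :
    ∃ S1, S ≤ S1 ∧ f S1 = U ∧ ∀ s ∈ Icc T S1, f s ≤ U := by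
  have hS : f S < U := h S ⟨hTS, le_rfl⟩
  have key : ∀ s, S ≤ s → U ≤ f s → ∃ r, r ≤ s ∧ r ∈ {s | S ≤ s ∧ f s = U} := fun s h1 h2 => by
    obtain ⟨r, hr, e⟩ := intermediate_value_Icc h1 hf.continuousOn ⟨hS.le, h2⟩
    exact ⟨r, hr.2, hr.1, e⟩
  have hc : IsClosed {s | S ≤ s ∧ f s = U} :=
    (isClosed_le continuous_const continuous_id).inter (isClosed_eq hf continuous_const)
  have hb : BddBelow {s | S ≤ s ∧ f s = U} := ⟨S, fun s hs => hs.1⟩
  obtain ⟨s0, a1, a2⟩ := ((ht.eventually_ge_atTop U).and (eventually_ge_atTop S)).exists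
  obtain ⟨r0, -, hr0⟩ := key s0 a2 a1
  have hm := hc.csInf_mem ⟨r0, hr0⟩ hb
  refine ⟨_, hm.1, hm.2, fun s hs => ?_⟩
  rcases le_total s S with b | b
  · exact (h s ⟨hs.1, b⟩).le
  · refine le_of_not_gt fun b2 => ?_
    obtain ⟨r, b3, b4⟩ := key s b b2.le
    have b5 : s = sInf {s | S ≤ s ∧ f s = U} := le_antisymm hs.2 ((csInf_le hb b4).trans b3)
    exact b2.ne' (by rw [b5]; exact hm.2)

theorem slit_of_re {z : ℂ} (h0 : z ≠ 0) (h : 0 ≤ z.re) : z ∈ slitPlane := by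
  rcases h.eq_or_lt with e | e
  · exact Or.inr fun e2 => h0 (Complex.ext e.symm e2)
  · exact Or.inl e

theorem ord_aux {Γ Γ' : ℝ → ℂ} (hΓ : Continuous Γ) (hΓ' : Continuous Γ') {T T' S S' : ℝ}
    (hne : ∀ s t, Γ s ≠ Γ' t) (hS : T ≤ S) (hS' : T' ≤ S')
    (a1 : ∀ t ∈ Icc T' S', (Γ T).re ≤ (Γ' t).re) (a2 : ∀ s ∈ Icc T S, (Γ s).re ≤ (Γ' S').re)
    (a3 : ∀ s ∈ Icc T S, (Γ' T').re ≤ (Γ s).re) (a4 : ∀ t ∈ Icc T' S', (Γ' t).re ≤ (Γ S).re)
    (hb : (Γ S).im < (Γ' S').im) : (Γ T).im < (Γ' T').im := by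
  have hF : Continuous fun w : ℝ × ℝ => Γ' w.2 - Γ w.1 := by fun_prop
  have hF0 : ∀ w : ℝ × ℝ, Γ' w.2 - Γ w.1 ≠ 0 := fun w => sub_ne_zero.mpr (hne _ _).symm
  obtain ⟨l, hl, he⟩ := KN.ARC55.log_univ hF hF0
  have p1 : IsPreconnected (({T} : Set ℝ) ×ˢ Icc T' S' ∪ Icc T S ×ˢ ({S'} : Set ℝ)) :=
    IsPreconnected.union (T, S') ⟨rfl, hS', le_rfl⟩ ⟨⟨le_rfl, hS⟩, rfl⟩
      (isPreconnected_singleton.prod isPreconnected_Icc)
      (isPreconnected_Icc.prod isPreconnected_singleton)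
  have p2 : IsPreconnected (Icc T S ×ˢ ({T'} : Set ℝ) ∪ ({S} : Set ℝ) ×ˢ Icc T' S') :=
    IsPreconnected.union (S, T') ⟨⟨hS, le_rfl⟩, rfl⟩ ⟨rfl, le_rfl, hS'⟩
      (isPreconnected_Icc.prod isPreconnected_singleton)
      (isPreconnected_singleton.prod isPreconnected_Icc)
  have q1 := Q.const_of_exp_eq_one p1 (d := fun w => l w - log (Γ' w.2 - Γ w.1))
    (hl.continuousOn.sub (hF.continuousOn.clog fun w hw => slit_of_re (hF0 w) (by
      rw [sub_re, sub_nonneg]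
      rcases hw with ⟨b1, b2⟩ | ⟨b1, b2⟩
      · rw [mem_singleton_iff.mp b1]; exact a1 _ b2
      · rw [mem_singleton_iff.mp b2]; exact a2 _ b1)))
    (fun w _ => by rw [exp_sub, he, exp_log (hF0 w), div_self (hF0 w)])
    (x := (T, T')) (y := (S, S')) (Or.inl ⟨rfl, le_rfl, hS'⟩) (Or.inr ⟨⟨hS, le_rfl⟩, rfl⟩)
  have q2 := Q.const_of_exp_eq_one p2 (d := fun w => l w - log (-(Γ' w.2 - Γ w.1)) - π * I)
    ((hl.continuousOn.sub (hF.neg.continuousOn.clog fun w hw =>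
      slit_of_re (neg_ne_zero.mpr (hF0 w)) (by
      rw [Pi.neg_apply, neg_sub, sub_re, sub_nonneg]
      rcases hw with ⟨b1, b2⟩ | ⟨b1, b2⟩
      · rw [mem_singleton_iff.mp b2]; exact a3 _ b1
      · rw [mem_singleton_iff.mp b1]; exact a4 _ b2))).sub continuousOn_const)
    (fun w _ => by
      have := hF0 w
      rw [exp_sub, exp_sub, he, exp_log (neg_ne_zero.mpr this), exp_pi_mul_I, div_neg,
        div_neg, div_self this, div_one, neg_neg])
    (x := (T, T')) (y := (S, S')) (Or.inl ⟨⟨le_rfl, hS⟩, rfl⟩) (Or.inr ⟨rfl, hS', le_rfl⟩)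
  have e1 := congrArg Complex.im q1
  have e2 := congrArg Complex.im q2
  simp only [sub_im, log_im] at e1 e2
  rw [arg_neg_eq_arg_sub_pi_of_im_pos (x := Γ' S' - Γ S) (by rw [sub_im]; linarith)] at e2
  refine lt_of_not_ge fun hc => ?_
  rcases hc.eq_or_lt with c | c
  · exact hne T T' (Complex.ext (le_antisymm (a1 _ ⟨le_rfl, hS'⟩) (a3 _ ⟨le_rfl, hS⟩)) c.symm)
  · rw [arg_neg_eq_arg_add_pi_of_im_neg (x := Γ' T' - Γ T) (by rw [sub_im]; linarith)] at e2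
    linarith [Real.pi_pos]

/-- two disjoint paths that start on a vertical line and run to infinity to the right of it keep
their vertical order -/
theorem ord {γ γ' : ℝ → ℂ} {T T' u : ℝ} (hγ : ContinuousOn γ (Ici T))
    (hγ' : ContinuousOn γ' (Ici T')) (hne : ∀ s, T ≤ s → ∀ t, T' ≤ t → γ s ≠ γ' t)
    (h0 : (γ T).re = u) (h0' : (γ' T').re = u) (h1 : ∀ s, T ≤ s → u ≤ (γ s).re)
    (h1' : ∀ t, T' ≤ t → u ≤ (γ' t).re) (ht : Tendsto (fun s => (γ s).re) atTop atTop)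
    (ht' : Tendsto (fun s => (γ' s).re) atTop atTop)
    (hb : ∃ S, ∀ s, S ≤ s → ∀ t, S ≤ t → (γ s).im < (γ' t).im) : (γ T).im < (γ' T').im := by
  obtain ⟨S, hb⟩ := hb
  have c1 : Continuous fun t => γ (max t T) :=
    hγ.comp_continuous (by fun_prop) fun t => le_max_right t T
  have c2 : Continuous fun t => γ' (max t T') :=
    hγ'.comp_continuous (by fun_prop) fun t => le_max_right t T'
  have r1 : Continuous fun t => (γ (max t T)).re := continuous_re.comp c1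
  have r2 : Continuous fun t => (γ' (max t T')).re := continuous_re.comp c2
  obtain ⟨U1, b1⟩ := ((isCompact_Icc (a := T) (b := max S T)).image r1).bddAbove
  obtain ⟨U2, b2⟩ := ((isCompact_Icc (a := T') (b := max S T')).image r2).bddAbove
  obtain ⟨S1, d1, d2, d3⟩ := first_hit r1 (ht.comp (tendsto_atTop_mono (fun t => le_max_left t T)
    tendsto_id)) (T := T) (S := max S T) (U := max U1 U2 + 1)
    (fun s hs => by linarith [b1 ⟨s, hs, rfl⟩, le_max_left U1 U2]) (le_max_right _ _)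
  obtain ⟨S2, e1, e2, e3⟩ := first_hit r2 (ht'.comp (tendsto_atTop_mono (fun t => le_max_left t T')
    tendsto_id)) (T := T') (S := max S T') (U := max U1 U2 + 1)
    (fun s hs => by linarith [b2 ⟨s, hs, rfl⟩, le_max_right U1 U2]) (le_max_right _ _)
  have := ord_aux c1 c2 (T := T) (T' := T') (S := S1) (S' := S2)
    (fun s t => hne _ (le_max_right _ _) _ (le_max_right _ _)) ((le_max_right _ _).trans d1)
    ((le_max_right _ _).trans e1)
    (fun t _ => by rw [max_self, h0]; exact h1' _ (le_max_right _ _))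
    (fun s hs => by rw [e2]; exact d3 s hs)
    (fun s _ => by rw [max_self, h0']; exact h1 _ (le_max_right _ _))
    (fun t ht => by rw [d2]; exact e3 t ht)
    (hb _ (((le_max_left _ _).trans d1).trans (le_max_left _ _)) _
      (((le_max_left _ _).trans e1).trans (le_max_left _ _)))
  rwa [max_self, max_self] at this

/-- every zero-free continuous function has a continuous logarithm -/
def Zp (D : Set ℂ) : Prop := ∀ f : ℂ → ℂ, ContinuousOn f D → (∀ z ∈ D, f z ≠ 0) →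
  ∃ l : ℂ → ℂ, ContinuousOn l D ∧ ∀ z ∈ D, exp (l z) = f z

theorem zp_closedBall (c : ℂ) {ε : ℝ} (hε : 0 < ε) : Zp (closedBall c ε) := fun f hf h0 => by
  obtain ⟨ρ, r1, r2, r3⟩ := KN.ARC55.retr c hε
  obtain ⟨l, a1, a2⟩ := KN.ARC55.log_univ (hf.comp_continuous r1 r2) fun u => h0 _ (r2 u)
  exact ⟨l, a1.continuousOn, fun z hz => by rw [a2, Function.comp, r3 z hz]⟩

theorem ext_of_emb {X : Type} [TopologicalSpace X] {h l0 : X → ℂ} (hh : IsClosedEmbedding h)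
    (hl : Continuous l0) : ∃ l : ℂ → ℂ, Continuous l ∧ ∀ w, l (h w) = l0 w := by
  obtain ⟨l, e⟩ := ContinuousMap.exists_extension' hh (⟨l0, hl⟩ : C(X, ℂ))
  exact ⟨l, l.continuous, fun w => congrFun e w⟩

theorem zp_image {D : Set ℂ} (hD : IsCompact D) {e : ℂ → ℂ} (he : ContinuousOn e D)
    (hi : InjOn e D) (h : Zp D) : Zp (e '' D) := fun f hf h0 => by
  obtain ⟨l0, a1, a2⟩ := h (f ∘ e) (hf.comp he (mapsTo_image e D)) fun z hz => h0 _ ⟨z, hz, rfl⟩
  have := isCompact_iff_compactSpace.mp hD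
  obtain ⟨l, b1, b2⟩ := ext_of_emb (X := D) (h := D.domRestrict e) (l0 := D.domRestrict l0)
    (he.domRestrict.isClosedEmbedding hi.injective) a1.domRestrict
  refine ⟨l, b1.continuousOn, ?_⟩
  rintro _ ⟨z, hz, rfl⟩
  exact (congrArg exp (b2 ⟨z, hz⟩)).trans (a2 z hz)

theorem zp_arc {γ : ℝ → ℂ} {a b : ℝ} (hγ : ContinuousOn γ (Icc a b)) (hi : InjOn γ (Icc a b)) :
    Zp (γ '' Icc a b) := fun f hf h0 => by
  rcases lt_or_ge b a with hab | hab
  · exact ⟨0, continuousOn_const, fun z hz => by simp [Icc_eq_empty_of_lt hab] at hz⟩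
  have c1 : Continuous fun t : ℝ => γ (projIcc a b hab t) :=
    hγ.comp_continuous (by fun_prop) fun t => (projIcc a b hab t).2
  obtain ⟨l0, a1, a2⟩ := KN.ARC55.log_univ (q := fun t : ℝ => f (γ (projIcc a b hab t)))
    (hf.comp_continuous c1 fun t => ⟨_, (projIcc a b hab t).2, rfl⟩)
    fun t => h0 _ ⟨_, (projIcc a b hab t).2, rfl⟩
  obtain ⟨l, b1, b2⟩ := ext_of_emb (X := Icc a b) (h := (Icc a b).domRestrict γ)
    (l0 := fun t => l0 t) (hγ.domRestrict.isClosedEmbedding hi.injective) (by fun_prop)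
  refine ⟨l, b1.continuousOn, ?_⟩
  rintro _ ⟨t, ht, rfl⟩
  refine (congrArg exp (b2 ⟨t, ht⟩)).trans ((a2 t).trans ?_)
  rw [projIcc_of_mem hab ht]

/-- two logarithms that agree on the intersection glue -/
theorem glue {P R : Set ℂ} (hP : IsClosed P) (hR : IsClosed R) {l1 l2 : ℂ → ℂ}
    (h1 : ContinuousOn l1 P) (h2 : ContinuousOn l2 R) (h : ∀ z ∈ P, z ∈ R → l1 z = l2 z) :
    ∃ l : ℂ → ℂ, ContinuousOn l (P ∪ R) ∧ (∀ z ∈ P, l z = l1 z) ∧ ∀ z ∈ R, l z = l2 z := by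
  classical
  have e1 : ∀ z ∈ P, P.piecewise l1 l2 z = l1 z := fun z hz => piecewise_eq_of_mem _ _ _ hz
  have e2 : ∀ z ∈ R, P.piecewise l1 l2 z = l2 z := fun z hz => by
    by_cases b : z ∈ P
    · rw [e1 z b, h z b hz]
    · exact piecewise_eq_of_notMem _ _ _ b
  exact ⟨P.piecewise l1 l2, (h1.congr e1).union_of_isClosed (h2.congr e2) hP hR, e1, e2⟩

theorem zp_union {P R : Set ℂ} (hP : IsClosed P) (hR : IsClosed R) (hc : IsPreconnected (P ∩ R))
    (h1 : Zp P) (h2 : Zp R) : Zp (P ∪ R) := fun f hf h0 => by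
  obtain ⟨l1, a1, a2⟩ := h1 f (hf.mono subset_union_left) fun z hz => h0 z (Or.inl hz)
  obtain ⟨l2, b1, b2⟩ := h2 f (hf.mono subset_union_right) fun z hz => h0 z (Or.inr hz)
  obtain ⟨k, k1, k2⟩ : ∃ k : ℂ, exp k = 1 ∧ ∀ z ∈ P, z ∈ R → l1 z = l2 z + k := by
    rcases (P ∩ R).eq_empty_or_nonempty with e | ⟨p, hp⟩
    · exact ⟨0, exp_zero, fun z c1 c2 => absurd (e ▸ ⟨c1, c2⟩ : z ∈ (∅ : Set ℂ)) id⟩
    · have g : ∀ z ∈ P ∩ R, exp (l1 z - l2 z) = 1 := fun z hz => by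
        rw [exp_sub, a2 z hz.1, b2 z hz.2, div_self (h0 z (Or.inl hz.1))]
      refine ⟨l1 p - l2 p, g p hp, fun z c1 c2 => ?_⟩
      rw [← Q.const_of_exp_eq_one hc (d := fun z => l1 z - l2 z)
        ((a1.mono inter_subset_left).sub (b1.mono inter_subset_right)) g ⟨c1, c2⟩ hp]
      ring
  obtain ⟨l, c1, c2, c3⟩ := glue hP hR a1 (b1.add (continuousOn_const (c := k))) k2
  refine ⟨l, c1, ?_⟩
  rintro z (hz | hz)
  · rw [c2 z hz, a2 z hz]
  · rw [c3 z hz, Pi.add_apply, exp_add, k1, mul_one, b2 z hz]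

/-- a set with an arc attached at its first point -/
theorem zp_attach {D : Set ℂ} (hD : IsClosed D) (h : Zp D) {γ : ℝ → ℂ} {a b : ℝ}
    (hγ : ContinuousOn γ (Icc a b)) (hi : InjOn γ (Icc a b))
    (hout : ∀ t, a < t → t ≤ b → γ t ∉ D) : Zp (D ∪ γ '' Icc a b) := by
  refine zp_union hD (isCompact_Icc.image_of_continuousOn hγ).isClosed
    (Set.Subsingleton.isPreconnected ?_) h (zp_arc hγ hi)
  have g : ∀ z ∈ D ∩ γ '' Icc a b, z = γ a := by
    rintro _ ⟨b1, t, ht, rfl⟩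
    rcases ht.1.eq_or_lt with e | e
    · rw [e]
    · exact absurd b1 (hout t e ht.2)
  exact fun z hz w hw => (g z hz).trans (g w hw).symm

theorem ray_emb {γ : ℝ → ℂ} {a : ℝ} (hγ : ContinuousOn γ (Ici a)) (hi : InjOn γ (Ici a))
    (ht : Tendsto (fun t => ‖γ t‖) atTop atTop) : IsClosedEmbedding ((Ici a).domRestrict γ) := by
  refine IsClosedEmbedding.of_continuous_injective_isClosedMap hγ.domRestrict hi.injective
    (IsProperMap.isClosedMap (isProperMap_iff_isCompact_preimage.mpr ⟨hγ.domRestrict, fun K hK => ?_⟩))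
  obtain ⟨R, hR⟩ := hK.isBounded.exists_norm_le
  obtain ⟨t1, ht1⟩ := eventually_atTop.mp (ht.eventually_gt_atTop R)
  refine (isClosed_Ici.isClosedEmbedding_subtypeVal.isCompact_preimage
    (isCompact_Icc (a := a) (b := t1))).of_isClosed_subset (hK.isClosed.preimage hγ.domRestrict)
    fun w hw => ⟨w.2, le_of_not_ge fun b => (ht1 _ b).not_ge (hR _ hw)⟩

/-- a compact set with logarithms and a ray attached at its first point -/
theorem lg_ray {D : Set ℂ} (hD : IsCompact D) (h : Zp D) {γ : ℝ → ℂ} {a : ℝ}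
    (hγ : ContinuousOn γ (Ici a)) (hi : InjOn γ (Ici a))
    (ht : Tendsto (fun t => ‖γ t‖) atTop atTop) (hout : ∀ t, a < t → γ t ∉ D) :
    IsClosed (D ∪ γ '' Ici a) ∧ ¬ IsBounded (D ∪ γ '' Ici a) ∧ KN.Lg (D ∪ γ '' Ici a) := by
  have hemb := ray_emb hγ hi ht
  have hcl : IsClosed (γ '' Ici a) := by
    rw [← range_domRestrict]; exact hemb.isClosed_range
  refine ⟨hD.isClosed.union hcl, fun hb => ?_, fun x hx y hy => ?_⟩
  · obtain ⟨R, hR⟩ := hb.exists_norm_le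
    obtain ⟨t, b1, b2⟩ := ((ht.eventually_gt_atTop R).and (eventually_ge_atTop a)).exists
    exact b1.not_ge (hR _ (Or.inr ⟨t, b2, rfl⟩))
  have hΓ : Continuous fun t => γ (max t a) :=
    hγ.comp_continuous (by fun_prop) fun t => le_max_right t a
  have g1 : ∀ {x}, x ∉ D ∪ γ '' Ici a → ∀ u ∈ D, u - x ≠ 0 :=
    fun hx u hu e0 => hx (Or.inl (sub_eq_zero.mp e0 ▸ hu))
  have g2 : ∀ {x}, x ∉ D ∪ γ '' Ici a → ∀ t, γ (max t a) ≠ x :=
    fun hx t e0 => hx (Or.inr ⟨_, le_max_right t a, e0⟩)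
  obtain ⟨l1, a1, a2⟩ := h (fun u => (u - x) / (u - y))
    (ContinuousOn.div (by fun_prop) (by fun_prop) (g1 hy)) fun u hu =>
      div_ne_zero (g1 hx u hu) (g1 hy u hu)
  obtain ⟨l2, b1, b2, b3⟩ := KN.ARC55.ray_log hΓ
    (ht.comp (tendsto_atTop_mono (fun t => le_max_left t a) tendsto_id)) (g2 hx) (g2 hy)
  obtain ⟨l3, c1, c2⟩ := ext_of_emb (X := Ici a) (l0 := fun t => l2 t) hemb (by fun_prop)
  have c3 : ∀ t, a ≤ t → l3 (γ t) = l2 t := fun t b => c2 ⟨t, b⟩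
  have c4 : ∀ t, a ≤ t → exp (l3 (γ t)) = (γ t - x) / (γ t - y) := fun t b => by
    rw [c3 t b, b2, max_eq_left b]
  obtain ⟨k, k1, k2⟩ : ∃ k : ℂ, exp k = 1 ∧ ∀ z ∈ D, z ∈ γ '' Ici a → l1 z + k = l3 z := by
    by_cases b : γ a ∈ D
    · refine ⟨l3 (γ a) - l1 (γ a), ?_, ?_⟩
      · rw [exp_sub, c4 a le_rfl, a2 _ b, div_self (div_ne_zero (g1 hx _ b) (g1 hy _ b))]
      · rintro _ d1 ⟨t, d2, rfl⟩
        rcases (mem_Ici.mp d2).eq_or_lt with e | e
        · rw [← e]; ring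
        · exact absurd d1 (hout t e)
    · refine ⟨0, exp_zero, ?_⟩
      rintro _ d1 ⟨t, d2, rfl⟩
      rcases (mem_Ici.mp d2).eq_or_lt with e | e
      · exact absurd (e ▸ d1) b
      · exact absurd d1 (hout t e)
  obtain ⟨l, e1, e2, e3⟩ := glue hD.isClosed hcl (a1.add (continuousOn_const (c := k)))
    c1.continuousOn k2
  obtain ⟨t1, ht1⟩ := eventually_atTop.mp b3
  obtain ⟨R, hR⟩ := (hD.union ((isCompact_Icc (a := a) (b := t1)).image hΓ)).isBounded.exists_norm_le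
  refine ⟨l, e1, ?_, R + 1, ?_⟩
  · rintro z (hz | ⟨t, hz, rfl⟩)
    · rw [e2 z hz, Pi.add_apply, exp_add, k1, mul_one, a2 z hz]
    · rw [e3 _ ⟨t, hz, rfl⟩, c4 t hz]
  · rintro z (hz | ⟨t, hz, rfl⟩) hz'
    · linarith [hR z (Or.inl hz)]
    · rw [e3 _ ⟨t, hz, rfl⟩, c3 t hz]
      refine ht1 _ (le_of_not_ge fun d => ?_)
      linarith [hR (γ t) (Or.inr ⟨t, ⟨hz, d⟩, by simp only [max_eq_left (mem_Ici.mp hz)]⟩)]

theorem conn_ray {D : Set ℂ} (hD : IsPreconnected D) {γ : ℝ → ℂ} {a : ℝ}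
    (hγ : ContinuousOn γ (Ici a)) (h : γ a ∈ D) : IsPreconnected (D ∪ γ '' Ici a) :=
  IsPreconnected.union (γ a) h ⟨a, self_mem_Ici, rfl⟩ hD (isPreconnected_Ici.image _ hγ)

theorem conn_arc {D : Set ℂ} (hD : IsPreconnected D) {γ : ℝ → ℂ} {a b : ℝ} (hab : a ≤ b)
    (hγ : ContinuousOn γ (Icc a b)) (h : γ a ∈ D) : IsPreconnected (D ∪ γ '' Icc a b) :=
  IsPreconnected.union (γ a) h ⟨a, ⟨le_rfl, hab⟩, rfl⟩ hD (isPreconnected_Icc.image _ hγ)

end RT34
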