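import Pool.Agent.Lib.RT.T34

/-! Extension of a chart at infinity along the strips. -/

set_option autoImplicit false

open Filter Topology Set Metric Complex Bornology
open scoped Real

namespace RT34

open Pool.Agent.Lib.MP_c35c17_an

/-- the standard logarithmic chart -/
noncomputable def A0 (κ : ℝ) (z : ℂ) : ℂ := ⟨2 * π * (κ * z.re), 2 * π * z.im⟩

theorem A0_cont (κ : ℝ) : Continuous (A0 κ) := by
  have : A0 κ = fun z : ℂ => ((2 * π * (κ * z.re) : ℝ) : ℂ) + ((2 * π * z.im : ℝ) : ℂ) * I := by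
    funext z; exact Complex.mk_eq_add_mul_I _ _
  rw [this]; fun_prop

theorem A0_mul (κ : ℝ) (n : ℕ) (z : ℂ) : A0 κ (n * z) = n * A0 κ z := by
  apply Complex.ext <;> simp [A0] <;> ring

theorem A0_norm (κ : ℝ) (z : ℂ) : ‖exp (A0 κ z)‖ = Real.exp (2 * π * (κ * z.re)) := norm_exp _

theorem half_conn (t : ℝ) : IsPreconnected {z : ℂ | t ≤ z.re} :=
  (convex_halfSpace_re_ge t).isPreconnected

theorem log_half {q : ℂ → ℂ} {t : ℝ} (hq : ContinuousOn q {z | t ≤ z.re})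
    (h0 : ∀ z : ℂ, t ≤ z.re → q z ≠ 0) :
    ∃ l : ℂ → ℂ, Continuous l ∧ ∀ z : ℂ, t ≤ z.re → exp (l z) = q z := by
  have c : Continuous fun z : ℂ => ((max t z.re : ℝ) : ℂ) + (z.im : ℂ) * I := by fun_prop
  have m : ∀ z : ℂ, t ≤ (((max t z.re : ℝ) : ℂ) + (z.im : ℂ) * I).re := fun z => by simp
  obtain ⟨l, a1, a2⟩ := KN.ARC55.log_univ (hq.comp_continuous c m) fun z => h0 _ (m z)
  exact ⟨l, a1, fun z hz => by rw [a2, Function.comp, max_eq_right hz, re_add_im]⟩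

theorem re_nmul (n : ℕ) (z : ℂ) : ((n : ℂ) * z).re = n * z.re := by simp

theorem big {n : ℕ} (hn : 2 ≤ n) {x : ℝ} (hx : 0 < x) (t : ℝ) : ∃ k : ℕ, t < (n : ℝ) ^ k * x := by
  have h1 : (1 : ℝ) < n := by exact_mod_cast hn
  exact (((tendsto_pow_atTop_atTop_of_one_lt h1).atTop_mul_const hx).eventually_gt_atTop t).exists

section

variable {n : ℕ} {hom : ℂ ≃ₜ ℂ} {G : ℂ → ℂ} {κ t0 : ℝ}

theorem step (hn : 2 ≤ n) (hG : ∀ u, G u = hom (u ^ n)) {A : ℂ → ℂ} {t : ℝ} (ht : 0 < t)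
    (hc : ContinuousOn A {z | t ≤ z.re})
    (hf : ∀ z : ℂ, t ≤ z.re → G (exp (A z)) = exp (A (n * z)))
    (h0 : ∀ z : ℂ, t ≤ z.re → exp (A z) ≠ hom 0) :
    ∃ A' : ℂ → ℂ, Continuous A' ∧ (∀ z : ℂ, t ≤ z.re → A' z = A z) ∧
      ∀ z : ℂ, t / n ≤ z.re → G (exp (A' z)) = exp (A (n * z)) := by
  have n1 : (1 : ℝ) ≤ n := by exact_mod_cast (by omega : 1 ≤ n)
  have n0 : (n : ℂ) ≠ 0 := by exact_mod_cast (by omega : n ≠ 0)
  have m : ∀ z : ℂ, t / n ≤ z.re → t ≤ ((n : ℂ) * z).re := fun z hz => by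
    rw [re_nmul, mul_comm]; exact (div_le_iff₀ (by linarith)).mp hz
  have q0 : ∀ z : ℂ, t / n ≤ z.re → hom.symm (exp (A (n * z))) ≠ 0 := fun z hz e =>
    h0 _ (m z hz) (by rw [← e, Homeomorph.apply_symm_apply])
  obtain ⟨l, a1, a2⟩ := log_half (q := fun z => hom.symm (exp (A (n * z)))) (t := t / n)
    (hom.symm.continuous.comp_continuousOn (hc.comp (by fun_prop) m).cexp) q0
  have sub : ∀ z : ℂ, t ≤ z.re → t / n ≤ z.re := fun z hz => (div_le_self ht.le n1).trans hz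
  have g : ∀ z ∈ {z : ℂ | t ≤ z.re}, exp (n * A z - l z) = 1 := fun z hz => by
    rw [exp_sub, a2 z (sub z hz), exp_nat_mul, ← hf z hz, hG, Homeomorph.symm_apply_apply,
      div_self (pow_ne_zero _ (exp_ne_zero _))]
  have tm : (t : ℂ) ∈ {z : ℂ | t ≤ z.re} := by simp
  refine ⟨fun z => (l z + (n * A t - l t)) / n, by fun_prop, fun z hz => ?_, fun z hz => ?_⟩
  · rw [← Q.const_of_exp_eq_one (half_conn t) (d := fun z => n * A z - l z)
      ((continuousOn_const.mul hc).sub a1.continuousOn) g hz tm]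
    field_simp
    ring
  · rw [hG, ← exp_nat_mul, mul_div_cancel₀ _ n0, exp_add, g _ tm, mul_one, a2 z hz,
      Homeomorph.apply_symm_apply]

theorem iter (hn : 2 ≤ n) {B : ℂ → ℂ} {t : ℝ} (ht : 0 < t)
    (hf : ∀ z : ℂ, t ≤ z.re → G (B z) = B (n * z)) (j : ℕ) :
    ∀ z : ℂ, t ≤ z.re → G^[j] (B z) = B ((n : ℂ) ^ j * z) := by
  have n1 : (1 : ℝ) ≤ n := by exact_mod_cast (by omega : 1 ≤ n)
  induction j with
  | zero => intro z _; simp
  | succ j ih =>
    intro z hz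
    rw [Function.iterate_succ_apply, hf z hz, ih _ (by rw [re_nmul]; nlinarith), pow_succ,
      mul_assoc]

theorem miss (hn : 2 ≤ n) (hκ : 0 < κ) (horb : ∀ j, ‖G^[j] 0‖ < Real.exp (2 * π * (κ * t0)))
    {A : ℂ → ℂ} {t : ℝ} (ht : 0 < t) (hs : ∀ z : ℂ, t0 ≤ z.re → A z = A0 κ z)
    (hf : ∀ z : ℂ, t ≤ z.re → G (exp (A z)) = exp (A (n * z))) (z : ℂ) (hz : t ≤ z.re) (i : ℕ) :
    exp (A z) ≠ G^[i] 0 := fun e => by
  obtain ⟨k, hk⟩ := big hn (ht.trans_le hz) t0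
  have r : ((n : ℂ) ^ k * z).re = (n : ℝ) ^ k * z.re := by
    rw [← Nat.cast_pow, re_nmul, Nat.cast_pow]
  have h1 := iter (B := fun z => exp (A z)) hn ht hf k z hz
  have h2 := horb (k + i)
  rw [Function.iterate_add_apply, ← e, h1, hs _ (by rw [r]; exact hk.le), A0_norm, r,
    Real.exp_lt_exp] at h2
  have := mul_lt_mul_of_pos_left (mul_lt_mul_of_pos_left hk hκ) Real.two_pi_pos
  linarith

theorem exists_A (hn : 2 ≤ n) (hG : ∀ u, G u = hom (u ^ n)) (hκ : 0 < κ) (ht : 0 < t0)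
    (hfix : ∀ u : ℂ, Real.exp (2 * π * (κ * t0)) ≤ ‖u‖ → G u = u ^ n)
    (horb : ∀ j, ‖G^[j] 0‖ < Real.exp (2 * π * (κ * t0))) :
    ∃ A : ℂ → ℂ, (∀ z : ℂ, 0 < z.re → ContinuousAt A z) ∧ (∀ z : ℂ, t0 ≤ z.re → A z = A0 κ z) ∧
      ∀ z : ℂ, 0 < z.re → G (exp (A z)) = exp (A (n * z)) := by
  classical
  have n1 : (1 : ℝ) ≤ n := by exact_mod_cast (by omega : 1 ≤ n)
  have tp : ∀ k : ℕ, 0 < t0 / (n : ℝ) ^ k := fun k => by positivity
  have mono : ∀ {k j : ℕ}, k ≤ j → t0 / (n : ℝ) ^ j ≤ t0 / (n : ℝ) ^ k := fun h =>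
    div_le_div_of_nonneg_left ht.le (by positivity) (pow_le_pow_right₀ n1 h)
  have t00 : ∀ k : ℕ, t0 / (n : ℝ) ^ k ≤ t0 := fun k => by simpa using mono (Nat.zero_le k)
  set P : ℕ → (ℂ → ℂ) → Prop := fun k A => Continuous A ∧ (∀ z : ℂ, t0 ≤ z.re → A z = A0 κ z) ∧
    ∀ z : ℂ, t0 / (n : ℝ) ^ k ≤ z.re → G (exp (A z)) = exp (A (n * z)) with hP
  have st : ∀ k A, P k A → ∃ A', P (k + 1) A' ∧ ∀ z : ℂ, t0 / (n : ℝ) ^ k ≤ z.re → A' z = A z := by
    rintro k A ⟨p1, p2, p3⟩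
    obtain ⟨A', a1, a2, a3⟩ := step hn hG (tp k) p1.continuousOn p3 fun z hz => by
      have := miss hn hκ horb (tp k) p2 p3 z hz 1
      rwa [Function.iterate_one, hG, zero_pow (by omega)] at this
    refine ⟨A', ⟨a1, fun z hz => by rw [a2 z ((t00 k).trans hz), p2 z hz], fun z hz => ?_⟩, a2⟩
    rw [pow_succ, ← div_div] at hz
    rw [a3 z hz, a2]
    rw [re_nmul, mul_comm]
    exact (div_le_iff₀ (by linarith)).mp hz
  choose! f hf using st
  set s : ℕ → ℂ → ℂ := fun k => Nat.rec (A0 κ) f k with hs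
  have s1 : ∀ k, s (k + 1) = f k (s k) := fun k => rfl
  have ps : ∀ k, P k (s k) := fun k => by
    induction k with
    | zero =>
      refine ⟨A0_cont κ, fun _ _ => rfl, fun z hz => ?_⟩
      show G (exp (A0 κ z)) = exp (A0 κ (n * z))
      rw [pow_zero, div_one] at hz
      rw [hfix _ (by rw [A0_norm]; gcongr), A0_mul, exp_nat_mul]
    | succ k ih => exact (hf k _ ih).1
  have ag : ∀ k j, k ≤ j → ∀ z : ℂ, t0 / (n : ℝ) ^ k ≤ z.re → s j z = s k z := fun k j h z hz => by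
    induction j, h using Nat.le_induction with
    | base => rfl
    | succ j h ih => rw [s1, (hf j _ (ps j)).2 z ((mono h).trans hz), ih]
  obtain ⟨A, hA⟩ : ∃ A : ℂ → ℂ, ∀ k, ∀ z : ℂ, t0 / (n : ℝ) ^ k ≤ z.re → A z = s k z := by
    refine ⟨fun z => if h : ∃ k : ℕ, t0 / (n : ℝ) ^ k ≤ z.re then s (Nat.find h) z else 0,
      fun k z hz => ?_⟩
    have h : ∃ k : ℕ, t0 / (n : ℝ) ^ k ≤ z.re := ⟨k, hz⟩
    simp only [dif_pos h]
    exact (ag _ _ (Nat.find_min' h hz) z (Nat.find_spec h)).symm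
  have ex : ∀ z : ℂ, 0 < z.re → ∃ k : ℕ, t0 / (n : ℝ) ^ k < z.re := fun z hz => by
    obtain ⟨k, hk⟩ := big hn hz t0
    exact ⟨k, (div_lt_iff₀' (by positivity)).mpr hk⟩
  refine ⟨A, fun z hz => ?_, fun z hz => by rw [hA 0 z ((t00 0).trans hz)]; rfl, fun z hz => ?_⟩
  · obtain ⟨k, hk⟩ := ex z hz
    refine (ps k).1.continuousAt.congr ?_
    filter_upwards [(isOpen_lt continuous_const continuous_re).mem_nhds hk] with w hw
    exact (hA k w (le_of_lt hw)).symm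
  · obtain ⟨k, hk⟩ := ex z hz
    rw [hA k z hk.le, hA k _ (by rw [re_nmul]; nlinarith), (ps k).2.2 z hk.le]

/-- induction along the strips -/
theorem strip (hn : 2 ≤ n) (t0 : ℝ) {p : ℝ → Prop} (h0 : ∀ t, t0 < t → p t)
    (h1 : ∀ t, 0 < t → p (n * t) → p t) (t : ℝ) (ht : 0 < t) : p t := by
  obtain ⟨k, hk⟩ := big hn ht t0
  induction k generalizing t with
  | zero => exact h0 t (by simpa using hk)
  | succ k ih =>
    exact h1 t ht (ih _ (by have : (0 : ℝ) < n := by exact_mod_cast (by omega : 0 < n)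
                            positivity) (by rw [← mul_assoc, ← pow_succ]; exact hk))

theorem shift (hn : 2 ≤ n) (hG : ∀ u, G u = hom (u ^ n)) {A : ℂ → ℂ}
    (hc : ∀ z : ℂ, 0 < z.re → ContinuousAt A z) (hs : ∀ z : ℂ, t0 ≤ z.re → A z = A0 κ z)
    (hf : ∀ z : ℂ, 0 < z.re → G (exp (A z)) = exp (A (n * z))) (z : ℂ) (hz : 0 < z.re) (m : ℤ) :
    A (z + m / n * I) = A z + 2 * π * (m / n * I) := by
  have n0 : (n : ℂ) ≠ 0 := by exact_mod_cast (by omega : n ≠ 0)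
  have rr : ∀ (z : ℂ) (m : ℤ), (z + m / n * I).re = z.re := fun z m => by
    have : ((m : ℂ) / n) = (((m : ℝ) / n : ℝ) : ℂ) := by push_cast; rfl
    rw [this]; simp
  have base : ∀ z : ℂ, t0 ≤ z.re → ∀ m : ℤ, A (z + m / n * I) = A z + 2 * π * (m / n * I) :=
    fun z hz m => by
      rw [hs z hz, hs _ (by rw [rr]; exact hz)]
      have : ((m : ℂ) / n) = (((m : ℝ) / n : ℝ) : ℂ) := by push_cast; rfl
      rw [this]
      generalize (m : ℝ) / n = x
      apply Complex.ext <;> simp [A0]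
      ring
  refine strip hn t0 (p := fun t => ∀ z : ℂ, t ≤ z.re → ∀ m : ℤ,
    A (z + m / n * I) = A z + 2 * π * (m / n * I)) (fun t h z hz => base z (h.le.trans hz))
    (fun t ht ih z hz m => ?_) z.re hz z le_rfl m
  have pw : ∀ z : ℂ, t ≤ z.re → exp (n * A z) = hom.symm (exp (A (n * z))) := fun z hz => by
    rw [← hf z (ht.trans_le hz), hG, Homeomorph.symm_apply_apply, exp_nat_mul]
  have g : ∀ z ∈ {z : ℂ | t ≤ z.re}, exp (n * A (z + m / n * I) - n * A z - m * (2 * π * I)) = 1 :=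
    fun z hz => by
      have e : (n : ℂ) * (z + m / n * I) = n * z + ((n * m : ℤ) : ℂ) / n * I := by
        push_cast; field_simp
      have e2 : 2 * π * (((n * m : ℤ) : ℂ) / n * I) = m * (2 * π * I) := by
        push_cast; field_simp
      rw [exp_sub, exp_sub, pw _ (by rw [rr]; exact hz), e, ih _ (by
        rw [re_nmul]; exact mul_le_mul_of_nonneg_left hz (Nat.cast_nonneg n)), e2, exp_add,
        exp_int_mul_two_pi_mul_I, mul_one, ← pw z hz, div_self (exp_ne_zero _), div_one]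
  have c1 : ContinuousOn A {z : ℂ | t ≤ z.re} := fun w hw =>
    (hc w (ht.trans_le hw)).continuousWithinAt
  have tm : ((max t t0 : ℝ) : ℂ) ∈ {z : ℂ | t ≤ z.re} := by simp
  have := Q.const_of_exp_eq_one (half_conn t)
    (d := fun z => n * A (z + m / n * I) - n * A z - m * (2 * π * I))
    (((continuousOn_const.mul (c1.comp (by fun_prop) fun w hw => by
      rw [mem_ofPred_eq, rr]; exact hw)).sub (continuousOn_const.mul c1)).sub continuousOn_const)
    g hz tm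
  rw [base ((max t t0 : ℝ) : ℂ) (by simp) m] at this
  apply mul_left_cancel₀ n0
  linear_combination this

theorem re_shift (z : ℂ) (m : ℤ) (n : ℕ) : (z + m / n * I).re = z.re := by
  have : ((m : ℂ) / n) = (((m : ℝ) / n : ℝ) : ℂ) := by push_cast; rfl
  rw [this]; simp

theorem pre (hn : 2 ≤ n) (hG : ∀ u, G u = hom (u ^ n)) {A : ℂ → ℂ}
    (hf : ∀ z : ℂ, 0 < z.re → G (exp (A z)) = exp (A (n * z)))
    (hp : ∀ z : ℂ, 0 < z.re → ∀ m : ℤ, A (z + m / n * I) = A z + 2 * π * (m / n * I))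
    {u z : ℂ} (hz : 0 < z.re) (h : G u = exp (A (n * z))) :
    ∃ m : ℤ, u = exp (A (z + m / n * I)) := by
  have n0 : (n : ℂ) ≠ 0 := by exact_mod_cast (by omega : n ≠ 0)
  rw [← hf z hz, hG, hG] at h
  have h1 := hom.injective h
  have u0 : u ≠ 0 := fun e => by
    rw [e, zero_pow (by omega)] at h1
    exact pow_ne_zero _ (exp_ne_zero _) h1.symm
  rw [← exp_log u0, ← exp_nat_mul, ← exp_nat_mul] at h1
  obtain ⟨m, hm⟩ := exp_eq_exp_iff_exists_int.mp h1
  refine ⟨m, ?_⟩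
  rw [hp z hz, ← exp_log u0]
  congr 1
  apply mul_left_cancel₀ n0
  rw [hm]
  field_simp

theorem inj (hn : 2 ≤ n) (hκ : 0 < κ) {A : ℂ → ℂ} (hs : ∀ z : ℂ, t0 ≤ z.re → A z = A0 κ z)
    (hf : ∀ z : ℂ, 0 < z.re → G (exp (A z)) = exp (A (n * z)))
    (hp : ∀ z : ℂ, 0 < z.re → ∀ m : ℤ, A (z + m / n * I) = A z + 2 * π * (m / n * I))
    {z w : ℂ} (hz : 0 < z.re) (hw : 0 < w.re) (h : exp (A z) = exp (A w)) :
    ∃ m : ℤ, z = w + m * I := by
  have n0 : (n : ℂ) ≠ 0 := by exact_mod_cast (by omega : n ≠ 0)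
  have p0 : (2 * π : ℂ) ≠ 0 := by exact_mod_cast Real.two_pi_pos.ne'
  refine strip hn t0 (p := fun t => ∀ z w : ℂ, t ≤ z.re → t ≤ w.re → exp (A z) = exp (A w) →
    ∃ m : ℤ, z = w + m * I) (fun t b z w b1 b2 e => ?_) (fun t ht ih z w b1 b2 e => ?_)
    (min z.re w.re) (lt_min hz hw) z w (min_le_left _ _) (min_le_right _ _) h
  · rw [hs z (b.le.trans b1), hs w (b.le.trans b2)] at e
    obtain ⟨m, hm⟩ := exp_eq_exp_iff_exists_int.mp e
    have r := congrArg Complex.re hm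
    have i := congrArg Complex.im hm
    simp [A0, hκ.ne', Real.pi_ne_zero] at r i
    refine ⟨m, Complex.ext (by simpa using r) ?_⟩
    simp only [add_im, mul_im, intCast_re, intCast_im, I_re, I_im]
    apply mul_left_cancel₀ Real.two_pi_pos.ne'
    linarith
  · obtain ⟨m, hm⟩ := ih (n * z) (n * w)
      (by rw [re_nmul]; exact mul_le_mul_of_nonneg_left b1 (Nat.cast_nonneg n))
      (by rw [re_nmul]; exact mul_le_mul_of_nonneg_left b2 (Nat.cast_nonneg n))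
      (by rw [← hf z (ht.trans_le b1), ← hf w (ht.trans_le b2), e])
    have e1 : z = w + m / n * I := by
      apply mul_left_cancel₀ n0
      rw [hm]; field_simp
    rw [e1, hp w (ht.trans_le b2)] at e
    obtain ⟨j, hj⟩ := exp_eq_exp_iff_exists_int.mp e
    refine ⟨j, ?_⟩
    rw [e1, add_right_inj]
    apply mul_left_cancel₀ p0
    linear_combination hj

theorem A0_open (hκ : 0 < κ) : IsOpenMap (A0 κ) := by
  have a : (2 * π * κ) ≠ 0 := by positivity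
  have b : (2 * π) ≠ 0 := by positivity
  refine IsOpenMap.of_inverse (f := A0 κ)
    (f' := fun w : ℂ => ((w.re / (2 * π * κ) : ℝ) : ℂ) + ((w.im / (2 * π) : ℝ) : ℂ) * I)
    (by fun_prop) (fun z => ?_) fun z => ?_
  · apply Complex.ext <;> simp only [A0, add_re, add_im, mul_re, mul_im, ofReal_re, ofReal_im,
      I_re, I_im] <;> field_simp <;> ring
  · apply Complex.ext <;> simp only [A0, add_re, add_im, mul_re, mul_im, ofReal_re, ofReal_im,
      I_re, I_im] <;> field_simp <;> ring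

theorem opn (hn : 2 ≤ n) (hG : ∀ u, G u = hom (u ^ n)) (hκ : 0 < κ) {A : ℂ → ℂ}
    (hc : ∀ z : ℂ, 0 < z.re → ContinuousAt A z) (hs : ∀ z : ℂ, t0 ≤ z.re → A z = A0 κ z)
    (hf : ∀ z : ℂ, 0 < z.re → G (exp (A z)) = exp (A (n * z))) (z : ℂ) (hz : 0 < z.re) :
    𝓝 (exp (A z)) ≤ map (fun w => exp (A w)) (𝓝 z) := by
  have n0 : (n : ℂ) ≠ 0 := by exact_mod_cast (by omega : n ≠ 0)
  have cG : Continuous G := by
    rw [show G = fun u => hom (u ^ n) from funext hG]; fun_prop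
  refine strip hn t0 (p := fun t => ∀ z : ℂ, t ≤ z.re →
    𝓝 (exp (A z)) ≤ map (fun w => exp (A w)) (𝓝 z)) (fun t b z b1 => ?_)
    (fun t ht ih z b1 => ?_) z.re hz z le_rfl
  · have e : (fun w => exp (A w)) =ᶠ[𝓝 z] fun w => exp (A0 κ w) := by
      filter_upwards [(isOpen_lt continuous_const continuous_re).mem_nhds (b.trans_le b1)] with w hw
      rw [hs w (le_of_lt hw)]
    rw [map_congr e, hs z (b.le.trans b1)]
    exact (isOpenMap_exp.comp (A0_open hκ)).nhds_le z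
  · have z0 := ht.trans_le b1
    have fin : ({ζ : ℂ | ζ ^ n = 1} \ {1}).Finite :=
      ((Polynomial.nthRoots n (1 : ℂ)).finite_toSet.subset fun ζ h =>
        (Polynomial.mem_nthRoots (by omega)).mpr h).subset sdiff_subset
    have c : ContinuousAt (fun p : ℂ × ℂ => p.1 / exp (A p.2)) (exp (A z), z) :=
      continuousAt_fst.div (ContinuousAt.cexp (ContinuousAt.comp (f := Prod.snd) (hc z z0)
        continuousAt_snd)) (exp_ne_zero _)
    have c2 := c.eventually (fin.isClosed.isOpen_compl.mem_nhds (by simp))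
    rw [nhds_prod_eq] at c2
    obtain ⟨U, hU, V, hV, hUV⟩ := eventually_prod_iff.mp c2
    intro W hW
    have h1 : ∀ᶠ w in 𝓝 z, exp (A w) ∈ W ∧ V w ∧ 0 < w.re :=
      Eventually.and hW (hV.and ((isOpen_lt continuous_const continuous_re).mem_nhds z0))
    have h2 : (fun w => (n : ℂ) * w) '' {w | exp (A w) ∈ W ∧ V w ∧ 0 < w.re} ∈ 𝓝 ((n : ℂ) * z) :=
      (Homeomorph.mulLeft₀ (n : ℂ) n0).isOpenMap.image_mem_nhds h1
    have h3 := ih (n * z) (by rw [re_nmul]; exact mul_le_mul_of_nonneg_left b1 (Nat.cast_nonneg n))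
      (image_mem_map h2)
    rw [← hf z z0] at h3
    filter_upwards [cG.continuousAt.preimage_mem_nhds h3, hU] with u h4 h5
    obtain ⟨_, ⟨w, ⟨w1, w2, w3⟩, rfl⟩, e⟩ := h4
    simp only at e
    rw [← hf w w3, hG, hG] at e
    have e2 : (u / exp (A w)) ^ n = 1 := by
      rw [div_pow, ← hom.injective e, div_self (pow_ne_zero _ (exp_ne_zero _))]
    have e3 : u / exp (A w) = 1 := by
      by_contra e4
      exact hUV h5 w2 ⟨e2, e4⟩
    rw [div_eq_one_iff_eq (exp_ne_zero _)] at e3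
    rwa [e3]

theorem ext_std (hκ : 0 < κ) {A : ℂ → ℂ} (hs : ∀ z : ℂ, t0 ≤ z.re → A z = A0 κ z) {t : ℝ}
    (h : t0 ≤ t) :
    (fun w => exp (A w)) '' {z | t ≤ z.re} = {u | Real.exp (2 * π * (κ * t)) ≤ ‖u‖} := by
  have a : (2 * π * κ) ≠ 0 := by positivity
  have b : (2 * π) ≠ 0 := by positivity
  ext u
  constructor
  · rintro ⟨z, hz, rfl⟩
    have hz' : t ≤ z.re := hz
    simp only [mem_ofPred_eq]
    rw [hs z (h.trans hz), A0_norm]
    gcongr
  · intro hu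
    have hu' : Real.exp (2 * π * (κ * t)) ≤ ‖u‖ := hu
    have u0 : 0 < ‖u‖ := (Real.exp_pos _).trans_le hu'
    have r : t ≤ Real.log ‖u‖ / (2 * π * κ) := by
      rw [le_div_iff₀ (by positivity), Real.le_log_iff_exp_le u0]
      rwa [show t * (2 * π * κ) = 2 * π * (κ * t) by ring]
    refine ⟨⟨Real.log ‖u‖ / (2 * π * κ), arg u / (2 * π)⟩, r, ?_⟩
    simp only
    rw [hs _ (h.trans r), ← exp_log (norm_pos_iff.mp u0)]
    congr 1
    apply Complex.ext
    · simp only [A0, log_re, exp_log (norm_pos_iff.mp u0)]; field_simp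
    · simp only [A0, log_im, exp_log (norm_pos_iff.mp u0)]; field_simp

theorem ext_pre (hn : 2 ≤ n) (hG : ∀ u, G u = hom (u ^ n)) {A : ℂ → ℂ}
    (hf : ∀ z : ℂ, 0 < z.re → G (exp (A z)) = exp (A (n * z)))
    (hp : ∀ z : ℂ, 0 < z.re → ∀ m : ℤ, A (z + m / n * I) = A z + 2 * π * (m / n * I))
    {t : ℝ} (ht : 0 < t) : (fun w => exp (A w)) '' {z | t ≤ z.re} =
      G ⁻¹' ((fun w => exp (A w)) '' {z | n * t ≤ z.re}) := by
  have n0 : (n : ℂ) ≠ 0 := by exact_mod_cast (by omega : n ≠ 0)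
  have n1 : (0 : ℝ) < n := by exact_mod_cast (by omega : 0 < n)
  ext u
  constructor
  · rintro ⟨z, hz, rfl⟩
    exact ⟨n * z, by
      rw [mem_ofPred_eq, re_nmul]; exact mul_le_mul_of_nonneg_left hz n1.le,
      (hf z (ht.trans_le hz)).symm⟩
  · rintro ⟨w, hw, e⟩
    have e1 : (n : ℂ) * (w / n) = w := mul_div_cancel₀ _ n0
    have r : t ≤ (w / n).re := by
      have hw' : n * t ≤ w.re := hw
      rw [← e1, re_nmul] at hw'
      exact le_of_mul_le_mul_left hw' n1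
    obtain ⟨m, hm⟩ := pre hn hG hf hp (ht.trans_le r) (u := u) (by rw [e1]; exact e.symm)
    exact ⟨_, by rw [mem_ofPred_eq, re_shift]; exact r, hm.symm⟩

/-- the chart of the model map -/
theorem chart (hn : 2 ≤ n) (hG : ∀ u, G u = hom (u ^ n)) (hκ : 0 < κ) (ht : 0 < t0)
    (hfix : ∀ u : ℂ, Real.exp (2 * π * (κ * t0)) ≤ ‖u‖ → G u = u ^ n)
    (horb : ∀ j, ‖G^[j] 0‖ < Real.exp (2 * π * (κ * t0))) :
    ∃ A : ℂ → ℂ, (∀ z : ℂ, 0 < z.re → ContinuousAt A z) ∧ (∀ z : ℂ, t0 ≤ z.re → A z = A0 κ z) ∧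
      (∀ z : ℂ, 0 < z.re → G (exp (A z)) = exp (A (n * z))) ∧
      (∀ z : ℂ, 0 < z.re → ∀ m : ℤ, A (z + m / n * I) = A z + 2 * π * (m / n * I)) ∧
      (∀ z w : ℂ, 0 < z.re → 0 < w.re → exp (A z) = exp (A w) → ∃ m : ℤ, z = w + m * I) ∧
      (∀ z : ℂ, 0 < z.re → 𝓝 (exp (A z)) ≤ map (fun w => exp (A w)) (𝓝 z)) ∧
      (∀ t, 0 < t → IsClosed ((fun w => exp (A w)) '' {z | t ≤ z.re})) ∧
      ∀ z : ℂ, 0 < z.re → ∀ j, exp (A z) ≠ G^[j] 0 := by
  obtain ⟨A, hc, hs, hf⟩ := exists_A hn hG hκ ht hfix horb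
  have hp := shift hn hG hc hs hf
  have cG : Continuous G := by
    rw [show G = fun u => hom (u ^ n) from funext hG]; fun_prop
  refine ⟨A, hc, hs, hf, hp, fun z w => inj hn hκ hs hf hp, opn hn hG hκ hc hs hf,
    strip hn t0 (fun t b => ?_) fun t b ih => ?_,
    fun z hz => miss hn hκ horb hz hs (fun w hw => hf w (hz.trans_le hw)) z le_rfl⟩
  · rw [ext_std hκ hs b.le]
    exact isClosed_le continuous_const continuous_norm
  · rw [ext_pre hn hG hf hp b]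
    exact ih.preimage cG

end

end RT34
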