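import Pool.Agent.Lib.RT.T34c
import Pool.Agent.Lib.KN55.B_BR
import Pool.Agent.Lib.KN55.B_SHORT
import Pool.Agent.Lib.KN55.B_SLIT
import Pool.Agent.Lib.KR73.B_EXT

/-! The global chart as an abstract chart, its slits, and slits of abstract charts. -/

set_option autoImplicit false

open Filter Topology Set Metric Complex Bornology N62a1eb23
open scoped Real

namespace RT34

open Pool.Agent.Lib.MP_c35c17_an KN

section glob

variable {n : ℕ} {c : ℂ} {Φ : ℂ → ℂ}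

theorem g_rot (hn : 2 ≤ n) (hc : c ∈ multibrotSet n) (h : L.Bot n c 1 Φ) {z : ℂ} (hz : 0 < z.re) :
    Bc Φ (z + I / n) = exp (2 * π * I / n) * Bc Φ z := by
  have h1 := XBR.rot_chart hn hc h hz z.im 1
  rw [pow_one, Nat.cast_one] at h1
  refine Eq.trans (congrArg _ (Complex.ext ?_ ?_)) h1
  · simp [div_re]
  · rw [add_im, ← ofReal_natCast, div_ofReal_im, I_im]

theorem g_asym (h : L.Bot n c 1 Φ) : Tendsto
    (fun z => Bc Φ z * exp (-((2 * π : ℝ) * z.re + 2 * π * I * z.im))) (comap re atTop) (𝓝 1) := by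
  have h1 : Tendsto (fun z : ℂ => exp (2 * π * z)) (comap re atTop) (cobounded ℂ) := by
    rw [← tendsto_norm_atTop_iff_cobounded]
    simp only [norm_chart]
    exact Real.tendsto_exp_atTop.comp (tendsto_comap.const_mul_atTop Real.two_pi_pos)
  refine (h.norm.comp h1).congr fun z => ?_
  rw [Function.comp, Bc, exp_neg, div_eq_mul_inv]
  congr 3
  conv_lhs => rw [← re_add_im z]
  push_cast
  ring

theorem g_map (hn : 2 ≤ n) (h : L.Cj n c Φ) {z : ℂ} (hz : 0 < z.re) :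
    F n c (Bc Φ z) = Bc Φ (n * z) := by
  simpa using Bc_iter hn h hz 1

theorem g_inj (h : L.Cj n c Φ) {z w : ℂ} (hz : 0 < z.re) (hw : 0 < w.re) (e : Bc Φ z = Bc Φ w) :
    ∃ m : ℤ, z = w + m * I := by
  obtain ⟨a, m, b⟩ := Bc_inj h hz hw e
  exact ⟨m, Complex.ext (by simpa using a) (by simpa using b)⟩

theorem g_per (z : ℂ) (m : ℤ) : Bc Φ (z + m * I) = Bc Φ z := by
  refine Eq.trans (congrArg _ (Complex.ext ?_ ?_)) (Bc_add_int (t := z.re) (x := z.im) m) <;> simp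

theorem g_open (h : L.Cj n c Φ) {z : ℂ} (hz : 0 < z.re) : 𝓝 (Bc Φ z) ≤ map (Bc Φ) (𝓝 z) := by
  have o : IsOpen {ζ : ℂ | 0 < ζ.re ∧ z.im - 1 / 2 < ζ.im ∧ ζ.im < z.im - 1 / 2 + 1} :=
    (isOpen_lt continuous_const continuous_re).inter
      ((isOpen_lt continuous_const continuous_im).inter (isOpen_lt continuous_im continuous_const))
  intro V hV
  obtain ⟨U, u1, u2, u3⟩ := _root_.mem_nhds_iff.mp (inter_mem hV (o.mem_nhds
    ⟨hz, by linarith, by linarith⟩))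
  refine mem_of_superset ((Q.isOpen_image_of_injOn o ((Bc_diff h).mono fun _ a => a.1)
    (Bc_injOn h fun _ a => a) U (fun _ a => (u1 a).2) u2).mem_nhds ⟨z, u3, rfl⟩) ?_
  rintro _ ⟨w, a, rfl⟩
  exact (u1 a).1

theorem g_miss (hn : 2 ≤ n) (hc : c ∈ multibrotSet n) (h : L.Bot n c 1 Φ) {z : ℂ} (hz : 0 < z.re)
    (j : ℕ) : Bc Φ z ≠ (F n c)^[j] 0 := h.ne_orbit hn hc le_rfl (chart_gt hz) j

theorem g_closed (hn : 2 ≤ n) (hc : c ∈ multibrotSet n) (h : L.Bot n c 1 Φ) {t : ℝ} (ht : 0 < t) :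
    IsClosed (Bc Φ '' {z | t ≤ z.re}) := (KR73.st_EXT hn c hc Φ h).1 t ht

theorem opn_of_ap {θ : ℝ} (h : ∀ k, 0 < k → ∃ j, nu n θ (j + k) ≠ nu n θ j) (i : ℕ) :
    ¬ Cg ((n : ℝ) ^ (i + 1) * θ) θ := fun e => by
  obtain ⟨j, hj⟩ := h (i + 1) (Nat.succ_pos i)
  exact hj (by rw [add_comm, ← e.symm.lts_nu, nu])

theorem nu_near {θ : ℝ} (h : ∀ i, ¬ Cg ((n : ℝ) ^ (i + 1) * θ) θ) (L : ℕ) :
    ∀ᶠ ϑ in 𝓝 θ, ∀ j ∈ Iic L, nu n ϑ j = nu n θ j := by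
  refine (eventually_all_finite (finite_Iic L)).mpr fun j _ => ?_
  have h1 : (⌊n * ((n : ℝ) ^ j * θ) - θ⌋ : ℝ) < n * ((n : ℝ) ^ j * θ) - θ :=
    (Int.floor_le _).lt_of_ne fun e => h j
      ⟨⌊n * ((n : ℝ) ^ j * θ) - θ⌋, by rw [e, pow_succ']; ring⟩
  have h2 : ContinuousAt (fun ϑ : ℝ => n * ((n : ℝ) ^ j * ϑ) - ϑ) θ := by fun_prop
  filter_upwards [h2 (Ioo_mem_nhds h1 (Int.lt_floor_add_one _))] with ϑ h3
  rw [nu, nu, lts, lts, lt, lt, Int.floor_eq_iff.mpr ⟨h3.1.le, h3.2⟩]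

/-- raw slit models of the polynomial -/
theorem g_raw (hn : 2 ≤ n) (hc : c ∈ multibrotSet n) (h : L.Bot n c 1 Φ)
    (hi : Function.Injective fun j => (F n c)^[j] 0) {θ : ℝ} (hP : Peak c Φ θ)
    (ap : ∀ k, 0 < k → ∃ j, nu n θ (j + k) ≠ nu n θ j) (L : ℕ) {e : ℝ} (he : 0 < e) :
    ∃ (D : Set ℂ) (g ϑ : ℝ), IsCompact D ∧ IsPreconnected D ∧ Zp D ∧ c ∈ D ∧ 0 < g ∧ g < e ∧
      Bc Φ ⟨g, ϑ⟩ ∈ D ∧ (∀ ζ : ℂ, 0 < ζ.re → Bc Φ ζ ∈ D → ζ.re ≤ g) ∧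
      (∀ j ≤ L, nu n ϑ j = nu n θ j) ∧ ∀ l ≤ L, ∀ l' ≤ L, l ≠ l' → Disjoint
        ((F n c)^[l] '' D ∪ (fun t : ℝ => Bc Φ ⟨t, (n : ℝ) ^ l * ϑ⟩) '' Ici ((n : ℝ) ^ l * g))
        ((F n c)^[l'] '' D ∪ (fun t : ℝ => Bc Φ ⟨t, (n : ℝ) ^ l' * ϑ⟩) '' Ici ((n : ℝ) ^ l' * g)) := by
  obtain ⟨δ, hδ, hnear⟩ := Metric.eventually_nhds_iff.mp (nu_near (opn_of_ap ap) L)
  obtain ⟨ε, g, ϑ, hε, hg, hge, hϑ, hb, -, hp, hdis⟩ :=
    st_SLIT hn (st_SHORT hn) c hc Φ h hi θ hP L (min δ e) (lt_min hδ he)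
  exact ⟨closedBall c ε, g, ϑ, isCompact_closedBall _ _, (convex_closedBall _ _).isPreconnected,
    zp_closedBall c hε, mem_closedBall_self hε.le, hg, hge.trans_le (min_le_right _ _), hb,
    fun ζ a b => by simpa using hp 0 ζ a (by simpa using b),
    hnear (y := ϑ) (hϑ.trans_le (min_le_left _ _)), hdis⟩

end glob

section slits

variable {n : ℕ} {hom : ℂ ≃ₜ ℂ} {G B : ℂ → ℂ} {D : Set ℂ} {g ϑ : ℝ}

theorem mk_mul (n j : ℕ) (t x : ℝ) :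
    (n : ℂ) ^ j * (⟨t, x⟩ : ℂ) = ⟨(n : ℝ) ^ j * t, (n : ℝ) ^ j * x⟩ := by
  rw [← ofReal_natCast, ← ofReal_pow]
  exact Complex.ext (re_ofReal_mul _ _) (im_ofReal_mul _ _)

theorem b_iter (hn : 2 ≤ n) (hf : ∀ z : ℂ, 0 < z.re → G (B z) = B (n * z)) {t : ℝ} (ht : 0 < t)
    (x : ℝ) (j : ℕ) : G^[j] (B ⟨t, x⟩) = B ⟨(n : ℝ) ^ j * t, (n : ℝ) ^ j * x⟩ := by
  rw [iter hn ht (fun z hz => hf z (ht.trans_le hz)) j _ le_rfl, mk_mul]

theorem b_rot (hr : ∀ z : ℂ, 0 < z.re → B (z + I / n) = exp (2 * π * I / n) * B z) {z : ℂ}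
    (hz : 0 < z.re) (j : ℕ) : B (z + j * (I / n)) = exp (2 * π * I / n) ^ j * B z := by
  induction j with
  | zero => simp
  | succ j ih =>
    rw [Nat.cast_succ, add_mul, one_mul, ← add_assoc, hr _ (by simpa [div_re] using hz), ih,
      pow_succ']
    ring

/-- one step back in the chart -/
theorem b_pre1 (hn : 2 ≤ n) (hG : ∀ u, G u = hom (u ^ n))
    (hf : ∀ z : ℂ, 0 < z.re → G (B z) = B (n * z))
    (hr : ∀ z : ℂ, 0 < z.re → B (z + I / n) = exp (2 * π * I / n) * B z) {u ζ : ℂ}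
    (hζ : 0 < ζ.re) (e : G u = B ζ) : ∃ ζ' : ℂ, ζ.re = n * ζ'.re ∧ u = B ζ' := by
  have n0 : (n : ℂ) ≠ 0 := by exact_mod_cast (by omega : n ≠ 0)
  have : NeZero n := ⟨by omega⟩
  have e1 : (n : ℂ) * (ζ / n) = ζ := mul_div_cancel₀ _ n0
  have r : ζ.re = n * (ζ / n).re := by rw [← re_nmul, e1]
  have p : 0 < (ζ / n).re := (mul_pos_iff_of_pos_left (npos hn)).mp (r ▸ hζ)
  rw [← e1, ← hf _ p, hG, hG] at e
  have e2 := hom.injective e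
  by_cases b : B (ζ / n) = 0
  · rw [b, zero_pow (by omega), pow_eq_zero_iff (by omega)] at e2
    exact ⟨_, r, e2.trans b.symm⟩
  · obtain ⟨i, -, hi⟩ := (isPrimitiveRoot_exp n (by omega)).eq_pow_of_pow_eq_one
      (ξ := u / B (ζ / n)) (by rw [div_pow, e2, div_self (pow_ne_zero _ b)])
    refine ⟨ζ / n + i * (I / n), by rw [r]; simp [div_re], ?_⟩
    rw [b_rot hr p, hi, div_mul_cancel₀ _ b]

theorem b_pre (hn : 2 ≤ n) (hG : ∀ u, G u = hom (u ^ n))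
    (hf : ∀ z : ℂ, 0 < z.re → G (B z) = B (n * z))
    (hr : ∀ z : ℂ, 0 < z.re → B (z + I / n) = exp (2 * π * I / n) * B z) (j : ℕ) {u ζ : ℂ}
    (hζ : 0 < ζ.re) (e : G^[j] u = B ζ) : ∃ ζ' : ℂ, ζ.re = (n : ℝ) ^ j * ζ'.re ∧ u = B ζ' := by
  induction j generalizing ζ with
  | zero => exact ⟨ζ, by simp, e⟩
  | succ j ih =>
    rw [Function.iterate_succ_apply'] at e
    obtain ⟨ζ1, a1, a2⟩ := b_pre1 hn hG hf hr hζ e
    obtain ⟨ζ2, b1, b2⟩ := ih ((mul_pos_iff_of_pos_left (npos hn)).mp (a1 ▸ hζ)) a2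
    exact ⟨ζ2, by rw [a1, b1, pow_succ', mul_assoc], b2⟩

theorem ext_iter (hn : 2 ≤ n) (hG : ∀ u, G u = hom (u ^ n))
    (hf : ∀ z : ℂ, 0 < z.re → G (B z) = B (n * z))
    (hr : ∀ z : ℂ, 0 < z.re → B (z + I / n) = exp (2 * π * I / n) * B z) {τ : ℝ} (hτ : 0 < τ)
    (j : ℕ) (u : ℂ) :
    G^[j] u ∈ B '' {ζ | (n : ℝ) ^ j * τ ≤ ζ.re} ↔ u ∈ B '' {ζ | τ ≤ ζ.re} := by
  have p := npow_pos hn j
  constructor
  · rintro ⟨ζ, a, e⟩
    obtain ⟨ζ', b, rfl⟩ := b_pre hn hG hf hr j ((mul_pos p hτ).trans_le a) e.symm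
    exact ⟨ζ', le_of_mul_le_mul_left (a.trans_eq b) p, rfl⟩
  · rintro ⟨ζ, a, rfl⟩
    exact ⟨_, mul_le_mul_of_nonneg_left a p.le, (b_iter hn hf (hτ.trans_le a) ζ.im j).symm⟩

/-- the slit at time `l` -/
def sl (n : ℕ) (G B : ℂ → ℂ) (D : Set ℂ) (g ϑ : ℝ) (l : ℕ) : Set ℂ :=
  G^[l] '' D ∪ (fun t : ℝ => B ⟨t, (n : ℝ) ^ l * ϑ⟩) '' Ici ((n : ℝ) ^ l * g)

theorem sl_map (hn : 2 ≤ n) (hf : ∀ z : ℂ, 0 < z.re → G (B z) = B (n * z)) (hg : 0 < g) (l : ℕ) :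
    MapsTo G (sl n G B D g ϑ l) (sl n G B D g ϑ (l + 1)) := by
  rintro _ (⟨z, hz, rfl⟩ | ⟨t, ht, rfl⟩)
  · exact Or.inl ⟨z, hz, Function.iterate_succ_apply' _ _ _⟩
  · have h0 : 0 < t := (mul_pos (npow_pos hn l) hg).trans_le ht
    refine Or.inr ⟨n * t, ?_, ?_⟩
    · rw [mem_Ici, pow_succ', mul_assoc]
      exact mul_le_mul_of_nonneg_left ht (npos hn).le
    · have h1 := b_iter hn hf h0 ((n : ℝ) ^ l * ϑ) 1
      rw [Function.iterate_one, pow_one, ← mul_assoc, ← pow_succ'] at h1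
      exact h1.symm

theorem sl_top (hn : 2 ≤ n) (hG : ∀ u, G u = hom (u ^ n))
    (hf : ∀ z : ℂ, 0 < z.re → G (B z) = B (n * z))
    (hr : ∀ z : ℂ, 0 < z.re → B (z + I / n) = exp (2 * π * I / n) * B z)
    (top : ∀ ζ : ℂ, 0 < ζ.re → B ζ ∈ D → ζ.re ≤ g) (l : ℕ) (ζ : ℂ) (hζ : 0 < ζ.re)
    (h : B ζ ∈ G^[l] '' D) : ζ.re ≤ (n : ℝ) ^ l * g := by
  obtain ⟨y, hy, e⟩ := h
  obtain ⟨ζ', e1, rfl⟩ := b_pre hn hG hf hr l hζ e
  rw [e1] at hζ ⊢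
  exact mul_le_mul_of_nonneg_left
    (top ζ' ((mul_pos_iff_of_pos_left (npow_pos hn l)).mp hζ) hy) (npow_pos hn l).le

theorem b_inj (hi : ∀ z w : ℂ, 0 < z.re → 0 < w.re → B z = B w → ∃ m : ℤ, z = w + m * I)
    {t x t' x' : ℝ} (ht : 0 < t) (ht' : 0 < t') (e : B ⟨t, x⟩ = B ⟨t', x'⟩) : t = t' ∧ Cg x x' := by
  obtain ⟨m, hm⟩ := hi _ _ ht ht' e
  exact ⟨by simpa using congrArg re hm, m, by simpa using congrArg im hm⟩

theorem sl_off (hn : 2 ≤ n)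
    (hi : ∀ z w : ℂ, 0 < z.re → 0 < w.re → B z = B w → ∃ m : ℤ, z = w + m * I) (hg : 0 < g) {l : ℕ}
    (hp : ∀ ζ : ℂ, 0 < ζ.re → B ζ ∈ G^[l] '' D → ζ.re ≤ (n : ℝ) ^ l * g) {t x : ℝ}
    (ht : (n : ℝ) ^ l * g < t) (h : B ⟨t, x⟩ ∈ sl n G B D g ϑ l) : Cg x ((n : ℝ) ^ l * ϑ) := by
  have h0 := mul_pos (npow_pos hn l) hg
  rcases h with h1 | ⟨s, hs, h1⟩
  · exact absurd (hp ⟨t, x⟩ (h0.trans ht) h1) (not_le.mpr ht)
  · exact (b_inj hi (h0.trans ht) (h0.trans_le hs) h1.symm).2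

theorem ray_cont (hc : ContinuousOn B {z | 0 < z.re}) {a : ℝ} (ha : 0 < a) (x : ℝ) :
    ContinuousOn (fun t : ℝ => B ⟨t, x⟩) (Ici a) := by
  have h1 : Continuous fun t : ℝ => (⟨t, x⟩ : ℂ) := by
    simp only [mk_eq_add_mul_I]
    fun_prop
  exact hc.comp h1.continuousOn fun t ht => ha.trans_le ht

theorem ray_tendsto {κ : ℝ} (hκ : 0 < κ)
    (ha : Tendsto (fun z => B z * exp (-(κ * z.re + 2 * π * I * z.im))) (comap re atTop) (𝓝 1))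
    (x : ℝ) : Tendsto (fun t : ℝ => ‖B ⟨t, x⟩‖) atTop atTop := by
  have h0 : Tendsto (fun t : ℝ => (⟨t, x⟩ : ℂ)) atTop (comap re atTop) :=
    tendsto_comap_iff.mpr tendsto_id
  have h1 : Tendsto (fun t : ℝ => Real.exp (κ * t)) atTop atTop :=
    Real.tendsto_exp_atTop.comp (tendsto_id.const_mul_atTop hκ)
  refine (h1.atTop_mul_pos one_pos (by simpa only [norm_one] using (ha.comp h0).norm)).congr
    fun t => ?_
  rw [Function.comp, norm_mul, norm_exp, mul_left_comm, ← Real.exp_add]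
  simp

theorem sl_conn (hn : 2 ≤ n) (cG : Continuous G) (hc : ContinuousOn B {z | 0 < z.re})
    (hf : ∀ z : ℂ, 0 < z.re → G (B z) = B (n * z)) (hD : IsPreconnected D) (hg : 0 < g)
    (hb : B ⟨g, ϑ⟩ ∈ D) (l : ℕ) : IsPreconnected (sl n G B D g ϑ l) :=
  conn_ray (hD.image _ (cG.iterate l).continuousOn)
    (ray_cont hc (mul_pos (npow_pos hn l) hg) _) ⟨_, hb, b_iter hn hf hg ϑ l⟩

theorem sl_lg (hn : 2 ≤ n) (cG : Continuous G) (hc : ContinuousOn B {z | 0 < z.re})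
    (hi : ∀ z w : ℂ, 0 < z.re → 0 < w.re → B z = B w → ∃ m : ℤ, z = w + m * I)
    (ht : ∀ x : ℝ, Tendsto (fun t : ℝ => ‖B ⟨t, x⟩‖) atTop atTop) (hD : IsCompact D) (hZ : Zp D)
    (hg : 0 < g) {l : ℕ} (hj : InjOn G^[l] D)
    (hp : ∀ ζ : ℂ, 0 < ζ.re → B ζ ∈ G^[l] '' D → ζ.re ≤ (n : ℝ) ^ l * g) :
    IsClosed (sl n G B D g ϑ l) ∧ ¬ IsBounded (sl n G B D g ϑ l) ∧ Lg (sl n G B D g ϑ l) := by
  have h0 := mul_pos (npow_pos hn l) hg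
  exact lg_ray (hD.image (cG.iterate l)) (zp_image hD (cG.iterate l).continuousOn hj hZ)
    (ray_cont hc h0 _) (fun s hs t ht e => (b_inj hi (h0.trans_le hs) (h0.trans_le ht) e).1) (ht _)
    fun t a b => absurd (hp ⟨t, _⟩ (h0.trans a) b) (not_le.mpr a)

/-- iterates are injective when every image lies in a set on which the map has a left inverse -/
theorem inj_iter {L : ℕ} (h : ∀ l < L, ∃ r : ℂ → ℂ, ∀ z ∈ G^[l] '' D, r (G z) = z) :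
    InjOn G^[L] D := by
  induction L with
  | zero => exact injOn_id D
  | succ L ih =>
    intro x hx y hy e
    obtain ⟨r, hr⟩ := h L (Nat.lt_succ_self L)
    rw [Function.iterate_succ_apply', Function.iterate_succ_apply'] at e
    refine ih (fun l hl => h l (hl.trans (Nat.lt_succ_self L))) hx hy ?_
    rw [← hr _ ⟨x, hx, rfl⟩, e, hr _ ⟨y, hy, rfl⟩]

end slits

end RT34
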