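import Pool.Agent.Lib.MP_c35c17_an.Cor

/-! Push-forward of quadratic differentials under a unicritical map. -/

set_option autoImplicit false

open Filter Topology Set Metric MeasureTheory Complex
open scoped ENNReal

namespace RT43

open Pool.Agent.Lib.MP_c35c17_an

theorem root_eq {n : ℕ} (hn : n ≠ 0) {ω : ℂ} (hω : IsPrimitiveRoot ω n) {u v : ℂ}
    (h : u ^ n = v ^ n) : ∃ t : ℕ, u = ω ^ t * v := by
  rcases eq_or_ne v 0 with rfl | hv
  · exact ⟨0, by rw [zero_pow hn] at h; simpa using eq_zero_of_pow_eq_zero h⟩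
  have : NeZero n := ⟨hn⟩
  obtain ⟨t, -, ht⟩ := hω.eq_pow_of_pow_eq_one (ξ := u / v)
    (by rw [div_pow, h, div_self (pow_ne_zero _ hv)])
  exact ⟨t, by rw [ht]; field_simp⟩

theorem descent {n : ℕ} (hn : n ≠ 0) {ω : ℂ} (hω : IsPrimitiveRoot ω n) {Ω : Set ℂ}
    (hΩ : IsOpen Ω) {f : ℂ → ℂ} (hf : DifferentiableOn ℂ f {w | w ^ n ∈ Ω})
    (hi : ∀ w, f (ω * w) = f w) :
    ∃ Ψ : ℂ → ℂ, DifferentiableOn ℂ Ψ Ω ∧ ∀ w, Ψ (w ^ n) = f w := by
  have hU : IsOpen {w : ℂ | w ^ n ∈ Ω} := hΩ.preimage (continuous_pow n)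
  have hit : ∀ (t : ℕ) w, f (ω ^ t * w) = f w := fun t => by
    induction t with
    | zero => simp
    | succ t ih => intro w; rw [pow_succ', mul_assoc, hi, ih]
  have hval : ∀ w, f ((w ^ n) ^ (n⁻¹ : ℂ)) = f w := fun w => by
    obtain ⟨t, ht⟩ := root_eq hn hω (cpow_nat_inv_pow (w ^ n) hn)
    rw [ht, hit]
  have hne : ∀ y ∈ Ω, y ≠ 0 → DifferentiableAt ℂ (fun y : ℂ => f (y ^ (n⁻¹ : ℂ))) y := by
    intro y hy h0
    set w := y ^ (n⁻¹ : ℂ) with hw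
    have hwn : w ^ n = y := cpow_nat_inv_pow y hn
    have hr : DifferentiableAt ℂ (fun x : ℂ => w * (x / y) ^ (n⁻¹ : ℂ)) y :=
      ((differentiableAt_id.div_const y).cpow_const (by simp [h0])).const_mul w
    have hry : w * (y / y) ^ (n⁻¹ : ℂ) = w := by simp [h0]
    have hfw : DifferentiableAt ℂ f (w * (y / y) ^ (n⁻¹ : ℂ)) := by
      rw [hry]
      exact hf.differentiableAt (hU.mem_nhds (show w ^ n ∈ Ω by rwa [hwn]))
    have := hfw.comp y hr
    refine this.congr_of_eventuallyEq (Eventually.of_forall fun x => ?_)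
    have e : (w * (x / y) ^ (n⁻¹ : ℂ)) ^ n = x := by
      rw [mul_pow, hwn, cpow_nat_inv_pow _ hn]; field_simp
    simp only [Function.comp_apply]
    rw [← hval (w * (x / y) ^ (n⁻¹ : ℂ)), e]
  refine ⟨fun y => f (y ^ (n⁻¹ : ℂ)), fun y hy => ?_, hval⟩
  rcases eq_or_ne y 0 with rfl | h0
  · refine (analyticAt_of_differentiable_on_punctured_nhds_of_continuousAt ?_
      ?_).differentiableAt.differentiableWithinAt
    · filter_upwards [mem_nhdsWithin_of_mem_nhds (hΩ.mem_nhds hy), self_mem_nhdsWithin]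
        with x hx hx0 using hne x hx hx0
    · have hn' : (n⁻¹ : ℂ) ≠ 0 := inv_ne_zero (by exact_mod_cast hn)
      have hc : ContinuousAt (fun y : ℂ => y ^ (n⁻¹ : ℂ)) 0 :=
        (continuousAt_cpow_zero_of_re_pos (z := (n⁻¹ : ℂ)) (by
          have : (n⁻¹ : ℂ) = ((n⁻¹ : ℝ) : ℂ) := by simp
          rw [this, ofReal_re]
          exact inv_pos.mpr (by exact_mod_cast Nat.pos_of_ne_zero hn))).comp_of_eq
          (f := fun y : ℂ => (y, (n⁻¹ : ℂ))) (by fun_prop) rfl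
      refine ContinuousAt.comp_of_eq (g := f) (y := 0) ?_ hc (by simp [hn'])
      exact (hf.differentiableAt (hU.mem_nhds
        (show (0 : ℂ) ^ n ∈ Ω by rwa [zero_pow hn]))).continuousAt
  · exact (hne y hy h0).differentiableWithinAt

/-- a function with a double pole allowed, vanishing numerator -/
theorem split_zero {Ω : Set ℂ} (hΩ : IsOpen Ω) (h0 : (0 : ℂ) ∈ Ω) {Ψ : ℂ → ℂ}
    (hΨ : DifferentiableOn ℂ Ψ Ω) (hz : Ψ 0 = 0) : ∃ (β : ℂ) (ψ : ℂ → ℂ),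
      DifferentiableOn ℂ ψ Ω ∧ ∀ y, y ≠ 0 → Ψ y = y ^ 2 * (β * y⁻¹ + ψ y) := by
  have h1 := (differentiableOn_dslope (hΩ.mem_nhds h0)).mpr hΨ
  refine ⟨dslope Ψ 0 0, dslope (dslope Ψ 0) 0,
    (differentiableOn_dslope (hΩ.mem_nhds h0)).mpr h1, fun y hy => ?_⟩
  rw [dslope_of_ne _ hy, slope_def_field, dslope_of_ne _ hy, slope_def_field, hz]
  field_simp
  ring

theorem pole {V : Set ℂ} (hV : IsOpen V) {h : ℂ → ℂ} (hh : DifferentiableOn ℂ h V)
    (hi : InjOn h V) {x₀ : ℂ} (hx : x₀ ∈ V) (hd : deriv h x₀ ≠ 0) : ∃ e : ℂ → ℂ,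
      DifferentiableOn ℂ e V ∧ ∀ x, x ≠ x₀ → x ∈ V →
        deriv h x ^ 2 * (h x - h x₀)⁻¹ = deriv h x₀ * (x - x₀)⁻¹ + e x := by
  have h1 := (differentiableOn_dslope (hV.mem_nhds hx)).mpr hh
  have h2 : ∀ x ∈ V, dslope h x₀ x ≠ 0 := fun x hxV => by
    rcases eq_or_ne x x₀ with rfl | hne
    · rwa [dslope_same]
    · rw [dslope_of_ne _ hne, slope_def_field]
      exact div_ne_zero (sub_ne_zero.mpr fun e => hne (hi hxV hx e)) (sub_ne_zero.mpr hne)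
  have h3 : DifferentiableOn ℂ (fun x => deriv h x ^ 2 / dslope h x₀ x) V :=
    ((hh.deriv hV).pow 2).div h1 h2
  refine ⟨dslope (fun x => deriv h x ^ 2 / dslope h x₀ x) x₀,
    (differentiableOn_dslope (hV.mem_nhds hx)).mpr h3, fun x hne hxV => ?_⟩
  have h4 : h x - h x₀ ≠ 0 := sub_ne_zero.mpr fun e => hne (hi hxV hx e)
  have h5 : x - x₀ ≠ 0 := sub_ne_zero.mpr hne
  rw [dslope_of_ne _ hne, slope_def_field, dslope_same, dslope_of_ne _ hne, slope_def_field]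
  field_simp
  ring

theorem lint_image {s V : Set ℂ} (hs : MeasurableSet s) (hV : IsOpen V) (hsV : s ⊆ V) {f : ℂ → ℂ}
    (hf : DifferentiableOn ℂ f V) (hi : InjOn f s) (g : ℂ → ℝ≥0∞) :
    ∫⁻ x in f '' s, g x = ∫⁻ x in s, ‖deriv f x ^ 2‖ₑ * g (f x) := by
  rw [lintegral_image_eq_lintegral_abs_det_fderiv_mul volume hs
    (fun x hx => ((hf.differentiableAt (hV.mem_nhds
      (hsV hx))).hasDerivAt.hasFDerivAt.restrictScalars ℝ).hasFDerivWithinAt) hi]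
  refine lintegral_congr fun x => ?_
  congr 1
  rw [← ofReal_norm]
  congr 1
  simp [ContinuousLinearMap.det, LinearMap.det_restrictScalars, Algebra.norm_complex_eq,
    Complex.normSq_eq_norm_sq]

theorem transfer' {n : ℕ} (hn : 2 ≤ n) {ω : ℂ} (hω : IsPrimitiveRoot ω n) {H P : ℂ → ℂ}
    {W : Set ℂ} (hW : MeasurableSet W)
    (hH : Measurable (indicator {w : ℂ | w ^ n ∈ W} H))
    (h : ∀ᵐ w : ℂ, w ^ n ∈ W → ((n : ℂ) * w ^ (n - 1)) ^ 2 * P (w ^ n) =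
      ∑ t ∈ Finset.range n, (ω ^ t) ^ 2 * H (ω ^ t * w)) :
    ∫⁻ y in W, ‖P y‖ₑ ≤ ∫⁻ w in {w : ℂ | w ^ n ∈ W}, ‖H w‖ₑ := by
  have hpow : ∀ t w, (ω ^ t * w) ^ n = w ^ n := fun t w => by
    rw [mul_pow, ← pow_mul, mul_comm t n, pow_mul, hω.pow_eq_one, one_pow, one_mul]
  have hU : MeasurableSet {w : ℂ | w ^ n ∈ W} := (continuous_pow n).measurable hW
  have := transfer hn 0 hω hH (G := indicator W P) (V := W) (by
    filter_upwards [h] with w hw
    simp only [F, add_zero]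
    by_cases hm : w ^ n ∈ W
    · rw [indicator_of_mem hm, hw hm]
      refine Finset.sum_congr rfl fun t _ => ?_
      rw [indicator_of_mem (s := {w : ℂ | w ^ n ∈ W}) (show (ω ^ t * w) ^ n ∈ W by rwa [hpow])]
    · rw [indicator_of_notMem hm, mul_zero]
      refine (Finset.sum_eq_zero fun t _ => ?_).symm
      rw [indicator_of_notMem (s := {w : ℂ | w ^ n ∈ W})
        (show ¬ (ω ^ t * w) ^ n ∈ W by rwa [hpow]), mul_zero]) hW
  have e : F n 0 ⁻¹' W = {w : ℂ | w ^ n ∈ W} := by ext w; simp [F]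
  rw [e] at this
  refine le_trans (le_of_eq ?_) (this.trans (le_of_eq ?_))
  · exact setLIntegral_congr_fun hW fun y hy => by rw [indicator_of_mem hy]
  · exact setLIntegral_congr_fun hU fun y hy => by rw [indicator_of_mem hy]

/-- the mass of the Cauchy kernel on the unit disc -/
noncomputable def I1 : ℝ := (∫⁻ z in ball (0 : ℂ) 1, ‖z⁻¹‖ₑ).toReal

theorem I1_nonneg : 0 ≤ I1 := ENNReal.toReal_nonneg

theorem inv_mass {ρ : ℝ} (hρ : 0 < ρ) {a : ℂ} (ha : ‖a‖ ≤ ρ) {V : Set ℂ} (hV : V ⊆ ball 0 ρ)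
    (β : ℂ) : ∫⁻ z in V, ‖β * (z - a)⁻¹‖ₑ ≤ ENNReal.ofReal (‖β‖ * (3 * ρ * I1)) := by
  simp only [enorm_mul]
  rw [lintegral_const_mul _ (by fun_prop), ENNReal.ofReal_mul (norm_nonneg _), ofReal_norm]
  refine mul_le_mul_right ((inv_int_le ha (hV.trans (ball_subset_ball (by linarith)))).trans
    (le_of_eq ?_)) _
  have h3 : (0 : ℝ) < 3 * ρ := by positivity
  have hne : ((3 * ρ : ℝ) : ℂ) ≠ 0 := by exact_mod_cast h3.ne'
  have e : ball (0 : ℂ) (3 * ρ) = (fun z => ((3 * ρ : ℝ) : ℂ) * z) '' ball 0 1 := by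
    ext z
    simp only [mem_ball_zero_iff, mem_image]
    constructor
    · intro hz
      refine ⟨z / ((3 * ρ : ℝ) : ℂ), ?_, by field_simp⟩
      rwa [norm_div, norm_real, Real.norm_of_nonneg h3.le, div_lt_one h3]
    · rintro ⟨y, hy, rfl⟩
      rw [norm_mul, norm_real, Real.norm_of_nonneg h3.le]
      exact mul_lt_of_lt_one_right h3 hy
  rw [e, lintegral_image_holo measurableSet_ball (f' := fun _ => ((3 * ρ : ℝ) : ℂ))
    (fun z => by simpa using (hasDerivAt_id z).const_mul ((3 * ρ : ℝ) : ℂ))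
    (mul_right_injective₀ hne).injOn, ENNReal.ofReal_mul h3.le, I1,
    ENNReal.ofReal_toReal (inv_int 1).ne, ← lintegral_const_mul _ (by fun_prop)]
  refine lintegral_congr fun z => ?_
  have e2 : ((3 * ρ : ℝ) : ℂ) ^ 2 * (((3 * ρ : ℝ) : ℂ) * z)⁻¹ = ((3 * ρ : ℝ) : ℂ) * z⁻¹ := by
    rw [mul_inv]
    field_simp
  rw [← enorm_mul, e2, enorm_mul, ← ofReal_norm ((3 * ρ : ℝ) : ℂ), norm_real,
    Real.norm_of_nonneg h3.le]

end RT43
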