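import Pool.Agent.Lib.RT.T43a

/-! The push-forward contracts the area norm; pairing with holomorphic functions. -/

set_option autoImplicit false

open Filter Topology Set Metric MeasureTheory Complex
open scoped ENNReal

namespace RT43

open Pool.Agent.Lib.MP_c35c17_an

theorem ae_pow_ne {n : ℕ} (hn : n ≠ 0) (y : ℂ) : ∀ᵐ w : ℂ, w ^ n ≠ y := by
  refine compl_mem_ae_iff.mpr (Set.Finite.measure_zero (s := {w : ℂ | w ^ n = y}) ?_ _)
  exact (Polynomial.nthRoots n y).toFinset.finite_toSet.subset fun w hw => by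
    simpa [Polynomial.mem_nthRoots (Nat.pos_of_ne_zero hn)] using hw

theorem push {n : ℕ} (hn : 2 ≤ n) (hom : ℂ ≃ₜ ℂ) {R : ℝ}
    (dh : DifferentiableOn ℂ hom.symm (ball 0 R))
    (dg : ∀ y, ‖hom y‖ < R → DifferentiableAt ℂ hom y) {c a : ℕ → ℂ} (c0 : c 0 = hom 0)
    (cs : ∀ k, c (k + 1) = hom (c k ^ n)) (cR : ∀ k, ‖c k‖ < R) (N : ℕ)
    (as : ∀ k ≤ N, a (k + 1) * deriv (fun u => hom (u ^ n)) (c k) = a k)
    (an : ∀ k ≤ N, a k ≠ 0) {φ : ℂ → ℂ}
    (hφ : DifferentiableOn ℂ φ {u | ‖hom (u ^ n)‖ < R}) :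
    ∃ (t : ℂ) (φ' : ℂ → ℂ), DifferentiableOn ℂ φ' (ball 0 R) ∧ ∀ W : Set ℂ, MeasurableSet W →
      W ⊆ ball 0 R → ∫⁻ x in W, ‖∑ k ∈ Finset.range (N + 1), a (k + 1) * (x - c (k + 1))⁻¹ +
        t * (x - c 0)⁻¹ + φ' x‖ₑ ≤ ∫⁻ u in {u | hom (u ^ n) ∈ W},
          ‖∑ k ∈ Finset.range (N + 1), a k * (u - c k)⁻¹ + φ u‖ₑ := by
  have hn0 : n ≠ 0 := by omega
  have hnc : (n : ℂ) ≠ 0 := by exact_mod_cast hn0
  have hω := Complex.isPrimitiveRoot_exp n hn0
  set ω := Complex.exp (2 * Real.pi * I / n)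
  have hpow : ∀ t w, (ω ^ t * w) ^ n = w ^ n := fun t w => by
    rw [mul_pow, ← pow_mul, mul_comm t n, pow_mul, hω.pow_eq_one, one_pow, one_mul]
  set h : ℂ → ℂ := ⇑hom.symm with hh
  set Ω : Set ℂ := {y | ‖hom y‖ < R} with hΩ
  have hΩo : IsOpen Ω := isOpen_lt hom.continuous.norm continuous_const
  have hUo : IsOpen {u : ℂ | ‖hom (u ^ n)‖ < R} :=
    isOpen_lt (hom.continuous.comp (continuous_pow n)).norm continuous_const
  have hhx : ∀ x, hom (h x) = x := hom.apply_symm_apply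
  have hhy : ∀ y, h (hom y) = y := hom.symm_apply_apply
  have hmap : MapsTo h (ball 0 R) Ω := fun x hx => by
    simpa [hΩ, hhx] using hx
  have hda : ∀ x, ‖x‖ < R → DifferentiableAt ℂ h x := fun x hx =>
    dh.differentiableAt (isOpen_ball.mem_nhds (mem_ball_zero_iff.mpr hx))
  have hd0 : ∀ x, ‖x‖ < R → deriv h x ≠ 0 := fun x hx e => by
    have h1 := ((dg (h x) (by rwa [hhx])).hasDerivAt.comp x (hda x hx).hasDerivAt).deriv
    have h2 : (hom : ℂ → ℂ) ∘ h = id := funext hhx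
    rw [h2, e, deriv_id, mul_zero] at h1
    exact one_ne_zero h1
  have hchain : ∀ k, deriv h (c (k + 1)) * deriv (fun u => hom (u ^ n)) (c k) =
      n * c k ^ (n - 1) := fun k => by
    have h0 : DifferentiableAt ℂ (fun u => hom (u ^ n)) (c k) :=
      (dg _ (by rw [← cs]; exact cR _)).comp (c k) (differentiableAt_pow n)
    have h1 := ((hda (hom (c k ^ n)) (by rw [← cs]; exact cR _)).hasDerivAt.comp (c k)
      h0.hasDerivAt).deriv
    have h2 : (h ∘ fun u => hom (u ^ n)) = fun u => u ^ n := funext fun u => hhy _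
    rw [h2, deriv_pow_field] at h1
    rw [cs, ← h1]
  have hc0 : ∀ k ≤ N, (n : ℂ) * c k ^ (n - 1) ≠ 0 := fun k hk => by
    rw [← hchain]
    exact mul_ne_zero (hd0 _ (cR _)) fun e => an k hk (by rw [← as k hk, e, mul_zero])
  obtain ⟨Ψ, hΨ, hΨe⟩ := descent hn0 hω hΩo
    (f := fun w => w ^ 2 * ∑ t ∈ Finset.range n, (ω ^ t) ^ 2 * φ (ω ^ t * w))
    ((differentiableOn_id.pow 2).mul (DifferentiableOn.fun_sum fun t _ =>
      (hφ.comp (differentiableOn_id.const_mul (ω ^ t)) fun w hw => by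
        show ‖hom ((ω ^ t * w) ^ n)‖ < R
        rw [hpow]; exact hw).const_mul _)) fun w => by
      have e1 := Finset.sum_range_succ' (fun t => (ω ^ t) ^ 2 * φ (ω ^ t * w)) n
      rw [Finset.sum_range_succ, hω.pow_eq_one, pow_zero, add_left_inj] at e1
      rw [e1, Finset.mul_sum, Finset.mul_sum]
      refine Finset.sum_congr rfl fun t _ => ?_
      rw [← mul_assoc (ω ^ t), ← pow_succ]
      ring
  obtain ⟨β, ψ, hψ, hψe⟩ := split_zero hΩo (show ‖hom 0‖ < R by rw [← c0]; exact cR 0) hΨ (by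
    have := hΨe 0
    rw [zero_pow hn0] at this
    simpa using this)
  choose e he hee using fun k => pole isOpen_ball dh hom.symm.injective.injOn
    (mem_ball_zero_iff.mpr (cR k)) (hd0 _ (cR k))
  set α : ℕ → ℂ := fun k => a k * ((n : ℂ) * c k ^ (n - 1))⁻¹ with hα
  set P : ℂ → ℂ := fun y => ∑ k ∈ Finset.range (N + 1), α k * ((y - c k ^ n)⁻¹ - y⁻¹) +
    ((n : ℂ) ^ 2)⁻¹ * (β * y⁻¹ + ψ y) with hP
  refine ⟨(((n : ℂ) ^ 2)⁻¹ * β - ∑ k ∈ Finset.range (N + 1), α k) * deriv h (c 0),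
    fun x => ∑ k ∈ Finset.range (N + 1), α k * (e (k + 1) x - e 0 x) +
      ((n : ℂ) ^ 2)⁻¹ * (β * e 0 x + deriv h x ^ 2 * ψ (h x)),
    (DifferentiableOn.fun_sum fun k _ => ((he _).sub (he _)).const_mul _).add
      ((((he _).const_mul _).add (((dh.deriv isOpen_ball).pow 2).mul
        (hψ.comp dh hmap))).const_mul _), fun W hW hWR => ?_⟩
  have hWm : MeasurableSet (h '' W) := hom.symm.measurableEmbedding.measurableSet_image.mpr hW
  have eW : {w : ℂ | w ^ n ∈ h '' W} = {u | hom (u ^ n) ∈ W} := by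
    ext u
    simp only [mem_setOf_eq, hh, Homeomorph.image_symm, mem_preimage]
  have hsub : {u : ℂ | hom (u ^ n) ∈ W} ⊆ {u : ℂ | ‖hom (u ^ n)‖ < R} := fun u hu =>
    mem_ball_zero_iff.mp (hWR hu)
  have ht := transfer' hn hω hWm (P := P)
    (H := fun u => ∑ k ∈ Finset.range (N + 1), a k * (u - c k)⁻¹ + φ u) (by
      classical
      rw [eW]
      have hm : MeasurableSet {u : ℂ | hom (u ^ n) ∈ W} :=
        (hom.continuous.comp (continuous_pow n)).measurable hW
      have h1 : Measurable (indicator {u : ℂ | hom (u ^ n) ∈ W} φ) :=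
        (hφ.continuousOn.mono hsub).measurable_piecewise continuousOn_const hm
      rw [indicator_add]
      exact (Measurable.indicator (by fun_prop) hm).add h1) (by
      filter_upwards [ae_pow_ne hn0 0, ae_all_iff.mpr fun k => ae_pow_ne hn0 (c k ^ n)]
        with w hw hw' _
      have h3 : w ≠ 0 := fun h => hw (by rw [h, zero_pow hn0])
      simp only [hP, mul_add, Finset.sum_add_distrib]
      have e1 := hΨe w
      rw [hψe _ hw] at e1
      rw [← add_assoc]
      have e2 : ((n : ℂ) * w ^ (n - 1)) ^ 2 * ∑ k ∈ Finset.range (N + 1),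
          α k * ((w ^ n - c k ^ n)⁻¹ - (w ^ n)⁻¹) = ∑ t ∈ Finset.range n, (ω ^ t) ^ 2 *
            ∑ k ∈ Finset.range (N + 1), a k * (ω ^ t * w - c k)⁻¹ := by
        simp only [Finset.mul_sum]
        rw [Finset.sum_comm]
        refine Finset.sum_congr rfl fun k hk => ?_
        have := kernel hn hω (hw' k)
        simp only [mul_left_comm _ (a k)]
        rw [← Finset.mul_sum, this, hα]
        have h1 : c k ≠ 0 := fun e => hc0 k (Nat.lt_succ_iff.mp (Finset.mem_range.mp hk)) (by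
          rw [e, zero_pow (by omega), mul_zero])
        obtain ⟨m, rfl⟩ := Nat.exists_eq_add_of_le' hn
        have h2 := sub_ne_zero.mpr (hw' k)
        simp only [show m + 2 - 1 = m + 1 by omega, show m + 2 - 2 = m by omega]
        field_simp
        ring
      rw [e2, add_assoc, add_right_inj]
      apply mul_left_cancel₀ (pow_ne_zero 2 h3)
      rw [← e1]
      obtain ⟨m, rfl⟩ := Nat.exists_eq_add_of_le' hn
      simp only [show m + 2 - 1 = m + 1 by omega]
      field_simp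
      ring)
  rw [eW, lint_image hW isOpen_ball hWR dh hom.symm.injective.injOn] at ht
  refine le_trans (le_of_eq (lintegral_congr_ae ?_)) ht
  filter_upwards [ae_restrict_mem hW, ae_restrict_of_ae (ae_all_iff.mpr fun k =>
    compl_mem_ae_iff.mpr (measure_singleton (c k)))] with x hx hx'
  rw [← enorm_mul]
  congr 1
  have e0 := hee 0 x (hx' 0) (hWR hx)
  rw [show h (c 0) = 0 by rw [c0, hhy], sub_zero] at e0
  have e1 : ∀ k ∈ Finset.range (N + 1), deriv h x ^ 2 * (α k * ((h x - c k ^ n)⁻¹ - (h x)⁻¹)) =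
      a (k + 1) * (x - c (k + 1))⁻¹ - α k * deriv h (c 0) * (x - c 0)⁻¹ +
        α k * (e (k + 1) x - e 0 x) := fun k hk => by
    have hk := Nat.lt_succ_iff.mp (Finset.mem_range.mp hk)
    have e2 := hee (k + 1) x (hx' _) (hWR hx)
    have e3 : h (c (k + 1)) = c k ^ n := by rw [cs, hhy]
    rw [e3] at e2
    have e4 : a (k + 1) = α k * deriv h (c (k + 1)) := by
      have h6 : ((n : ℂ) * c k ^ (n - 1))⁻¹ * (n * c k ^ (n - 1)) = 1 := inv_mul_cancel₀ (hc0 k hk)
      simp only [hα]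
      linear_combination (((n : ℂ) * c k ^ (n - 1))⁻¹ * deriv h (c (k + 1))) * as k hk -
        (a (k + 1) * ((n : ℂ) * c k ^ (n - 1))⁻¹) * hchain k - a (k + 1) * h6
    rw [e4]
    linear_combination α k * e2 - α k * e0
  simp only [hP]
  rw [mul_add (deriv h x ^ 2), Finset.mul_sum, Finset.sum_congr rfl e1, Finset.sum_add_distrib,
    Finset.sum_sub_distrib, ← Finset.sum_mul, ← Finset.sum_mul]
  linear_combination -((n : ℂ) ^ 2)⁻¹ * β * e0

/-- a bound for the slope of the cutoff -/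
theorem exists_M : ∃ M : ℝ, 0 ≤ M ∧ ∀ z, ‖fderiv ℝ theta z‖ ≤ M := by
  obtain ⟨M, hM⟩ := (theta_contDiff.continuous_fderiv one_ne_zero).bounded_above_of_compact_support
    (theta_supp.fderiv ℝ)
  exact ⟨M, (norm_nonneg _).trans (hM 0), hM⟩

theorem pair {M : ℝ} (hM : ∀ z, ‖fderiv ℝ theta z‖ ≤ M) {P : ℂ → ℂ} (hPc : Continuous P) {r L m : ℝ}
    (hr : 0 < r) (hP : ∀ z, ‖P z‖ < 2 * r → DifferentiableAt ℂ P z)
    (hL : ∀ z, ‖P z‖ < 2 * r → ‖deriv P z‖ ≤ L) {T : ℝ} (hT : ∀ z, ‖P z‖ < 2 * r → ‖z‖ ≤ T)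
    {A : Set ℂ} (hA : MeasurableSet A) (hAP : ∀ z ∉ A, ‖P z‖ < 2 * r → ‖P z‖ ≤ r)
    {k φ : ℂ → ℂ} (hk : DifferentiableOn ℂ k {z | ‖P z‖ < 2 * r})
    (hkm : ∀ z, ‖P z‖ < 2 * r → ‖k z‖ ≤ m) (hφ : DifferentiableOn ℂ φ {z | ‖P z‖ < 2 * r})
    (s : Finset ℕ) (β p : ℕ → ℂ) (hp : ∀ i ∈ s, ‖P (p i)‖ ≤ r) :
    ENNReal.ofReal (‖kappa‖ * ‖∑ i ∈ s, β i * k (p i)‖) ≤ ENNReal.ofReal (2 * M * L * m / r) *
      ∫⁻ x in A, ‖∑ i ∈ s, β i * (x - p i)⁻¹ + φ x‖ₑ := by
  have hM0 : 0 ≤ M := (norm_nonneg _).trans (hM 0)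
  set V : Set ℂ := {z | ‖P z‖ < 2 * r} with hV
  have hVo : IsOpen V := isOpen_lt hPc.norm continuous_const
  set χ : ℂ → ℂ := fun z => theta (P z / r) with hχ
  have hnrm : ∀ z, ‖P z / r‖ ^ 2 = ‖P z‖ ^ 2 / r ^ 2 := fun z => by
    rw [norm_div, norm_real, Real.norm_of_nonneg hr.le, div_pow]
  have hρ2 : 0 < r ^ 2 := by positivity
  have hzero : ∀ z ∉ V, ∀ᶠ w in 𝓝 z, χ w = 0 := fun z hz => by
    have h1 : 3 * r ^ 2 < ‖P z‖ ^ 2 := by
      have : 2 * r ≤ ‖P z‖ := not_lt.mp hz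
      nlinarith
    filter_upwards [(isOpen_lt continuous_const (hPc.norm.pow 2)).mem_nhds h1] with w hw
    exact theta_zero (by rw [hnrm, le_div_iff₀ hρ2]; exact le_of_lt hw)
  have hone : ∀ z, ‖P z‖ ≤ r → ∀ᶠ w in 𝓝 z, χ w = 1 := fun z hz => by
    have h1 : ‖P z‖ ^ 2 < 2 * r ^ 2 := by nlinarith [norm_nonneg (P z)]
    filter_upwards [(isOpen_lt (hPc.norm.pow 2) continuous_const).mem_nhds h1] with w hw
    exact theta_one (by rw [hnrm, div_le_iff₀ hρ2]; exact le_of_lt hw)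
  have hPV : DifferentiableOn ℂ (fun z => P z / r) V := fun z hz =>
    ((hP z hz).div_const _).differentiableWithinAt
  have hχd : ContDiff ℝ 1 χ := contDiff_iff_contDiffAt.mpr fun z => by
    by_cases hz : z ∈ V
    · exact theta_contDiff.contDiffAt.comp z
        (((hPV.contDiffOn (n := 1) hVo).contDiffAt (hVo.mem_nhds hz)).restrict_scalars ℝ)
    · exact (contDiffAt_const (c := (0 : ℂ))).congr_of_eventuallyEq (hzero z hz)
  have hsV : tsupport χ ⊆ V := fun z hz => by_contra fun h =>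
    notMem_tsupport_iff_eventuallyEq.mpr (hzero z h) hz
  have hs : HasCompactSupport χ := HasCompactSupport.intro (isCompact_closedBall 0 T)
    fun z hz => (hzero z fun h => hz (mem_closedBall_zero_iff.mpr (hT z h))).self_of_nhds
  have hcp := fun i (hi : i ∈ s) => cauchy_pompeiu hVo hχd hs hsV hk (a := p i)
    (show _ < 2 * r by linarith [hp i hi]) (hone _ (hp i hi))
  obtain ⟨i0, e0⟩ := stokes hVo hχd hs hsV (hk.mul hφ)
  have hint : kappa * ∑ i ∈ s, β i * k (p i) =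
      ∫ z, dbar χ z * k z * (∑ i ∈ s, β i * (z - p i)⁻¹ + φ z) := by
    have : (fun z => dbar χ z * k z * (∑ i ∈ s, β i * (z - p i)⁻¹ + φ z)) = fun z =>
        ∑ i ∈ s, β i * (dbar χ z * (k z / (z - p i))) + dbar χ z * (k * φ) z := by
      funext z
      rw [mul_add, Finset.mul_sum, Pi.mul_apply, mul_assoc]
      congr 1
      exact Finset.sum_congr rfl fun k _ => by ring
    rw [this, integral_add (integrable_finsetSum _ fun i hi => (hcp i hi).1.const_mul _) i0, e0,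
      add_zero, integral_finsetSum _ fun i hi => (hcp i hi).1.const_mul _, Finset.mul_sum]
    exact Finset.sum_congr rfl fun i hi => by rw [integral_const_mul, (hcp i hi).2]; ring
  have hdb : ∀ z ∈ V, ‖dbar χ z‖ ≤ 2 * M * L / r := by
    intro z hz
    have hd : DifferentiableAt ℂ (fun z => P z / r) z := (hP z hz).div_const _
    have h1 : ∀ v : ℂ, ‖v‖ = 1 → ‖fderiv ℝ χ z v‖ ≤ M * (L / r) := fun v hv => by
      have : fderiv ℝ χ z v = fderiv ℝ theta (P z / r) (v * (deriv P z / r)) := by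
        rw [show χ = theta ∘ fun z => P z / r from rfl,
          fderiv_comp _ (theta_contDiff.differentiable one_ne_zero _) (hd.restrictScalars ℝ),
          ContinuousLinearMap.comp_apply, fderiv_real_holo hd, deriv_div_const]
      rw [this]
      refine (ContinuousLinearMap.le_opNorm _ _).trans (mul_le_mul (hM _) ?_ (norm_nonneg _) hM0)
      rw [norm_mul, hv, one_mul, norm_div, norm_real, Real.norm_of_nonneg hr.le]
      exact div_le_div_of_nonneg_right (hL z hz) hr.le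
    refine (norm_add_le _ _).trans ?_
    rw [norm_mul, norm_I, one_mul, show 2 * M * L / r = M * (L / r) + M * (L / r) by ring]
    exact add_le_add (h1 1 norm_one) (h1 I norm_I)
  have hpt : ∀ z, ‖dbar χ z * k z * (∑ i ∈ s, β i * (z - p i)⁻¹ + φ z)‖ₑ ≤ A.indicator
      (fun z => ENNReal.ofReal (2 * M * L * m / r) * ‖∑ i ∈ s, β i * (z - p i)⁻¹ + φ z‖ₑ) z := by
    intro z
    by_cases h1 : z ∈ V
    · by_cases hz : z ∈ A
      · rw [indicator_of_mem hz, enorm_mul]
        refine mul_le_mul_left ?_ _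
        rw [← ofReal_norm, norm_mul, show 2 * M * L * m / r = 2 * M * L / r * m by ring]
        exact ENNReal.ofReal_le_ofReal (mul_le_mul (hdb z h1) (hkm z h1) (norm_nonneg _)
          ((norm_nonneg _).trans (hdb z h1)))
      · simp [dbar_of_eventually_const (hone z (hAP z hz h1))]
    · simp [dbar_of_eventually_const (hzero z h1)]
  rw [← norm_mul, ofReal_norm, hint]
  refine (enorm_integral_le_lintegral_enorm _).trans ((lintegral_mono hpt).trans ?_)
  rw [lintegral_indicator hA, lintegral_const_mul' _ _ ENNReal.ofReal_ne_top]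

end RT43
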