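import Pool.Agent.Lib.RT.T43b

/-! Transversality for a unicritical map that is holomorphic on a large disc. -/

set_option autoImplicit false

open Filter Topology Set Metric MeasureTheory Complex
open scoped ENNReal

namespace RT43

open Pool.Agent.Lib.MP_c35c17_an

theorem near_min {ι : Type} (I : ι → ℝ≥0∞) (i₀ : ι) (h0 : I i₀ ≠ ⊤) {ε : ℝ≥0∞} (hε : ε ≠ 0) :
    ∃ i, ∀ i', I i ≤ I i' + ε := by
  have hm : ⨅ i, I i ≠ ⊤ := ne_top_of_le_ne_top h0 (iInf_le _ _)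
  obtain ⟨i, hi⟩ := iInf_lt_iff.mp (ENNReal.lt_add_right hm hε)
  exact ⟨i, fun i' => hi.le.trans (add_le_add_left (iInf_le _ _) _)⟩

theorem iter_diff {G : ℂ → ℂ} {R Λ : ℝ} (hΛ : 0 ≤ Λ) (sub : ∀ u, ‖G u‖ < R → ‖u‖ < R)
    (dG : ∀ u, ‖G u‖ < R → DifferentiableAt ℂ G u) (lip : ∀ u, ‖G u‖ < R → ‖deriv G u‖ ≤ Λ)
    (j : ℕ) (z : ℂ) (hz : ‖G^[j] z‖ < R) :
    DifferentiableAt ℂ G^[j] z ∧ ‖deriv G^[j] z‖ ≤ Λ ^ j := by
  induction j with
  | zero => exact ⟨differentiableAt_id, by simp⟩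
  | succ j ih =>
    rw [Function.iterate_succ_apply'] at hz
    obtain ⟨h1, h2⟩ := ih (sub _ hz)
    rw [Function.iterate_succ']
    refine ⟨(dG _ hz).comp z h1, ?_⟩
    rw [deriv_comp z (dG _ hz) h1, norm_mul, pow_succ']
    exact mul_le_mul (lip _ hz) h2 (norm_nonneg _) hΛ

theorem trv : ∃ C₀ : ℝ, 2 ≤ C₀ ∧ ∀ (n : ℕ) (hom : ℂ ≃ₜ ℂ) (R ρ Λ : ℝ), 2 ≤ n → 1 ≤ ρ →
    C₀ * ρ ≤ R → DifferentiableOn ℂ hom.symm (ball 0 R) →
    (∀ y, ‖hom y‖ < R → DifferentiableAt ℂ hom y) → (∀ u, ‖hom (u ^ n)‖ < R → ‖u‖ < ρ) →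
    (∀ u, ‖hom (u ^ n)‖ < R → ‖deriv (fun u => hom (u ^ n)) u‖ ≤ Λ) →
    ∀ (c a : ℕ → ℂ) (N : ℕ), c 0 = hom 0 → (∀ k, c (k + 1) = hom (c k ^ n)) → (∀ k, ‖c k‖ < R) →
    a 0 = 1 → (∀ k ≤ N, a (k + 1) * deriv (fun u => hom (u ^ n)) (c k) = a k) →
    ∀ w : ℂ → ℂ, DifferentiableOn ℂ w {y | ‖hom y‖ < R} → (∀ y, ‖hom y‖ < R → ‖w y - 1‖ ≤ 1 / 4) →
    ∀ (j : ℕ) (k : ℂ → ℂ), 1 ≤ j →
    DifferentiableOn ℂ k {z | ‖(fun u => hom (u ^ n))^[j] z‖ < R} →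
    (∀ z, ‖(fun u => hom (u ^ n))^[j] z‖ < R → ‖k z‖ ≤ 1) →
      ‖∑ i ∈ Finset.range (N + 1), a i * k (c i)‖ ≤
        Λ ^ j * (‖w 0 + ∑ i ∈ Finset.range (N + 1), a (i + 1) * w (c i ^ n)‖ + ‖a (N + 1)‖) := by
  obtain ⟨M, hM0, hM⟩ := exists_M
  have hκ : 0 < ‖kappa‖ := norm_pos_iff.mpr kappa_spec.2
  have hI := I1_nonneg
  refine ⟨2 + 30 * M * (1 + 12 * I1) / ‖kappa‖, le_add_of_nonneg_right (by positivity),
    fun n hom R ρ Λ hn hρ hR dh dg sub lip c a N c0 cs cR a0 as w hw hw1 j k hj hk hk1 => ?_⟩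
  set G : ℂ → ℂ := fun u => hom (u ^ n) with hG
  have hq : 0 ≤ 30 * M * (1 + 12 * I1) / ‖kappa‖ := by positivity
  have hρR : 2 * ρ ≤ R := by nlinarith
  have hMR : 30 * M * ((1 + 12 * I1) * ρ) ≤ ‖kappa‖ * R := by
    have : 30 * M * (1 + 12 * I1) / ‖kappa‖ * ρ ≤ R := by nlinarith
    rw [div_mul_eq_mul_div, div_le_iff₀ hκ] at this
    linarith
  obtain ⟨r, rfl⟩ : ∃ r, R = 2 * r := ⟨R / 2, by ring⟩
  have hr : 0 < r := by linarith
  have hGc : Continuous G := hom.continuous.comp (continuous_pow n)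
  have hΛ : 0 ≤ Λ := (norm_nonneg _).trans (lip (c 0) (by rw [← cs]; exact cR 1))
  have an : ∀ k ≤ N + 1, a k ≠ 0 := fun k => by
    induction k with
    | zero => intro _; rw [a0]; exact one_ne_zero
    | succ k ih => exact fun hk e => ih (by omega) (by rw [← as k (by omega), e, zero_mul])
  set V : ℕ → Set ℂ := fun j => {z | ‖G^[j] z‖ < 2 * r} with hV
  have hVo : ∀ j, IsOpen (V j) := fun j => isOpen_lt (hGc.iterate j).norm continuous_const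
  have hVm : ∀ j, MeasurableSet (V j) := fun j => (hVo j).measurableSet
  have hVρ : ∀ j, ∀ z ∈ V (j + 1), ‖G^[j] z‖ < ρ := fun j z hz =>
    sub _ (by have : ‖G^[j + 1] z‖ < 2 * r := hz; rwa [Function.iterate_succ_apply'] at this)
  have hVs : ∀ j, V (j + 1) ⊆ V j := fun j z hz => (hVρ j z hz).trans_le (by linarith)
  have hV1 : V j ⊆ V 1 := antitone_nat_of_succ_le hVs hj
  have hVb : V 1 ⊆ ball 0 ρ := fun z hz => mem_ball_zero_iff.mpr (hVρ 0 z hz)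
  have hbR : ball (0 : ℂ) ρ ⊆ ball 0 (2 * r) := ball_subset_ball (by linarith)
  have hit : ∀ l i, G^[l] (c i) = c (i + l) := fun l i => by
    induction l with
    | zero => rfl
    | succ l ih => rw [Function.iterate_succ_apply', ih, ← add_assoc, cs]
  have cρ : ∀ i, ‖c i‖ ≤ ρ := fun i => (sub _ (by rw [← cs]; exact cR _)).le
  set H : ℂ → ℂ := fun x => ∑ i ∈ Finset.range (N + 1), a i * (x - c i)⁻¹ with hH
  have hH0 : ∀ W ⊆ V 1, ∫⁻ x in W, ‖H x + (0 : ℂ → ℂ) x‖ₑ ≠ ⊤ := fun W hW => by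
    refine ne_top_of_le_ne_top (b := ∑ i ∈ Finset.range (N + 1),
      ENNReal.ofReal (‖a i‖ * (3 * ρ * I1))) (ENNReal.sum_ne_top.mpr fun _ _ =>
        ENNReal.ofReal_ne_top) ?_
    simp only [Pi.zero_apply, add_zero, hH]
    refine (lintegral_mono fun x => enorm_sum_le _ _).trans ?_
    rw [lintegral_finsetSum _ fun k _ => by fun_prop]
    exact Finset.sum_le_sum fun i _ => inv_mass (by linarith) (cρ i) (hW.trans hVb) _
  have hI0 := ENNReal.add_ne_top.mpr ⟨hH0 _ subset_rfl, hH0 _ hV1⟩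
  obtain ⟨⟨φ, hφ⟩, hmin⟩ := near_min (ι := {φ : ℂ → ℂ // DifferentiableOn ℂ φ (V 1)})
    (fun φ => (∫⁻ x in V 1, ‖H x + φ.1 x‖ₑ) + ∫⁻ x in V j, ‖H x + φ.1 x‖ₑ)
    ⟨0, differentiableOn_const 0⟩ hI0 (ε := ENNReal.ofReal ‖a (N + 1)‖)
    (ENNReal.ofReal_pos.mpr (norm_pos_iff.mpr (an _ le_rfl))).ne'
  have hfin := ne_top_of_le_ne_top (ENNReal.add_ne_top.mpr ⟨hI0, ENNReal.ofReal_ne_top⟩)
    (hmin ⟨0, differentiableOn_const 0⟩)
  obtain ⟨t, φ', hφ', hpush⟩ := push hn hom dh dg c0 cs cR N as (fun k hk => an k (by omega)) hφ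
  have hcmp := hmin ⟨φ', hφ'.mono (hVb.trans hbR)⟩
  simp only at hcmp hfin
  set X : ℝ := (‖a (N + 1)‖ + ‖1 - t‖) * (3 * ρ * I1) with hX
  have hX0 : 0 ≤ X := by positivity
  have hup : ∀ l, V l ⊆ V 1 → ∫⁻ x in V l, ‖H x + φ' x‖ₑ ≤
      (∫⁻ x in V (l + 1), ‖H x + φ x‖ₑ) + ENNReal.ofReal X := fun l hl => by
    have h1 := hpush (V l) (hVm l) (hl.trans (hVb.trans hbR))
    have h2 := inv_mass (by linarith) (cρ (N + 1)) (hl.trans hVb) (-a (N + 1))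
    have h3 := inv_mass (by linarith) (cρ 0) (hl.trans hVb) (1 - t)
    rw [norm_neg] at h2
    rw [hX, add_mul, ENNReal.ofReal_add (by positivity) (by positivity)]
    refine le_trans ?_ (add_le_add h1 (add_le_add h2 h3))
    rw [← lintegral_add_right _ (by fun_prop), ← lintegral_add_right _ (by fun_prop)]
    refine lintegral_mono fun x => le_trans (le_of_eq ?_)
      ((enorm_add_le _ _).trans (add_le_add_right (enorm_add_le _ _) _))
    congr 1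
    have e1 := Finset.sum_range_succ' (fun i => a i * (x - c i)⁻¹) (N + 1)
    rw [Finset.sum_range_succ, a0] at e1
    simp only [hH]
    linear_combination e1
  have hsp : ∀ l, ∫⁻ x in V l, ‖H x + φ x‖ₑ = (∫⁻ x in V (l + 1), ‖H x + φ x‖ₑ) +
      ∫⁻ x in V l \ V (l + 1), ‖H x + φ x‖ₑ := fun l => by
    have := lintegral_inter_add_sdiff (μ := volume) (fun x => ‖H x + φ x‖ₑ) (V l) (hVm (l + 1))
    rw [inter_eq_right.mpr (hVs l)] at this
    exact this.symm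
  set E : ℝ := (1 + 12 * I1) * ρ * (‖a (N + 1)‖ + ‖1 - t‖) with hE
  have hmass : (∫⁻ x in V 1 \ V 2, ‖H x + φ x‖ₑ) + ∫⁻ x in V j \ V (j + 1), ‖H x + φ x‖ₑ ≤
      ENNReal.ofReal E := by
    have h1 := hcmp.trans (add_le_add_left (add_le_add (hup 1 subset_rfl) (hup j hV1)) _)
    rw [hsp 1, hsp j, add_add_add_comm] at hfin
    rw [hsp 1, hsp j, add_add_add_comm, add_add_add_comm _ (ENNReal.ofReal X),
      add_assoc _ _ (ENNReal.ofReal ‖a (N + 1)‖)] at h1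
    refine ((ENNReal.add_le_add_iff_left (ENNReal.add_ne_top.mp hfin).1).mp h1).trans ?_
    rw [← ENNReal.ofReal_add hX0 hX0, ← ENNReal.ofReal_add (by positivity) (norm_nonneg _)]
    refine ENNReal.ofReal_le_ofReal ?_
    rw [hX, hE]
    nlinarith [norm_nonneg (a (N + 1)), norm_nonneg (1 - t),
      mul_nonneg (mul_nonneg hI (by linarith : 0 ≤ ρ)) (add_nonneg (norm_nonneg (a (N + 1)))
        (norm_nonneg (1 - t))), mul_le_mul_of_nonneg_right hρ (norm_nonneg (a (N + 1))),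
      mul_nonneg (by linarith : 0 ≤ ρ) (norm_nonneg (1 - t))]
  have hE0 : 0 ≤ E := by positivity
  have hb : {z : ℂ | ‖id z‖ < 2 * r} = ball 0 (2 * r) := by ext z; simp
  have p1 := pair hM continuous_id (L := 1) (m := 5 / 4) hr (fun z _ => differentiableAt_id)
    (fun z _ => by simp) (fun z hz => hz.le) ((hVm 0).diff (hVm 1))
    (fun z hz hz' => ((hVρ 0 z (by_contra fun h => hz ⟨hz', h⟩)).trans_le (by linarith)).le)
    (k := fun x => w (hom.symm x)) (φ := φ')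
    (by rw [hb]; exact hw.comp dh fun x hx => by simpa using hx)
    (fun z hz => by
      have h1 := hw1 (hom.symm z) (by simpa using hz)
      have h2 := norm_le_norm_sub_add (w (hom.symm z)) 1
      rw [norm_one] at h2
      linarith) (by rwa [hb]) (Finset.range (N + 2))
    (fun i => Nat.casesOn i t fun l => a (l + 1)) c fun i _ => (cρ i).trans (by linarith)
  have p2 := pair hM (hGc.iterate j) (L := Λ ^ j) (m := 1) hr
    (fun z hz => (iter_diff hΛ (fun u hu => (sub u hu).trans_le (by linarith))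
      (fun u hu => (dg _ hu).comp u (differentiableAt_pow n)) lip j z hz).1)
    (fun z hz => (iter_diff hΛ (fun u hu => (sub u hu).trans_le (by linarith))
      (fun u hu => (dg _ hu).comp u (differentiableAt_pow n)) lip j z hz).2)
    (fun z hz => (mem_ball_zero_iff.mp (hVb (hV1 hz))).le) ((hVm j).diff (hVm (j + 1)))
    (fun z hz hz' => ((hVρ j z (by_contra fun h => hz ⟨hz', h⟩)).trans_le (by linarith)).le)
    hk hk1 (hφ.mono hV1) (Finset.range (N + 1)) a c fun i _ => by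
      rw [hit]; exact (cρ _).trans (by linarith)
  have h1 := hpush _ ((hVm 0).diff (hVm 1)) fun z hz => mem_ball_zero_iff.mpr hz.1
  simp only [Finset.sum_range_succ' _ (N + 1), cs, c0, hom.symm_apply_apply, Nat.rec_zero] at p1
  simp only [cs, c0] at h1
  have q1 := p1.trans (mul_le_mul_right (h1.trans (le_self_add.trans hmass)) _)
  have q2 := p2.trans (mul_le_mul_right (le_add_self.trans hmass) _)
  rw [← ENNReal.ofReal_mul (by positivity), ENNReal.ofReal_le_ofReal_iff (by positivity),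
    div_mul_eq_mul_div, le_div_iff₀ hr] at q1 q2
  set S := w 0 + ∑ i ∈ Finset.range (N + 1), a (i + 1) * w (c i ^ n) with hS
  have e1 : ∑ i ∈ Finset.range (N + 1), a (i + 1) * w (c i ^ n) + t * w 0 = S - w 0 * (1 - t) := by
    rw [hS]; ring
  rw [e1] at q1
  set Y := ‖a (N + 1)‖ + ‖1 - t‖ with hY
  have hY0 : 0 ≤ Y := by positivity
  have hME : 15 * (M * E) ≤ ‖kappa‖ * r * Y := by
    rw [hE]; nlinarith [mul_le_mul_of_nonneg_right hMR hY0]
  have hκr : 0 < ‖kappa‖ * r := by positivity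
  have r1 : ‖S - w 0 * (1 - t)‖ ≤ Y / 6 := by
    refine le_of_mul_le_mul_left ?_ hκr
    nlinarith
  have r2 : ‖∑ i ∈ Finset.range (N + 1), a i * k (c i)‖ ≤ Λ ^ j * (2 / 15 * Y) := by
    refine le_of_mul_le_mul_left ?_ hκr
    nlinarith [mul_le_mul_of_nonneg_left hME (pow_nonneg hΛ j)]
  refine r2.trans (mul_le_mul_of_nonneg_left ?_ (pow_nonneg hΛ j))
  have r3 : 3 / 4 ≤ ‖w 0‖ := by
    have h2 := hw1 0 (by rw [← c0]; exact cR 0)
    have h3 := norm_le_norm_sub_add (1 : ℂ) (w 0)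
    rw [norm_one, norm_sub_rev] at h3
    linarith
  have r4 : ‖w 0‖ * ‖1 - t‖ ≤ ‖S‖ + ‖S - w 0 * (1 - t)‖ := by
    rw [← norm_mul]
    simpa using norm_sub_le S (S - w 0 * (1 - t))
  nlinarith [mul_le_mul_of_nonneg_right r3 (norm_nonneg (1 - t)), norm_nonneg S,
    norm_nonneg (a (N + 1))]

theorem far_point {P : ℂ → ℂ} (hP : Differentiable ℂ P) (x : ℂ) {ρ : ℝ} (hρ : 0 < ρ)
    (hD : deriv P x ≠ 0) : ∃ b, ‖b - x‖ = 2 * ρ / ‖deriv P x‖ ∧ ρ ≤ ‖P b‖ := by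
  by_contra h
  push Not at h
  have hD' := norm_pos_iff.mpr hD
  have h1 := Complex.norm_deriv_le_of_forall_mem_sphere_norm_le (c := x)
    (R := 2 * ρ / ‖deriv P x‖) (by positivity) hP.diffContOnCl
    fun z hz => (h z (mem_sphere_iff_norm.mp hz)).le
  rw [le_div_iff₀ (by positivity), mul_div_cancel₀ _ hD'.ne'] at h1
  linarith

/-- a bounded function on a sublevel set that kills all points but the first -/
theorem killers {P : ℂ → ℂ} (hP : Differentiable ℂ P) {R : ℝ} (hR : 0 < R) (c : ℕ → ℂ) (N : ℕ)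
    (hc : ∀ i ≤ N, ‖P (c i)‖ < R) (hD : deriv P (c 0) ≠ 0)
    (hs : ∀ i, 1 ≤ i → i ≤ N → 4 * R * (N : ℝ) ^ 34 ≤ ‖deriv P (c 0)‖ * ‖c i - c 0‖) :
    ∃ k : ℂ → ℂ, DifferentiableOn ℂ k {z | ‖P z‖ < R} ∧ (∀ z, ‖P z‖ < R → ‖k z‖ ≤ 1) ∧
      (∀ i, 1 ≤ i → i ≤ N → k (c i) = 0) ∧ Real.exp (-4000) ≤ ‖k (c 0)‖ := by
  obtain ⟨b, hb1, hb2⟩ := far_point hP (c 0) (ρ := 2 * R) (by positivity) hD
  have hD' := norm_pos_iff.mpr hD
  have hne : ∀ i ∈ Finset.Icc 1 N, 0 < ‖c i - c 0‖ := fun i hi => by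
    obtain ⟨h1, h2⟩ := Finset.mem_Icc.mp hi
    have hN : (0 : ℝ) < N := by exact_mod_cast (by omega : 0 < N)
    exact (mul_pos_iff_of_pos_left hD').mp ((by positivity : 0 < 4 * R * (N : ℝ) ^ 34).trans_le
      (hs i h1 h2))
  choose! B hB hB1 hB0 hBx using fun i (hi : i ∈ Finset.Icc 1 N) =>
    exists_killer hP (b := b) (R := R) (by linarith) (hc 0 (Nat.zero_le N))
      (hc i (Finset.mem_Icc.mp hi).2) (sub_ne_zero.mp (norm_pos_iff.mp (hne i hi)))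
  refine ⟨fun z => ∏ i ∈ Finset.Icc 1 N, B i z, DifferentiableOn.fun_finsetProd hB,
    fun z hz => ?_, fun i h1 h2 => Finset.prod_eq_zero (Finset.mem_Icc.mpr ⟨h1, h2⟩)
      (hB0 i (Finset.mem_Icc.mpr ⟨h1, h2⟩)), ?_⟩
  · rw [norm_prod]
    exact Finset.prod_le_one (fun _ _ => norm_nonneg _) fun i hi => hB1 i hi z hz
  rcases Nat.eq_zero_or_pos N with rfl | hN
  · simp
  have hN' : (1 : ℝ) ≤ N := by exact_mod_cast hN
  rw [norm_prod]
  calc Real.exp (-4000) = ∏ _i ∈ Finset.Icc 1 N, Real.exp (-(4000 / N)) := by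
        rw [Finset.prod_const, Nat.card_Icc, Nat.add_sub_cancel, ← Real.exp_nat_mul]
        congr 1
        field_simp
    _ ≤ _ := Finset.prod_le_prod (fun _ _ => (Real.exp_pos _).le) fun i hi => by
        obtain ⟨h1, h2⟩ := Finset.mem_Icc.mp hi
        have h5 : ‖b - c 0‖ / ‖c i - c 0‖ ≤ ((N : ℝ)⁻¹) ^ 34 := by
          rw [hb1, div_div, inv_pow, div_le_iff₀ (mul_pos hD' (hne i hi)),
            le_inv_mul_iff₀ (by positivity)]
          linarith [hs i h1 h2]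
        have h6 : ((N : ℝ)⁻¹) ^ 34 ≤ (N : ℝ)⁻¹ :=
          pow_le_of_le_one (by positivity) (inv_le_one_of_one_le₀ hN') (by norm_num)
        have h7 : (‖b - c 0‖ / ‖c i - c 0‖) ^ (1 / 34 : ℝ) ≤ (N : ℝ)⁻¹ := by
          refine (Real.rpow_le_rpow (by positivity) h5 (by norm_num)).trans (le_of_eq ?_)
          rw [← Real.rpow_natCast, ← Real.rpow_mul (by positivity)]
          norm_num
        have h8 := Real.add_one_le_exp (4000 / N)
        rw [Real.exp_neg, inv_le_iff_one_le_mul₀ (Real.exp_pos _), mul_comm]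
        refine (hBx i hi).trans (mul_le_mul_of_nonneg_right ?_ (norm_nonneg _))
        have h9 : (4000 : ℝ) / N = 4000 * (N : ℝ)⁻¹ := div_eq_mul_inv _ _
        linarith

/-- transversality -/
theorem trans : ∃ C₀ : ℝ, 2 ≤ C₀ ∧ ∀ (n : ℕ) (hom : ℂ ≃ₜ ℂ) (R ρ Λ : ℝ), 2 ≤ n → 1 ≤ ρ →
    C₀ * ρ ≤ R → DifferentiableOn ℂ hom.symm (ball 0 R) →
    (∀ y, ‖hom y‖ < R → DifferentiableAt ℂ hom y) → (∀ u, ‖hom (u ^ n)‖ < R → ‖u‖ < ρ) →
    (∀ u, ‖hom (u ^ n)‖ < R → ‖deriv (fun u => hom (u ^ n)) u‖ ≤ Λ) →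
    ∀ (c a : ℕ → ℂ) (N : ℕ), c 0 = hom 0 → (∀ k, c (k + 1) = hom (c k ^ n)) → (∀ k, ‖c k‖ < R) →
    a 0 = 1 → (∀ k ≤ N, a (k + 1) * deriv (fun u => hom (u ^ n)) (c k) = a k) →
    ∀ w : ℂ → ℂ, DifferentiableOn ℂ w {y | ‖hom y‖ < R} → (∀ y, ‖hom y‖ < R → ‖w y - 1‖ ≤ 1 / 4) →
    ∀ (j : ℕ) (P : ℂ → ℂ), 1 ≤ j → Differentiable ℂ P →
    (∀ z, ‖(fun u => hom (u ^ n))^[j] z‖ < R → P z = (fun u => hom (u ^ n))^[j] z) →
    deriv P (c 0) ≠ 0 →
    (∀ i, 1 ≤ i → i ≤ N → 4 * R * (N : ℝ) ^ 34 ≤ ‖deriv P (c 0)‖ * ‖c i - c 0‖) →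
      Real.exp (-4000) ≤
        Λ ^ j * (‖w 0 + ∑ i ∈ Finset.range (N + 1), a (i + 1) * w (c i ^ n)‖ + ‖a (N + 1)‖) := by
  obtain ⟨C₀, hC, h⟩ := trv
  refine ⟨C₀, hC, fun n hom R ρ Λ hn hρ hR dh dg sub lip c a N c0 cs cR a0 as w hw hw1 j P hj hP
    hPe hD hs => ?_⟩
  have hit : ∀ l i, (fun u => hom (u ^ n))^[l] (c i) = c (i + l) := fun l i => by
    induction l with
    | zero => rfl
    | succ l ih => rw [Function.iterate_succ_apply', ih, ← add_assoc, cs]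
  obtain ⟨k, hk, hk1, hk0, hkx⟩ := killers hP ((norm_nonneg _).trans_lt (cR 0)) c N
    (fun i _ => by rw [hPe _ (by rw [hit]; exact cR _), hit]; exact cR _) hD hs
  have := h n hom R ρ Λ hn hρ hR dh dg sub lip c a N c0 cs cR a0 as w hw hw1 j k hj
    (hk.mono fun z hz => by
      show ‖P z‖ < R
      rw [hPe z hz]; exact hz) fun z hz => hk1 z (by rw [hPe z hz]; exact hz)
  rw [Finset.sum_range_succ', Finset.sum_eq_zero (fun i hi => by
    rw [hk0 (i + 1) (by omega) (Finset.mem_range.mp hi), mul_zero]), zero_add, a0, one_mul] at this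
  exact hkx.trans this

end RT43
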