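import Mathlib

/-! The chart of the escaping set of a topological model `u ↦ hom (u ^ n)`. -/

set_option autoImplicit false

open Filter Topology Set Metric Complex
open scoped Real

namespace RT45

/-- logarithm of the round chart -/
noncomputable def A0 (lam : ℝ) (z : ℂ) : ℂ := ((lam * z.re : ℝ) : ℂ) + 2 * π * I * z.im

/-- open half plane -/
def Hs (t : ℝ) : Set ℂ := {z | t < z.re}

theorem Hs_open (t : ℝ) : IsOpen (Hs t) := isOpen_lt continuous_const continuous_re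

theorem Hs_convex (t : ℝ) : Convex ℝ (Hs t) := convex_halfSpace_re_gt t

theorem Hs_mono {t t' : ℝ} (h : t ≤ t') : Hs t' ⊆ Hs t := fun _ hz => lt_of_le_of_lt h hz

theorem log_uniq {U : Set ℂ} (hU : IsPreconnected U) {f g : ℂ → ℂ} (hf : ContinuousOn f U)
    (hg : ContinuousOn g U) (h : ∀ z ∈ U, exp (f z) = exp (g z)) {x : ℂ} (hx : x ∈ U)
    (hfg : f x = g x) : EqOn f g U :=
  isCoveringMap_exp.eqOn_of_comp_eqOn hU hf hg (fun z hz => Subtype.ext (h z hz)) hx hfg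

theorem log_exists {U : Set ℂ} (hU : Convex ℝ U) (hUo : IsOpen U) {f : ℂ → ℂ}
    (hf : ContinuousOn f U) (h0 : ∀ z ∈ U, f z ≠ 0) {x w : ℂ} (hx : x ∈ U) (hw : exp w = f x) :
    ∃ l : ℂ → ℂ, ContinuousOn l U ∧ (∀ z ∈ U, exp (l z) = f z) ∧ l x = w := by
  have hs : IsSimplyConnected U := by
    have := hU.contractibleSpace ⟨x, hx⟩
    exact SimplyConnectedSpace.ofContractible U
  obtain ⟨l, hl, he⟩ := exists_continuousOn_eqOn_exp_comp hs hUo hf
    (by rintro ⟨z, hz, h⟩; exact h0 z hz h)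
  refine ⟨fun z => l z - l x + w, by fun_prop, fun z hz => ?_, by simp⟩
  have h1 : exp (l z) = f z := he hz
  have h2 : exp (l x) = f x := he hx
  rw [exp_add, exp_sub, h1, h2, hw, div_mul_cancel₀ _ (h0 x hx)]

theorem exp_nhds (w : ℂ) : map exp (𝓝 w) = 𝓝 (exp w) :=
  (hasStrictDerivAt_exp w).map_nhds_eq (exp_ne_zero w)

theorem open_log {l : ℂ → ℂ} {z : ℂ} (hl : ContinuousAt l z)
    (h : 𝓝 (exp (l z)) ≤ map (fun x => exp (l x)) (𝓝 z)) : 𝓝 (l z) ≤ map l (𝓝 z) := by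
  intro s hs
  have hW : ball (l z) 1 ∈ 𝓝 (l z) := ball_mem_nhds _ one_pos
  have h1 : l ⁻¹' s ∩ l ⁻¹' ball (l z) 1 ∈ 𝓝 z := inter_mem hs (hl hW)
  have h2 : (fun x => exp (l x)) '' (l ⁻¹' s ∩ l ⁻¹' ball (l z) 1) ∈ 𝓝 (exp (l z)) :=
    h (image_mem_map h1)
  have h3 := continuous_exp.continuousAt (x := l z) h2
  filter_upwards [h3, hW] with w hw hwb
  obtain ⟨x, ⟨hxs, hxb⟩, hx⟩ := hw
  obtain ⟨m, hm⟩ := exp_eq_exp_iff_exists_int.1 hx
  have hd : ‖l x - w‖ < 2 := by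
    have a1 : ‖l x - l z‖ < 1 := by simpa [dist_eq_norm] using hxb
    have a2 : ‖w - l z‖ < 1 := by simpa [dist_eq_norm] using hwb
    have : l x - w = (l x - l z) - (w - l z) := by ring
    rw [this]
    linarith [norm_sub_le (l x - l z) (w - l z)]
  have hn : ‖l x - w‖ = |(m : ℝ)| * (2 * π) := by
    rw [hm]
    simp [abs_of_pos Real.pi_pos]
  have hm0 : m = 0 := by
    by_contra hne
    have : (1 : ℝ) ≤ |(m : ℝ)| := by exact_mod_cast Int.one_le_abs hne
    nlinarith [Real.pi_gt_three]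
  have : l x = w := by simpa [hm0] using hm
  rw [← this]
  exact hxs

theorem A0_cont (lam : ℝ) : Continuous (A0 lam) := by unfold A0; fun_prop

theorem A0_re (lam : ℝ) (z : ℂ) : (A0 lam z).re = lam * z.re := by simp [A0]

theorem A0_im (lam : ℝ) (z : ℂ) : (A0 lam z).im = 2 * π * z.im := by simp [A0]

theorem norm_A0 (lam : ℝ) (z : ℂ) : ‖exp (A0 lam z)‖ = Real.exp (lam * z.re) := by
  rw [norm_exp, A0_re]

theorem A0_mul (lam : ℝ) (n : ℕ) (z : ℂ) : A0 lam (n * z) = n * A0 lam z := by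
  apply Complex.ext <;> simp [A0_re, A0_im] <;> ring

theorem A0_rot (lam : ℝ) (n : ℕ) (z : ℂ) : A0 lam (z + I / n) = A0 lam z + 2 * π * I / n := by
  have h : (I / n : ℂ) = (((n : ℝ)⁻¹ : ℝ) : ℂ) * I := by push_cast; ring
  have h' : (2 * π * I / n : ℂ) = ((2 * π * (n : ℝ)⁻¹ : ℝ) : ℂ) * I := by push_cast; ring
  rw [h, h']
  apply Complex.ext
  · rw [add_re, A0_re, A0_re, add_re, re_ofReal_mul, re_ofReal_mul]; simp
  · rw [add_im, A0_im, A0_im, add_im, im_ofReal_mul, im_ofReal_mul]; simp; ring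

theorem A0_surj {lam : ℝ} (hl : 0 < lam) (w : ℂ) :
    A0 lam ⟨w.re / lam, w.im / (2 * π)⟩ = w := by
  apply Complex.ext
  · rw [A0_re]; field_simp
  · rw [A0_im]; field_simp

theorem A0_open {lam : ℝ} (hl : 0 < lam) (z : ℂ) : 𝓝 (A0 lam z) ≤ map (A0 lam) (𝓝 z) := by
  have hc : Continuous fun w : ℂ => (⟨w.re / lam, w.im / (2 * π)⟩ : ℂ) := by
    have : (fun w : ℂ => (⟨w.re / lam, w.im / (2 * π)⟩ : ℂ)) =
        fun w : ℂ => ((w.re / lam : ℝ) : ℂ) + ((w.im / (2 * π) : ℝ) : ℂ) * I := by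
      funext w
      exact mk_eq_add_mul_I _ _
    rw [this]; fun_prop
  intro s hs
  have h1 : (⟨(A0 lam z).re / lam, (A0 lam z).im / (2 * π)⟩ : ℂ) = z := by
    apply Complex.ext
    · simp only [A0_re]; field_simp
    · simp only [A0_im]; field_simp
  have h2 := hc.continuousAt (x := A0 lam z)
  rw [ContinuousAt, h1] at h2
  filter_upwards [h2 hs] with w hw
  have : A0 lam ⟨w.re / lam, w.im / (2 * π)⟩ ∈ s := hw
  rwa [A0_surj hl] at this

/-- the chart on one half plane -/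
structure St (hom : ℂ ≃ₜ ℂ) (n : ℕ) (lam t0 t : ℝ) (A : ℂ → ℂ) : Prop where
  cont : ContinuousOn A (Hs t)
  eq0 : ∀ z : ℂ, t0 ≤ z.re → A z = A0 lam z
  eqn : ∀ z ∈ Hs t, hom (exp (A z) ^ n) = exp (A (n * z))
  rot : ∀ z ∈ Hs t, A (z + I / n) = A z + 2 * π * I / n
  inj : ∀ z ∈ Hs t, ∀ z' ∈ Hs t, exp (A z) = exp (A z') → ∃ m : ℤ, z = z' + m * I
  opn : ∀ z ∈ Hs t, 𝓝 (A z) ≤ map A (𝓝 z)

theorem re_nat (n : ℕ) (z : ℂ) : ((n : ℂ) * z).re = n * z.re := by simp

theorem re_pow (n k : ℕ) (z : ℂ) : ((n : ℂ) ^ k * z).re = (n : ℝ) ^ k * z.re := by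
  rw [show ((n : ℂ) ^ k) = (((n : ℝ) ^ k : ℝ) : ℂ) by push_cast; rfl, re_ofReal_mul]

theorem re_rot (n : ℕ) (k : ℤ) (z : ℂ) : (z + k * (I / n)).re = z.re := by
  have h : (k * (I / n) : ℂ) = ((k * (n : ℝ)⁻¹ : ℝ) : ℂ) * I := by push_cast; ring
  rw [h, add_re, re_ofReal_mul]
  simp

theorem mul_mem {t : ℝ} (ht : 0 ≤ t) {n : ℕ} (hn : 1 ≤ n) {z : ℂ} (hz : z ∈ Hs t) :
    (n : ℂ) * z ∈ Hs t := by
  have h1 : (1 : ℝ) ≤ n := by exact_mod_cast hn
  have h2 : t < z.re := hz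
  show t < ((n : ℂ) * z).re
  rw [re_nat]
  nlinarith

theorem mul_mem' {t : ℝ} {n : ℕ} (hn : 1 ≤ n) {z : ℂ} (hz : z ∈ Hs (t / n)) :
    (n : ℂ) * z ∈ Hs t := by
  have h1 : (0 : ℝ) < n := by exact_mod_cast hn
  have h2 : t / n < z.re := hz
  show t < ((n : ℂ) * z).re
  rw [re_nat]
  rw [div_lt_iff₀ h1] at h2
  linarith

theorem rot_mem {t : ℝ} (n : ℕ) {z : ℂ} (hz : z ∈ Hs t) : z + I / n ∈ Hs t := by
  have h := re_rot n 1 z
  rw [Int.cast_one, one_mul] at h
  show t < (z + I / n).re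
  rw [h]
  exact hz

theorem rot_int {A : ℂ → ℂ} {t : ℝ} {n : ℕ}
    (rot : ∀ z ∈ Hs t, A (z + I / n) = A z + 2 * π * I / n) (m : ℤ) :
    ∀ z ∈ Hs t, A (z + m * (I / n)) = A z + m * (2 * π * I / n) := by
  have hmem : ∀ z ∈ Hs t, ∀ k : ℤ, z + k * (I / n) ∈ Hs t := by
    intro z hz k
    show t < (z + k * (I / n)).re
    rw [re_rot]
    exact hz
  intro z hz
  induction m using Int.induction_on with
  | zero => simp
  | succ k ih =>
    have := rot _ (hmem z hz k)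
    rw [ih] at this
    push_cast at this ⊢
    rw [show z + ((k : ℂ) + 1) * (I / n) = z + k * (I / n) + I / n by ring, this]
    ring
  | pred k ih =>
    have := rot _ (hmem z hz (-(k : ℤ) - 1))
    push_cast at this ih ⊢
    rw [show z + (-(k : ℂ) - 1) * (I / n) + I / n = z + -(k : ℂ) * (I / n) by ring, ih] at this
    linear_combination -this

section

variable {hom : ℂ ≃ₜ ℂ} {n : ℕ} {lam t0 : ℝ}

theorem iter_eq {A : ℂ → ℂ} {t : ℝ} (hn : 1 ≤ n) (ht : 0 ≤ t)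
    (eqn : ∀ z ∈ Hs t, hom (exp (A z) ^ n) = exp (A (n * z))) (k : ℕ) :
    ∀ z ∈ Hs t, (fun u => hom (u ^ n))^[k] (exp (A z)) = exp (A ((n : ℂ) ^ k * z)) := by
  induction k with
  | zero => intro z _; simp
  | succ k ih =>
    intro z hz
    rw [Function.iterate_succ_apply, eqn z hz, ih _ (mul_mem ht hn hz)]
    congr 2
    ring

theorem miss {A : ℂ → ℂ} {t M : ℝ} (hn : 2 ≤ n) (hl : 0 < lam) (ht : 0 ≤ t)
    (eq0 : ∀ z : ℂ, t0 ≤ z.re → A z = A0 lam z)
    (eqn : ∀ z ∈ Hs t, hom (exp (A z) ^ n) = exp (A (n * z)))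
    (hM : ∀ j, ‖(fun u => hom (u ^ n))^[j] 0‖ ≤ M) {z : ℂ} (hz : z ∈ Hs t) (j : ℕ) :
    exp (A z) ≠ (fun u => hom (u ^ n))^[j] 0 := by
  intro h
  have hz0 : 0 < z.re := lt_of_le_of_lt ht hz
  have h1 : (1 : ℝ) < n := by exact_mod_cast hn
  obtain ⟨k, hk⟩ := pow_unbounded_of_one_lt (max t0 (M / lam) / z.re) h1
  rw [div_lt_iff₀ hz0] at hk
  have hre := re_pow n k z
  have h2 := iter_eq (by omega) ht eqn k z hz
  rw [h, ← Function.iterate_add_apply, eq0 _ (by rw [hre]; linarith [le_max_left t0 (M / lam)])]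
    at h2
  have h3 := hM (k + j)
  rw [h2, norm_A0, hre] at h3
  have h4 : M / lam < (n : ℝ) ^ k * z.re := lt_of_le_of_lt (le_max_right _ _) hk
  rw [div_lt_iff₀ hl] at h4
  linarith [Real.add_one_le_exp (lam * ((n : ℝ) ^ k * z.re))]

theorem base (hl : 0 < lam)
    (hout : ∀ u : ℂ, Real.exp (lam * t0) ≤ ‖u‖ → hom (u ^ n) = u ^ n) :
    St hom n lam t0 t0 (A0 lam) where
  cont := (A0_cont lam).continuousOn
  eq0 := fun _ _ => rfl
  eqn := fun z hz => by
    have h : t0 < z.re := hz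
    rw [hout _ (by rw [norm_A0]; exact Real.exp_le_exp.2 (by nlinarith)), A0_mul, exp_nat_mul]
  rot := fun z _ => A0_rot lam n z
  inj := fun z _ z' _ h => by
    obtain ⟨m, hm⟩ := exp_eq_exp_iff_exists_int.1 h
    refine ⟨m, ?_⟩
    have h1 := congrArg re hm
    have h2 := congrArg im hm
    simp [A0_re, A0_im] at h1 h2
    apply Complex.ext
    · rcases h1 with h1 | h1
      · simpa using h1
      · exact absurd h1 hl.ne'
    · have : 2 * π * z.im = 2 * π * (z'.im + m) := by linarith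
      simpa using mul_left_cancel₀ (by positivity) this
  opn := fun z _ => A0_open hl z

theorem step {A : ℂ → ℂ} {t M : ℝ} (hn : 2 ≤ n) (hl : 0 < lam) (ht : 0 < t) (htt : t ≤ t0)
    (hout : ∀ u : ℂ, Real.exp (lam * t0) ≤ ‖u‖ → hom (u ^ n) = u ^ n)
    (hM : ∀ j, ‖(fun u => hom (u ^ n))^[j] 0‖ ≤ M) (h : St hom n lam t0 t A) :
    ∃ A', St hom n lam t0 (t / n) A' ∧ EqOn A' A (Hs t) := by
  have hn1 : 1 ≤ n := by omega
  have hnR : (1 : ℝ) < n := by exact_mod_cast hn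
  have hnC : (n : ℂ) ≠ 0 := by exact_mod_cast (by omega : n ≠ 0)
  have htn : t / n < t := div_lt_self ht hnR
  have hsub : Hs t ⊆ Hs (t / n) := Hs_mono htn.le
  have hfc : ContinuousOn (fun z => hom.symm (exp (A (n * z)))) (Hs (t / n)) := by
    refine hom.symm.continuous.comp_continuousOn (continuous_exp.comp_continuousOn ?_)
    exact h.cont.comp (by fun_prop) fun z hz => mul_mem' hn1 hz
  have hf0 : ∀ z ∈ Hs (t / n), hom.symm (exp (A (n * z))) ≠ 0 := by
    intro z hz h0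
    apply miss hn hl ht.le h.eq0 h.eqn hM (mul_mem' hn1 hz) 1
    have := congrArg hom h0
    rw [Homeomorph.apply_symm_apply] at this
    simp [this, zero_pow (by omega : n ≠ 0)]
  have hx : ((t0 + 1 : ℝ) : ℂ) ∈ Hs t := by
    show t < ((t0 + 1 : ℝ) : ℂ).re
    rw [ofReal_re]; linarith
  have hold : ∀ z ∈ Hs t, exp (n * A z) = hom.symm (exp (A (n * z))) := by
    intro z hz
    rw [← h.eqn z hz, Homeomorph.symm_apply_apply, exp_nat_mul]
  obtain ⟨l, hlc, hle, hlx⟩ := log_exists (Hs_convex _) (Hs_open _) hfc hf0 (hsub hx) (hold _ hx)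
  have heq : EqOn l (fun z => n * A z) (Hs t) :=
    log_uniq (Hs_convex t).isPreconnected (hlc.mono hsub) (continuousOn_const.mul h.cont)
      (fun z hz => by rw [hle z (hsub hz), hold z hz]) hx hlx
  have heq' : EqOn (fun z => l z / n) A (Hs t) := fun z hz => by
    simp only [heq hz]; field_simp
  have hpow : ∀ z : ℂ, exp (l z / n) ^ n = exp (l z) := fun z => by
    rw [← exp_nat_mul, mul_div_cancel₀ _ hnC]
  have heqn : ∀ z ∈ Hs (t / n), hom (exp (l z / n) ^ n) = exp (l (n * z) / n) := by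
    intro z hz
    have := heq' (mul_mem' hn1 hz)
    simp only at this
    rw [hpow, hle z hz, Homeomorph.apply_symm_apply, this]
  have hper : ∀ z ∈ Hs t, exp (A (z + I)) = exp (A z) := by
    intro z hz
    have := rot_int h.rot n z hz
    push_cast at this
    rw [mul_div_cancel₀ _ hnC, mul_div_cancel₀ _ hnC] at this
    rw [this, exp_add, exp_two_pi_mul_I, mul_one]
  have hrot : ∀ z ∈ Hs (t / n), l (z + I / n) / n = l z / n + 2 * π * I / n := by
    have : EqOn (fun z => l (z + I / n)) (fun z => l z + 2 * π * I) (Hs (t / n)) := by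
      refine log_uniq (Hs_convex _).isPreconnected
        (hlc.comp (by fun_prop) fun z hz => rot_mem n hz) (hlc.add continuousOn_const)
        (fun z hz => ?_) (hsub hx) ?_
      · rw [exp_add, exp_two_pi_mul_I, mul_one, hle _ (rot_mem n hz), hle z hz, mul_add,
          mul_div_cancel₀ _ hnC, hper _ (mul_mem' hn1 hz)]
      · have e1 := heq (rot_mem n hx)
        have e2 := heq hx
        simp only at e1 e2
        rw [e1, e2, h.rot _ hx, mul_add, mul_div_cancel₀ _ hnC]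
    intro z hz
    have := this hz
    simp only at this
    rw [this, add_div]
  refine ⟨fun z => l z / n, ⟨hlc.div_const _, ?_, heqn, hrot, ?_, ?_⟩, heq'⟩
  · have hc : Convex ℝ {z : ℂ | t0 ≤ z.re} := convex_halfSpace_re_ge t0
    have hs : {z : ℂ | t0 ≤ z.re} ⊆ Hs (t / n) := fun z hz =>
      lt_of_lt_of_le (lt_of_lt_of_le htn htt) hz
    have hx' : ((t0 + 1 : ℝ) : ℂ) ∈ {z : ℂ | t0 ≤ z.re} := by
      show t0 ≤ ((t0 + 1 : ℝ) : ℂ).re
      rw [ofReal_re]; linarith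
    have : EqOn l (fun z => n * A0 lam z) {z : ℂ | t0 ≤ z.re} := by
      refine log_uniq hc.isPreconnected (hlc.mono hs)
        (continuous_const.mul (A0_cont lam)).continuousOn (fun z hz => ?_) hx' ?_
      · have hz' : t0 ≤ z.re := hz
        have hnz : t0 ≤ ((n : ℂ) * z).re := by
          rw [re_nat]; nlinarith
        rw [hle z (hs hz), h.eq0 _ hnz, A0_mul, exp_nat_mul, Homeomorph.symm_apply_eq,
          hout _ (by rw [norm_A0]; exact Real.exp_le_exp.2 (by nlinarith))]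
      · rw [hlx, h.eq0 _ hx']
    intro z hz
    simp only [this hz]
    field_simp
  · intro z hz z' hz' he
    have h1 : exp (l (n * z) / n) = exp (l (n * z') / n) := by
      rw [← heqn z hz, ← heqn z' hz', he]
    have a1 := heq' (mul_mem' hn1 hz)
    have a2 := heq' (mul_mem' hn1 hz')
    simp only at a1 a2
    rw [a1, a2] at h1
    obtain ⟨m, hm⟩ := h.inj _ (mul_mem' hn1 hz) _ (mul_mem' hn1 hz') h1
    have hzz : z = z' + m * (I / n) := by
      apply mul_left_cancel₀ hnC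
      rw [hm]; field_simp
    have h2 := rot_int (A := fun z => l z / n) hrot m z' hz'
    rw [← hzz] at h2
    obtain ⟨k, hk⟩ := exp_eq_exp_iff_exists_int.1 he
    rw [h2] at hk
    have h3 : (m : ℂ) * (2 * π * I / n) = k * (2 * π * I) := add_left_cancel hk
    have h4 : (m : ℂ) = k * n := by
      have hne : (2 * π * I : ℂ) ≠ 0 := two_pi_I_ne_zero
      field_simp at h3
      linear_combination h3
    refine ⟨k, ?_⟩
    rw [hzz, h4]
    field_simp
  · intro z hz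
    have hca : ContinuousAt l z := hlc.continuousAt ((Hs_open _).mem_nhds hz)
    have h1 : 𝓝 (l z) ≤ map l (𝓝 z) := by
      refine open_log hca ?_
      have hev : (fun x => exp (l x)) =ᶠ[𝓝 z] fun x => hom.symm (exp (A (n * x))) := by
        filter_upwards [(Hs_open _).mem_nhds hz] with x hx using hle x hx
      rw [map_congr hev, hle z hz]
      have b1 : map (fun x : ℂ => (n : ℂ) * x) (𝓝 z) = 𝓝 (n * z) :=
        (Homeomorph.mulLeft₀ (n : ℂ) hnC).map_nhds_eq z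
      calc 𝓝 (hom.symm (exp (A (n * z)))) = map hom.symm (map exp (𝓝 (A (n * z)))) := by
            rw [exp_nhds, Homeomorph.map_nhds_eq]
        _ ≤ map hom.symm (map exp (map A (map (fun x : ℂ => (n : ℂ) * x) (𝓝 z)))) := by
            rw [b1]
            exact map_mono (map_mono (h.opn _ (mul_mem' hn1 hz)))
        _ = _ := rfl
    have b2 : map (fun x : ℂ => x / n) (𝓝 (l z)) = 𝓝 (l z / n) :=
      (Homeomorph.mulRight₀ (n : ℂ)⁻¹ (inv_ne_zero hnC)).map_nhds_eq (l z)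
    rw [← b2]
    exact map_mono h1

theorem exists_log {M : ℝ} (hn : 2 ≤ n) (hl : 0 < lam) (ht : 0 < t0)
    (hout : ∀ u : ℂ, Real.exp (lam * t0) ≤ ‖u‖ → hom (u ^ n) = u ^ n)
    (hM : ∀ j, ‖(fun u => hom (u ^ n))^[j] 0‖ ≤ M) : ∃ A, St hom n lam t0 0 A := by
  have hnR : (1 : ℝ) < n := by exact_mod_cast hn
  have hpos : ∀ k : ℕ, 0 < t0 / (n : ℝ) ^ k := fun k => by positivity
  have hle : ∀ k : ℕ, t0 / (n : ℝ) ^ k ≤ t0 := fun k => div_le_self ht.le (one_le_pow₀ hnR.le)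
  have hst : ∀ (k : ℕ) (A : ℂ → ℂ), St hom n lam t0 (t0 / (n : ℝ) ^ k) A →
      ∃ A', St hom n lam t0 (t0 / (n : ℝ) ^ (k + 1)) A' ∧ EqOn A' A (Hs (t0 / (n : ℝ) ^ k)) := by
    intro k A h
    have := step hn hl (hpos k) (hle k) hout hM h
    rwa [div_div, ← pow_succ] at this
  choose! nx hnx using hst
  let F : ℕ → ℂ → ℂ := fun k => Nat.rec (A0 lam) nx k
  have hF : ∀ k, St hom n lam t0 (t0 / (n : ℝ) ^ k) (F k) := by
    intro k
    induction k with
    | zero =>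
      rw [pow_zero, div_one]
      exact base hl hout
    | succ k ih => exact (hnx k _ ih).1
  have hmono : ∀ k j : ℕ, k ≤ j → Hs (t0 / (n : ℝ) ^ k) ⊆ Hs (t0 / (n : ℝ) ^ j) := by
    intro k j hkj
    exact Hs_mono (div_le_div_of_nonneg_left ht.le (by positivity) (pow_le_pow_right₀ hnR.le hkj))
  have hco : ∀ k j : ℕ, k ≤ j → EqOn (F j) (F k) (Hs (t0 / (n : ℝ) ^ k)) := by
    intro k j hkj
    induction j, hkj using Nat.le_induction with
    | base => exact fun _ _ => rfl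
    | succ j hkj ih => exact fun z hz => ((hnx j _ (hF j)).2 (hmono k j hkj hz)).trans (ih hz)
  have hex : ∀ z ∈ Hs 0, ∃ k : ℕ, z ∈ Hs (t0 / (n : ℝ) ^ k) := by
    intro z hz
    have hz0 : 0 < z.re := hz
    obtain ⟨k, hk⟩ := pow_unbounded_of_one_lt (t0 / z.re) hnR
    refine ⟨k, ?_⟩
    show t0 / (n : ℝ) ^ k < z.re
    rw [div_lt_iff₀ hz0] at hk
    rw [div_lt_iff₀ (by positivity)]
    linarith
  choose! kk hkk using hex
  have hA : ∀ k : ℕ, EqOn (fun z => F (kk z) z) (F k) (Hs (t0 / (n : ℝ) ^ k)) := by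
    intro k z hz
    have hz0 : z ∈ Hs 0 := Hs_mono (hpos k).le hz
    rcases le_total k (kk z) with h | h
    · exact hco k _ h hz
    · exact (hco _ k h (hkk z hz0)).symm
  have hev : ∀ k : ℕ, ∀ z ∈ Hs (t0 / (n : ℝ) ^ k), (fun z => F (kk z) z) =ᶠ[𝓝 z] F k := by
    intro k z hz
    filter_upwards [(Hs_open _).mem_nhds hz] with x hx using hA k hx
  refine ⟨fun z => F (kk z) z, ?_, fun z hz => (hF _).eq0 z hz, ?_, ?_, ?_, ?_⟩
  · intro z hz
    have h1 := hkk z hz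
    exact (((hF _).cont.continuousAt ((Hs_open _).mem_nhds h1)).congr
      (hev _ z h1).symm).continuousWithinAt
  · intro z hz
    have h1 := hkk z hz
    have h2 := hA _ (mul_mem (hpos _).le (by omega : 1 ≤ n) h1)
    simp only at h2 ⊢
    rw [h2]
    exact (hF _).eqn z h1
  · intro z hz
    have h1 := hkk z hz
    have h2 := hA _ (rot_mem n h1)
    simp only at h2 ⊢
    rw [h2]
    exact (hF _).rot z h1
  · intro z hz z' hz' he
    have h1 := hmono _ _ (le_max_left (kk z) (kk z')) (hkk z hz)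
    have h2 := hmono _ _ (le_max_right (kk z) (kk z')) (hkk z' hz')
    have a1 := hA _ h1
    have a2 := hA _ h2
    simp only at a1 a2 he
    rw [a1, a2] at he
    exact (hF _).inj z h1 z' h2 he
  · intro z hz
    have h1 := hkk z hz
    rw [map_congr (hev _ z h1)]
    exact (hF _).opn z h1

/-- points of potential at least `t` -/
def Ex (B : ℂ → ℂ) (t : ℝ) : Set ℂ := B '' {z | t ≤ z.re}

namespace St

variable {A : ℂ → ℂ} (h : St hom n lam t0 0 A)
include h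

theorem contB : ContinuousOn (fun z => exp (A z)) (Hs 0) :=
  continuous_exp.comp_continuousOn h.cont

theorem rotB {z : ℂ} (hz : z ∈ Hs 0) (m : ℤ) :
    exp (A (z + m * (I / n))) = exp (2 * π * I / n) ^ m * exp (A z) := by
  rw [rot_int h.rot m z hz, exp_add, exp_int_mul, mul_comm]

theorem perB (hn : 1 ≤ n) {z : ℂ} (hz : z ∈ Hs 0) (m : ℤ) : exp (A (z + m * I)) = exp (A z) := by
  have hnC : (n : ℂ) ≠ 0 := by exact_mod_cast (by omega : n ≠ 0)
  have h1 := rot_int h.rot (m * n) z hz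
  push_cast at h1
  rw [mul_assoc, mul_assoc, mul_div_cancel₀ _ hnC, mul_div_cancel₀ _ hnC] at h1
  rw [h1, exp_add, exp_int_mul_two_pi_mul_I, mul_one]

theorem opnB {z : ℂ} (hz : z ∈ Hs 0) : map (fun z => exp (A z)) (𝓝 z) = 𝓝 (exp (A z)) := by
  refine le_antisymm (h.contB.continuousAt ((Hs_open 0).mem_nhds hz)) ?_
  rw [← exp_nhds]
  exact map_mono (h.opn z hz)

theorem image_open {U : Set ℂ} (hU : IsOpen U) (hs : U ⊆ Hs 0) :
    IsOpen ((fun z => exp (A z)) '' U) := by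
  rw [isOpen_iff_mem_nhds]
  rintro _ ⟨z, hz, rfl⟩
  rw [← h.opnB (hs hz)]
  exact image_mem_map (hU.mem_nhds hz)

theorem iterB (hn : 1 ≤ n) (k : ℕ) {z : ℂ} (hz : z ∈ Hs 0) :
    (fun u => hom (u ^ n))^[k] (exp (A z)) = exp (A ((n : ℂ) ^ k * z)) :=
  iter_eq hn le_rfl h.eqn k z hz

/-- every preimage of a point of the chart is a point of the chart -/
theorem lift (hn : 1 ≤ n) {z u : ℂ} (hz : z ∈ Hs 0) (hu : hom (u ^ n) = exp (A (n * z))) :
    ∃ m : ℤ, u = exp (A (z + m * (I / n))) := by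
  have hnC : (n : ℂ) ≠ 0 := by exact_mod_cast (by omega : n ≠ 0)
  rw [← h.eqn z hz] at hu
  have h1 : u ^ n = exp (A z) ^ n := hom.injective hu
  have hu0 : u ≠ 0 := by
    rintro rfl
    rw [zero_pow (by omega)] at h1
    exact pow_ne_zero n (exp_ne_zero _) h1.symm
  rw [← exp_log hu0, ← exp_nat_mul, ← exp_nat_mul] at h1
  obtain ⟨m, hm⟩ := exp_eq_exp_iff_exists_int.1 h1
  refine ⟨m, ?_⟩
  rw [rot_int h.rot m z hz, ← exp_log hu0]
  congr 1
  apply mul_left_cancel₀ hnC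
  rw [hm]
  field_simp

theorem ex_step (hn : 1 ≤ n) {t : ℝ} (ht : 0 < t) (u : ℂ) :
    hom (u ^ n) ∈ Ex (fun z => exp (A z)) (n * t) ↔ u ∈ Ex (fun z => exp (A z)) t := by
  have hnR : (0 : ℝ) < n := by exact_mod_cast hn
  have hnC : (n : ℂ) ≠ 0 := by exact_mod_cast (by omega : n ≠ 0)
  constructor
  · rintro ⟨w, hw, he⟩
    have hw' : n * t ≤ w.re := hw
    have h1 : (n : ℂ) * (w / n) = w := mul_div_cancel₀ _ hnC
    have h2 : t ≤ (w / n).re := by
      have := re_nat n (w / n)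
      rw [h1] at this
      rw [this] at hw'
      exact le_of_mul_le_mul_left hw' hnR
    obtain ⟨m, hm⟩ := h.lift hn (z := w / n) (u := u) (lt_of_lt_of_le ht h2)
      (by rw [h1]; exact he.symm)
    exact ⟨_, by show t ≤ _; rw [re_rot]; exact h2, hm.symm⟩
  · rintro ⟨z, hz, rfl⟩
    have hz' : t ≤ z.re := hz
    refine ⟨n * z, ?_, (h.eqn z (lt_of_lt_of_le ht hz')).symm⟩
    show n * t ≤ _
    rw [re_nat]
    exact mul_le_mul_of_nonneg_left hz' hnR.le

theorem ex_iter (hn : 1 ≤ n) (k : ℕ) : ∀ {t : ℝ}, 0 < t → ∀ u : ℂ,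
    ((fun u => hom (u ^ n))^[k] u ∈ Ex (fun z => exp (A z)) ((n : ℝ) ^ k * t) ↔
      u ∈ Ex (fun z => exp (A z)) t) := by
  have hnR : (0 : ℝ) < n := by exact_mod_cast hn
  induction k with
  | zero => intro t _ u; simp
  | succ k ih =>
    intro t ht u
    rw [Function.iterate_succ_apply, pow_succ, mul_assoc, ih (mul_pos hnR ht), h.ex_step hn ht]

theorem ex_round (hl : 0 < lam) {t : ℝ} (ht : t0 ≤ t) :
    Ex (fun z => exp (A z)) t = {u | Real.exp (lam * t) ≤ ‖u‖} := by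
  ext u
  constructor
  · rintro ⟨z, hz, rfl⟩
    have hz' : t ≤ z.re := hz
    show Real.exp (lam * t) ≤ ‖exp (A z)‖
    rw [h.eq0 z (ht.trans hz'), norm_A0]
    exact Real.exp_le_exp.2 (by nlinarith)
  · intro hu
    have hu' : Real.exp (lam * t) ≤ ‖u‖ := hu
    have hu0 : u ≠ 0 := by
      rintro rfl
      rw [norm_zero] at hu'
      exact absurd hu' (not_le.2 (Real.exp_pos _))
    have h1 : t ≤ (log u).re / lam := by
      rw [le_div_iff₀ hl, log_re, Real.le_log_iff_exp_le (norm_pos_iff.2 hu0), mul_comm]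
      exact hu'
    refine ⟨⟨(log u).re / lam, (log u).im / (2 * π)⟩, h1, ?_⟩
    show exp (A _) = u
    rw [h.eq0 _ (ht.trans h1), A0_surj hl, exp_log hu0]

theorem ex_closed (hn : 2 ≤ n) (hl : 0 < lam) {t : ℝ} (ht : 0 < t) :
    IsClosed (Ex (fun z => exp (A z)) t) := by
  have hnR : (1 : ℝ) < n := by exact_mod_cast hn
  obtain ⟨k, hk⟩ := pow_unbounded_of_one_lt (t0 / t) hnR
  rw [div_lt_iff₀ ht] at hk
  have h1 : Ex (fun z => exp (A z)) t = (fun u => hom (u ^ n))^[k] ⁻¹'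
      {u | Real.exp (lam * ((n : ℝ) ^ k * t)) ≤ ‖u‖} := by
    ext u
    rw [← h.ex_round hl hk.le, mem_preimage, h.ex_iter (by omega) k ht]
  rw [h1]
  have hc : Continuous fun u : ℂ => hom (u ^ n) := hom.continuous.comp (continuous_pow n)
  exact (isClosed_le continuous_const continuous_norm).preimage (hc.iterate k)

end St

/-- The chart, all properties in one statement. -/
theorem chart {M : ℝ} (hn : 2 ≤ n) (hl : 0 < lam) (ht : 0 < t0)
    (hout : ∀ u : ℂ, Real.exp (lam * t0) ≤ ‖u‖ → hom (u ^ n) = u ^ n)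
    (hM : ∀ j, ‖(fun u => hom (u ^ n))^[j] 0‖ ≤ M) : ∃ B : ℂ → ℂ,
    ContinuousOn B {z | 0 < z.re} ∧
    (∀ z : ℂ, 0 < z.re → map B (𝓝 z) = 𝓝 (B z)) ∧
    (∀ z z' : ℂ, 0 < z.re → 0 < z'.re → B z = B z' → ∃ m : ℤ, z = z' + m * I) ∧
    (∀ z : ℂ, 0 < z.re → ∀ m : ℤ, B (z + m * I) = B z) ∧
    (∀ z : ℂ, 0 < z.re → hom (B z ^ n) = B (n * z)) ∧
    (∀ z : ℂ, 0 < z.re → B (z + I / n) = exp (2 * π * I / n) * B z) ∧
    (∀ z : ℂ, t0 ≤ z.re → B z = (Real.exp (lam * z.re) : ℝ) * exp (2 * π * I * z.im)) ∧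
    (∀ t, 0 < t → IsClosed (B '' {z | t ≤ z.re})) ∧
    (∀ t, t0 ≤ t → B '' {z | t ≤ z.re} = {u | Real.exp (lam * t) ≤ ‖u‖}) ∧
    (∀ t, 0 < t → ∀ (k : ℕ) (u : ℂ), (fun u => hom (u ^ n))^[k] u ∈
      B '' {z | (n : ℝ) ^ k * t ≤ z.re} ↔ u ∈ B '' {z | t ≤ z.re}) ∧
    ∀ z : ℂ, 0 < z.re → ∀ j, B z ≠ (fun u => hom (u ^ n))^[j] 0 := by
  obtain ⟨A, h⟩ := exists_log hn hl ht hout hM
  have hn1 : 1 ≤ n := by omega
  refine ⟨fun z => exp (A z), h.contB, fun z hz => h.opnB hz, fun z z' hz hz' => h.inj z hz z' hz',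
    fun z hz m => h.perB hn1 hz m, h.eqn, fun z hz => ?_, fun z hz => ?_,
    fun t ht => h.ex_closed hn hl ht, fun t ht => h.ex_round hl ht,
    fun t ht k u => h.ex_iter hn1 k ht u, fun z hz j => miss hn hl le_rfl h.eq0 h.eqn hM hz j⟩
  · show exp (A _) = _
    rw [h.rot z hz, exp_add, mul_comm]
  · show exp (A _) = _
    rw [h.eq0 z hz, A0, exp_add, ofReal_exp]

end

end RT45
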