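import Pool.Agent.Lib.MP_c35c17_an.Cor

/-! Push-forward of quadratic differentials under a polynomial-like map. -/

set_option autoImplicit false

open Filter Topology Set Metric MeasureTheory Complex
open scoped ENNReal

namespace RT6

open Pool.Agent.Lib.MP_c35c17_an

theorem image_holo {s : Set ℂ} (hs : MeasurableSet s) {f f' : ℂ → ℂ}
    (hf : ∀ z ∈ s, HasDerivAt f (f' z) z) (hi : InjOn f s) (g : ℂ → ℝ≥0∞) :
    ∫⁻ x in f '' s, g x = ∫⁻ x in s, ‖f' x ^ 2‖ₑ * g (f x) := by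
  rw [lintegral_image_eq_lintegral_abs_det_fderiv_mul volume hs
    (fun x hx => ((hf x hx).hasFDerivAt.restrictScalars ℝ).hasFDerivWithinAt) hi]
  refine lintegral_congr fun x => ?_
  congr 1
  rw [← ofReal_norm]
  congr 1
  simp [ContinuousLinearMap.det, LinearMap.det_restrictScalars, Algebra.norm_complex_eq,
    Complex.normSq_eq_norm_sq]

theorem exists_meas {V : Set ℂ} (hV : IsOpen V) {φ : ℂ → ℂ} (h : DifferentiableOn ℂ φ V) :
    ∃ ψ : ℂ → ℂ, Measurable ψ ∧ DifferentiableOn ℂ ψ V ∧ EqOn ψ φ V := by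
  classical
  have e : EqOn (V.piecewise φ 0) φ V := piecewise_eqOn V φ 0
  exact ⟨_, h.continuousOn.measurable_piecewise continuousOn_const hV.measurableSet, h.congr e, e⟩

/-- the symmetrisation under rotations -/
noncomputable def psi (n : ℕ) (ω : ℂ) (H : ℂ → ℂ) (w : ℂ) : ℂ :=
  ∑ t ∈ Finset.range n, (ω ^ t * w) ^ 2 * H (ω ^ t * w)

section pow
variable {n : ℕ} {ω : ℂ}

theorem psi_inv (hn : n ≠ 0) (hω : IsPrimitiveRoot ω n) (H : ℂ → ℂ) {w w' : ℂ}
    (e : w' ^ n = w ^ n) : psi n ω H w' = psi n ω H w := by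
  have h1 (w : ℂ) : psi n ω H (ω * w) = psi n ω H w := by
    have a := Finset.sum_range_succ (fun t => (ω ^ t * w) ^ 2 * H (ω ^ t * w)) n
    rw [Finset.sum_range_succ', hω.pow_eq_one, pow_zero, add_left_inj] at a
    simpa only [psi, pow_succ, mul_assoc] using a
  have h2 (s : ℕ) : psi n ω H (ω ^ s * w) = psi n ω H w := by
    induction s with
    | zero => simp
    | succ s ih => rw [pow_succ', mul_assoc, h1, ih]
  rcases eq_or_ne w 0 with rfl | h0
  · rw [zero_pow hn] at e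
    rw [eq_zero_of_pow_eq_zero e]
  have : NeZero n := ⟨hn⟩
  obtain ⟨s, -, hs⟩ := hω.eq_pow_of_pow_eq_one (ξ := w' / w)
    (by rw [div_pow, e, div_self (pow_ne_zero _ h0)])
  rw [← h2 s, hs, div_mul_cancel₀ _ h0]

theorem rot_pow (hω : IsPrimitiveRoot ω n) (t : ℕ) (w : ℂ) : (ω ^ t * w) ^ n = w ^ n := by
  rw [mul_pow, ← pow_mul, mul_comm t n, pow_mul, hω.pow_eq_one, one_pow, one_mul]

/-- descent of the symmetrisation -/
theorem descent (hn : n ≠ 0) (hω : IsPrimitiveRoot ω n) {W : Set ℂ} (hW : IsOpen W) {φ : ℂ → ℂ}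
    (hφ : DifferentiableOn ℂ φ {w | w ^ n ∈ W}) :
    DifferentiableOn ℂ (fun y => psi n ω φ (y ^ (n⁻¹ : ℂ))) W := by
  have hO : IsOpen {w : ℂ | w ^ n ∈ W} := hW.preimage (continuous_pow n)
  have h1 (w : ℂ) (hw : w ^ n ∈ W) : DifferentiableAt ℂ (psi n ω φ) w := by
    refine DifferentiableAt.fun_sum fun t _ => .mul (by fun_prop) ?_
    exact (hφ.differentiableAt (hO.mem_nhds (by
      rw [mem_ofPred_eq, rot_pow hω]; exact hw))).comp w (by fun_prop)
  have h2 (y : ℂ) (hy : y ∈ W) (h0 : y ≠ 0) :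
      DifferentiableAt ℂ (fun y => psi n ω φ (y ^ (n⁻¹ : ℂ))) y := by
    have e : (fun x => psi n ω φ (x ^ (n⁻¹ : ℂ))) =
        fun x => psi n ω φ (y ^ (n⁻¹ : ℂ) * (x / y) ^ (n⁻¹ : ℂ)) := funext fun x =>
      psi_inv hn hω _ (by simp only [mul_pow, cpow_nat_inv_pow _ hn, mul_div_cancel₀ _ h0])
    rw [e]
    refine (h1 _ ?_).comp y (((differentiableAt_id.div_const y).cpow_const ?_).const_mul _)
    · simpa only [mul_pow, cpow_nat_inv_pow _ hn, mul_div_cancel₀ _ h0] using hy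
    · simp [h0]
  by_cases h0 : (0 : ℂ) ∈ W
  · refine (differentiableOn_compl_singleton_and_continuousAt_iff (hW.mem_nhds h0)).mp
      ⟨fun y hy => (h2 y hy.1 hy.2).differentiableWithinAt, ?_⟩
    refine (h1 _ (by rwa [cpow_nat_inv_pow _ hn])).continuousAt.comp
      (continuousAt_cpow_const_of_re_pos (by simp) ?_)
    simpa using Nat.pos_of_ne_zero hn
  · exact fun y hy => (h2 y hy fun e => h0 (e ▸ hy)).differentiableWithinAt

end pow

/-- a simple pole under a conformal change of variable -/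
theorem pole {V : Set ℂ} (hV : IsOpen V) {h : ℂ → ℂ} (hh : DifferentiableOn ℂ h V) (hi : InjOn h V)
    {x₀ : ℂ} (h0 : x₀ ∈ V) (hd : deriv h x₀ ≠ 0) : ∃ E : ℂ → ℂ, DifferentiableOn ℂ E V ∧
      ∀ x ∈ V, x ≠ x₀ → deriv h x ^ 2 * (h x - h x₀)⁻¹ = deriv h x₀ * (x - x₀)⁻¹ + E x := by
  have n1 (x : ℂ) (hx : x ∈ V) : dslope h x₀ x ≠ 0 := by
    rcases eq_or_ne x x₀ with rfl | e
    · rwa [dslope_same]
    · rw [dslope_of_ne _ e, slope_def_field]
      exact div_ne_zero (sub_ne_zero.mpr fun e' => e (hi hx h0 e')) (sub_ne_zero.mpr e)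
  refine ⟨dslope (fun x => deriv h x ^ 2 / dslope h x₀ x) x₀,
    (differentiableOn_dslope (hV.mem_nhds h0)).mpr (((hh.deriv hV).pow 2).div
      ((differentiableOn_dslope (hV.mem_nhds h0)).mpr hh) n1), fun x hx e => ?_⟩
  have n2 := sub_ne_zero.mpr e
  have n3 : h x - h x₀ ≠ 0 := sub_ne_zero.mpr fun e' => e (hi hx h0 e')
  rw [dslope_of_ne _ e, slope_def_field, dslope_same, dslope_of_ne _ e, slope_def_field]
  field_simp
  ring

/-- a polynomial-like map with the orbit of its critical value -/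
structure PL (n : ℕ) (hom : ℂ ≃ₜ ℂ) (R ρ Λ : ℝ) (c a : ℕ → ℂ) (M : ℕ) : Prop where
  hn : 2 ≤ n
  one : 1 ≤ ρ
  two : 2 * ρ ≤ R
  dinv : DifferentiableOn ℂ hom.symm (ball 0 R)
  dhom : DifferentiableOn ℂ hom (hom ⁻¹' ball 0 R)
  sub : ∀ u, ‖hom (u ^ n)‖ < R → ‖u‖ < ρ
  lip : ∀ u, ‖hom (u ^ n)‖ < R → ‖deriv (fun u => hom (u ^ n)) u‖ ≤ Λ
  c0 : c 0 = hom 0
  cs : ∀ k, c (k + 1) = hom (c k ^ n)
  cb : ∀ k, ‖c k‖ < R
  a0 : a 0 = 1
  as : ∀ k < M, a (k + 1) * deriv (fun u => hom (u ^ n)) (c k) = a k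

/-- the Cauchy transform of the weighted orbit -/
noncomputable def Hn (c a : ℕ → ℂ) (N : ℕ) (x : ℂ) : ℂ :=
  ∑ k ∈ Finset.range N, a k * (x - c k)⁻¹

theorem Hn_meas (c a : ℕ → ℂ) (N : ℕ) : Measurable (Hn c a N) := by unfold Hn; fun_prop

namespace PL

variable {n : ℕ} {hom : ℂ ≃ₜ ℂ} {R ρ Λ : ℝ} {c a : ℕ → ℂ} {M : ℕ} (h : PL n hom R ρ Λ c a M)
include h

theorem a_ne {k : ℕ} (hk : k ≤ M) : a k ≠ 0 := by
  induction k with
  | zero => rw [h.a0]; exact one_ne_zero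
  | succ k ih => exact left_ne_zero_of_mul (h.as k hk ▸ ih (by omega))

theorem cρ (k : ℕ) : ‖c k‖ < ρ := h.sub _ (h.cs k ▸ h.cb _)

theorem dAt {y : ℂ} (hy : ‖hom y‖ < R) : DifferentiableAt ℂ hom y :=
  h.dhom.differentiableAt ((isOpen_ball.preimage hom.continuous).mem_nhds
    (mem_ball_zero_iff.mpr hy))

theorem dd {y : ℂ} (hy : ‖hom y‖ < R) : deriv hom.symm (hom y) * deriv hom y = 1 := by
  rw [← deriv_comp y (h.dinv.differentiableAt (isOpen_ball.mem_nhds (mem_ball_zero_iff.mpr hy)))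
    (h.dAt hy), show hom.symm ∘ hom = id from funext hom.symm_apply_apply, deriv_id]

theorem hasG {u : ℂ} (hu : ‖hom (u ^ n)‖ < R) :
    HasDerivAt (fun u => hom (u ^ n)) (deriv hom (u ^ n) * (n * u ^ (n - 1))) u :=
  (h.dAt hu).hasDerivAt.comp u (hasDerivAt_pow n u)

theorem push {φ : ℂ → ℂ} (hm : Measurable φ)
    (hφ : DifferentiableOn ℂ φ {u | ‖hom (u ^ n)‖ < R}) :
    ∃ (s : ℂ) (φ' : ℂ → ℂ), Measurable φ' ∧ DifferentiableOn ℂ φ' (ball 0 R) ∧
      ∀ U ⊆ ball (0 : ℂ) R, MeasurableSet U →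
        ∫⁻ x in U, ‖Hn c a (M + 1) x - s * (x - c 0)⁻¹ + φ' x‖ₑ ≤
          ∫⁻ x in (fun u => hom (u ^ n)) ⁻¹' U, ‖Hn c a M x + φ x‖ₑ := by
  have hn := h.hn
  have hn0 : n ≠ 0 := by omega
  have hnc : (n : ℂ) ≠ 0 := by exact_mod_cast hn0
  have hω := Complex.isPrimitiveRoot_exp n hn0
  set ω := Complex.exp (2 * Real.pi * I / n)
  have hW : IsOpen (hom ⁻¹' ball 0 R) := isOpen_ball.preimage hom.continuous
  have hR (k : ℕ) : c k ∈ ball (0 : ℂ) R := mem_ball_zero_iff.mpr (h.cb k)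
  have h0 : (0 : ℂ) ∈ hom ⁻¹' ball 0 R := by rw [mem_preimage, ← h.c0]; exact hR 0
  have hd := descent hn0 hω hW (φ := φ) (by simpa using hφ)
  set Ψ := fun y => psi n ω φ (y ^ (n⁻¹ : ℂ)) with hΨ
  have Ψ0 : Ψ 0 = 0 := by simp [hΨ, psi, hn0]
  have hd2 : DifferentiableOn ℂ (dslope (dslope Ψ 0) 0) (hom ⁻¹' ball 0 R) :=
    (differentiableOn_dslope (hW.mem_nhds h0)).mpr
      ((differentiableOn_dslope (hW.mem_nhds h0)).mpr hd)
  have e1 (k : ℕ) : hom.symm (c (k + 1)) = c k ^ n := by rw [h.cs, hom.symm_apply_apply]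
  have e0 : hom.symm (c 0) = 0 := by rw [h.c0, hom.symm_apply_apply]
  have hD (k : ℕ) : deriv hom.symm (c k) ≠ 0 := by
    have := h.dd (y := hom.symm (c k)) (by simpa using h.cb k)
    rw [hom.apply_symm_apply] at this
    exact left_ne_zero_of_mul_eq_one this
  have e2 (k : ℕ) (hM : k < M) : a (k + 1) * (n * c k ^ (n - 1)) = a k * deriv hom.symm (c (k + 1)) := by
    have hk : ‖hom (c k ^ n)‖ < R := h.cs k ▸ h.cb _
    have := h.as k hM
    rw [(h.hasG hk).deriv] at this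
    rw [← this, h.cs]
    linear_combination (-(a (k + 1) * (n * c k ^ (n - 1)))) * h.dd hk
  have c0 (k : ℕ) (hM : k < M) : c k ≠ 0 := fun e => by
    have := e2 k hM
    rw [e, zero_pow (by omega), mul_zero, mul_zero] at this
    exact mul_ne_zero (h.a_ne hM.le) (hD _) this.symm
  choose E hE hE' using fun k => pole isOpen_ball h.dinv hom.symm.injective.injOn (hR k) (hD k)
  set β : ℕ → ℂ := fun k => a k / (n * c k ^ (n - 1)) with hβ
  set r : ℂ := dslope Ψ 0 0 / n ^ 2 - ∑ k ∈ Finset.range M, β k with hr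
  obtain ⟨φ', m', d', e'⟩ := exists_meas isOpen_ball (φ := fun x =>
    ∑ k ∈ Finset.range M, β k * E (k + 1) x + r * E 0 x +
      deriv hom.symm x ^ 2 * dslope (dslope Ψ 0) 0 (hom.symm x) / n ^ 2)
    (((DifferentiableOn.fun_sum fun k _ => (hE _).const_mul _).add ((hE 0).const_mul _)).add
      ((((h.dinv.deriv isOpen_ball).pow 2).mul (hd2.comp h.dinv fun x hx => by
        simpa using hx)).div_const _))
  refine ⟨1 - r * deriv hom.symm (c 0), φ', m', d', fun U hU hUm => ?_⟩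
  set P : ℂ → ℂ := fun y => psi n ω (fun x => Hn c a M x + φ x) (y ^ (n⁻¹ : ℂ)) / (n * y) ^ 2
    with hP
  have ht := transfer hn 0 hω ((Hn_meas c a M).add hm) (G := P) (V := hom ⁻¹' U) (by
    filter_upwards [compl_mem_ae_iff.mpr (measure_singleton (0 : ℂ))] with w hw
    have hw : w ≠ 0 := hw
    simp only [hP, F, add_zero]
    rw [psi_inv hn0 hω _ (cpow_nat_inv_pow (w ^ n) hn0), psi, Finset.sum_div, Finset.mul_sum]
    refine Finset.sum_congr rfl fun t _ => ?_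
    obtain ⟨m, rfl⟩ := Nat.exists_eq_add_of_le' (Nat.pos_of_ne_zero hn0)
    rw [Nat.add_sub_cancel, Pi.add_apply]
    field_simp
    ring) (hom.continuous.measurable hUm)
  rw [← hom.symm_symm, ← hom.symm.image_eq_preimage_symm, image_holo hUm (fun z hz =>
    (h.dinv.differentiableAt (isOpen_ball.mem_nhds (hU hz))).hasDerivAt)
    hom.symm.injective.injOn] at ht
  refine le_trans (le_of_eq (setLIntegral_congr_fun_ae hUm ?_)) (ht.trans (le_of_eq ?_))
  · filter_upwards [ae_all_iff.mpr fun k => compl_mem_ae_iff.mpr (measure_singleton (c k))]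
      with x hx hxU
    have hx (k : ℕ) : x ≠ c k := hx k
    have y0 : hom.symm x ≠ 0 := fun e => hx 0 (hom.symm.injective (e.trans e0.symm))
    have y1 (k : ℕ) : hom.symm x ≠ c k ^ n :=
      fun e => hx (k + 1) (hom.symm.injective (e.trans (e1 k).symm))
    have f0 := hE' 0 x (hU hxU) (hx 0)
    rw [e0, sub_zero] at f0
    have hw := cpow_nat_inv_pow (hom.symm x) hn0
    have f1 : P (hom.symm x) = ∑ k ∈ Finset.range M, β k * (hom.symm x - c k ^ n)⁻¹ +
        r * (hom.symm x)⁻¹ + dslope (dslope Ψ 0) 0 (hom.symm x) / n ^ 2 := by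
      have f2 : psi n ω (fun x => Hn c a M x + φ x) (hom.symm x ^ (n⁻¹ : ℂ)) =
          ∑ k ∈ Finset.range M, (β k * (hom.symm x - c k ^ n)⁻¹ - β k * (hom.symm x)⁻¹) *
            (n * hom.symm x) ^ 2 + Ψ (hom.symm x) := by
        simp only [hΨ, psi, mul_add, Finset.sum_add_distrib, Hn, Finset.mul_sum, add_left_inj]
        rw [Finset.sum_comm]
        refine Finset.sum_congr rfl fun k hk => ?_
        have f3 := kernel hn hω (a := c k) (hw.trans_ne (y1 k))
        have f4 := sub_ne_zero.mpr (y1 k)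
        have f5 := c0 k (Finset.mem_range.mp hk)
        generalize hom.symm x ^ (n⁻¹ : ℂ) = w at hw f3
        rw [← hw] at y0 f4 ⊢
        rw [show ∑ t ∈ Finset.range n, (ω ^ t * w) ^ 2 * (a k * (ω ^ t * w - c k)⁻¹) =
          w ^ 2 * a k * ∑ t ∈ Finset.range n, (ω ^ t) ^ 2 * (ω ^ t * w - c k)⁻¹ by
            rw [Finset.mul_sum]; exact Finset.sum_congr rfl fun t _ => by ring, f3, hβ]
        obtain ⟨m, rfl⟩ := Nat.exists_eq_add_of_le' hn
        simp only [show m + 2 - 1 = m + 1 by omega, Nat.add_sub_cancel]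
        field_simp
        ring
      simp only [hP]
      rw [f2, ← Finset.sum_mul, Finset.sum_sub_distrib, ← Finset.sum_mul, dslope_of_ne _ y0,
        slope_def_field, dslope_of_ne _ y0, slope_def_field, Ψ0, hr, sub_zero, sub_zero]
      field_simp
      ring
    rw [← enorm_mul, f1, e' (hU hxU), Hn, Finset.sum_range_succ', h.a0]
    congr 1
    have f6 : deriv hom.symm x ^ 2 * ∑ k ∈ Finset.range M, β k * (hom.symm x - c k ^ n)⁻¹ =
        ∑ k ∈ Finset.range M, a (k + 1) * (x - c (k + 1))⁻¹ +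
          ∑ k ∈ Finset.range M, β k * E (k + 1) x := by
      rw [Finset.mul_sum, ← Finset.sum_add_distrib]
      refine Finset.sum_congr rfl fun k hk => ?_
      have hk := Finset.mem_range.mp hk
      have f7 := hE' (k + 1) x (hU hxU) (hx _)
      have f8 : a (k + 1) = β k * deriv hom.symm (c (k + 1)) := by
        rw [hβ, div_mul_eq_mul_div, ← e2 k hk, mul_div_cancel_right₀ _
          (mul_ne_zero hnc (pow_ne_zero _ (c0 k hk)))]
      rw [e1] at f7
      rw [f8]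
      linear_combination β k * f7
    linear_combination -f6 - r * f0
  · rw [hom.symm.image_eq_preimage_symm, hom.symm_symm,
      show F n 0 ⁻¹' (hom ⁻¹' U) = (fun u => hom (u ^ n)) ⁻¹' U by ext; simp]
    rfl

theorem nest {z : ℂ} (i : ℕ) (hz : ‖(fun u => hom (u ^ n))^[i + 1] z‖ < R) :
    ‖(fun u => hom (u ^ n))^[i] z‖ < ρ := h.sub _ (by rwa [Function.iterate_succ_apply'] at hz)

theorem early {z : ℂ} {i j : ℕ} (hij : i ≤ j) (hz : ‖(fun u => hom (u ^ n))^[j] z‖ < R) :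
    ‖(fun u => hom (u ^ n))^[i] z‖ < R := by
  induction j, hij using Nat.le_induction with
  | base => exact hz
  | succ j _ ih => exact ih ((h.nest j hz).trans_le (by linarith [h.one, h.two]))

theorem orb (j k : ℕ) : (fun u => hom (u ^ n))^[j] (c k) = c (k + j) := by
  induction j with
  | zero => rfl
  | succ j ih => rw [Function.iterate_succ_apply', ih, ← h.cs, add_assoc]

theorem diff (j : ℕ) {z : ℂ} (hz : ‖(fun u => hom (u ^ n))^[j] z‖ < R) :
    DifferentiableAt ℂ (fun u => hom (u ^ n))^[j] z ∧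
      ‖deriv (fun u => hom (u ^ n))^[j] z‖ ≤ Λ ^ j := by
  induction j generalizing z with
  | zero => exact ⟨differentiableAt_id, by simp⟩
  | succ j ih =>
    have h1 : ‖hom (z ^ n)‖ < R := h.early (i := 1) (by omega) hz
    have h2 := (h.hasG h1).differentiableAt
    obtain ⟨h3, h4⟩ := ih (z := hom (z ^ n)) hz
    rw [Function.iterate_succ]
    refine ⟨h3.comp z h2, ?_⟩
    rw [deriv_comp z h3 h2, norm_mul, pow_succ]
    exact mul_le_mul h4 (h.lip z h1) (norm_nonneg _) ((norm_nonneg _).trans h4)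

theorem a_mul {j : ℕ} (hj : j ≤ M) : a j * deriv (fun u => hom (u ^ n))^[j] (c 0) = 1 := by
  induction j with
  | zero => simp [h.a0]
  | succ j ih =>
    have e : (fun u => hom (u ^ n))^[j] (c 0) = c j := by rw [h.orb, zero_add]
    rw [Function.iterate_succ', deriv_comp _ (e ▸ (h.hasG (h.cs j ▸ h.cb _)).differentiableAt)
      (h.diff j (e ▸ h.cb _)).1, e, ← mul_assoc, h.as j hj, ih (by omega)]

theorem iter_eq {g : ℂ → ℂ} (hg : ∀ y, ‖hom y‖ < R → g y = hom y) (j : ℕ) {z : ℂ}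
    (hz : ‖(fun u => hom (u ^ n))^[j] z‖ < R) :
    (fun u => g (u ^ n))^[j] z = (fun u => hom (u ^ n))^[j] z := by
  induction j with
  | zero => rfl
  | succ j ih =>
    rw [Function.iterate_succ_apply', ih (h.early (Nat.le_succ j) hz)]
    rw [Function.iterate_succ_apply'] at hz ⊢
    exact hg _ hz

end PL

theorem inv_scale {r : ℝ} (hr : 0 < r) : ∫⁻ z in ball (0 : ℂ) r, ‖z⁻¹‖ₑ =
    ENNReal.ofReal r * ∫⁻ z in ball (0 : ℂ) 1, ‖z⁻¹‖ₑ := by
  have hc : (r : ℂ) ≠ 0 := ofReal_ne_zero.mpr hr.ne'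
  have e : ball (0 : ℂ) r = (fun z : ℂ => r * z) '' ball 0 1 := by
    have := (smul_ball hc (0 : ℂ) 1).symm
    rwa [smul_zero, mul_one, norm_real, Real.norm_of_nonneg hr.le] at this
  rw [e, lintegral_image_holo measurableSet_ball (f' := fun _ => r)
    (fun z => by simpa using (hasDerivAt_id z).const_mul (r : ℂ)) (mul_right_injective₀ hc).injOn,
    ← lintegral_const_mul _ (by fun_prop)]
  refine lintegral_congr fun z => ?_
  rw [← enorm_mul, mul_inv, sq, mul_assoc, mul_inv_cancel_left₀ hc, enorm_mul, ← ofReal_norm,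
    norm_real, Real.norm_of_nonneg hr.le]

/-- pairing of a differential with simple poles and a holomorphic vector field -/
theorem pair : ∃ C : ℝ, 0 < C ∧ ∀ (P : ℂ → ℂ) (R L B : ℝ) (c a : ℕ → ℂ) (N : ℕ) (s : ℂ)
    (φ k : ℂ → ℂ), 0 < R → 0 ≤ L → 0 ≤ B → Continuous P →
    DifferentiableOn ℂ P {z | ‖P z‖ < R} → Bornology.IsBounded {z | ‖P z‖ < R} →
    (∀ z, ‖P z‖ < R → ‖deriv P z‖ ≤ L) → (∀ i, ‖P (c i)‖ < R / 2) →
    DifferentiableOn ℂ φ {z | ‖P z‖ < R} → DifferentiableOn ℂ k {z | ‖P z‖ < R} →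
    (∀ z, ‖P z‖ < R → ‖k z‖ ≤ B) →
    ENNReal.ofReal ‖∑ i ∈ Finset.range N, a i * k (c i) - s * k (c 0)‖ ≤
      ENNReal.ofReal (C * L * B / R) * ∫⁻ x in {z | R / 2 ≤ ‖P z‖ ∧ ‖P z‖ < R},
        ‖Hn c a N x - s * (x - c 0)⁻¹ + φ x‖ₑ := by
  obtain ⟨M, hM⟩ := (theta_contDiff.continuous_fderiv one_ne_zero).bounded_above_of_compact_support
    (theta_supp.fderiv ℝ)
  have hM0 : 0 ≤ M := (norm_nonneg _).trans (hM 0)
  have hκ : 0 < ‖kappa‖ := norm_pos_iff.mpr kappa_spec.2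
  refine ⟨4 * (M + 1) / ‖kappa‖, by positivity,
    fun P R L B c a N s φ k hR hL hB hP hd hb hl hc hφ hk hkB => ?_⟩
  set V : Set ℂ := {z | ‖P z‖ < R} with hV
  have hVo : IsOpen V := isOpen_lt hP.norm continuous_const
  set χ : ℂ → ℂ := fun z => theta (P z / (R / 2 : ℝ)) with hχ
  have hnrm : ∀ z, ‖P z / (R / 2 : ℝ)‖ ^ 2 = ‖P z‖ ^ 2 / (R / 2) ^ 2 := fun z => by
    rw [norm_div, norm_real, Real.norm_of_nonneg (by linarith), div_pow]
  have hρ2 : 0 < (R / 2) ^ 2 := by positivity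
  have hzero : ∀ z ∉ V, ∀ᶠ w in 𝓝 z, χ w = 0 := fun z hz => by
    have h1 : 3 * (R / 2) ^ 2 < ‖P z‖ ^ 2 := by
      have : R ≤ ‖P z‖ := not_lt.mp hz
      nlinarith
    filter_upwards [(isOpen_lt continuous_const (hP.norm.pow 2)).mem_nhds h1] with w hw
    exact theta_zero (by rw [hnrm, le_div_iff₀ hρ2]; exact le_of_lt hw)
  have hone : ∀ z, ‖P z‖ < R / 2 → ∀ᶠ w in 𝓝 z, χ w = 1 := fun z hz => by
    filter_upwards [(isOpen_lt hP.norm continuous_const).mem_nhds hz] with w hw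
    exact theta_one (by rw [hnrm, div_le_iff₀ hρ2]; nlinarith [norm_nonneg (P w)])
  have hPρ : DifferentiableOn ℂ (fun z => P z / (R / 2 : ℝ)) V := hd.div_const _
  have hχd : ContDiff ℝ 1 χ := contDiff_iff_contDiffAt.mpr fun z => by
    by_cases hz : z ∈ V
    · exact theta_contDiff.contDiffAt.comp z
        (((hPρ.contDiffOn hVo).contDiffAt (hVo.mem_nhds hz)).restrict_scalars ℝ)
    · exact contDiffAt_const.congr_of_eventuallyEq (hzero z hz)
  have hsV : tsupport χ ⊆ V := fun z hz => by_contra fun h =>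
    notMem_tsupport_iff_eventuallyEq.mpr (hzero z h) hz
  have hs : HasCompactSupport χ := HasCompactSupport.intro hb.isCompact_closure
    fun z hz => (hzero z fun h => hz (subset_closure h)).self_of_nhds
  have hcp := fun i => cauchy_pompeiu hVo hχd hs hsV hk (a := c i)
    (show _ < R by linarith [hc i]) (hone _ (hc i))
  obtain ⟨i1, e1⟩ := stokes hVo hχd hs hsV (hk.mul hφ)
  have hint : kappa * (∑ i ∈ Finset.range N, a i * k (c i) - s * k (c 0)) =
      ∫ z, dbar χ z * k z * (Hn c a N z - s * (z - c 0)⁻¹ + φ z) := by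
    have : (fun z => dbar χ z * k z * (Hn c a N z - s * (z - c 0)⁻¹ + φ z)) = fun z =>
        ∑ i ∈ Finset.range N, a i * (dbar χ z * (k z / (z - c i))) -
          s * (dbar χ z * (k z / (z - c 0))) + dbar χ z * (k * φ) z := by
      funext z
      rw [Hn, mul_add, mul_sub, Finset.mul_sum, Finset.sum_congr rfl fun i _ =>
        show dbar χ z * k z * (a i * (z - c i)⁻¹) = a i * (dbar χ z * (k z / (z - c i))) by ring,
        Pi.mul_apply]
      ring
    have i2 := integrable_finsetSum (Finset.range N) fun i _ => (hcp i).1.const_mul (a i)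
    have i3 := (hcp 0).1.const_mul s
    have i4 : Integrable fun z => ∑ i ∈ Finset.range N, a i * (dbar χ z * (k z / (z - c i))) -
      s * (dbar χ z * (k z / (z - c 0))) := i2.sub i3
    rw [this, integral_add i4 i1, e1, integral_sub i2 i3,
      integral_finsetSum _ fun i _ => (hcp i).1.const_mul _, integral_const_mul, (hcp 0).2,
      mul_sub, Finset.mul_sum, add_zero, mul_left_comm]
    congr 1
    exact Finset.sum_congr rfl fun i _ => by rw [integral_const_mul, (hcp i).2]; ring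
  have hdb : ∀ z ∈ V, ‖dbar χ z‖ ≤ 4 * (M + 1) * L / R := by
    intro z hz
    have h0 := hd.differentiableAt (hVo.mem_nhds hz)
    have h1 : ∀ v : ℂ, ‖v‖ = 1 → ‖fderiv ℝ χ z v‖ ≤ (M + 1) * (L / (R / 2)) := fun v hv => by
      have : fderiv ℝ χ z v = fderiv ℝ theta (P z / (R / 2 : ℝ)) (v * (deriv P z / (R / 2 : ℝ))) := by
        rw [show χ = theta ∘ fun z => P z / (R / 2 : ℝ) from rfl,
          fderiv_comp _ (theta_contDiff.differentiable one_ne_zero _)
            ((h0.div_const _).restrictScalars ℝ),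
          ContinuousLinearMap.comp_apply, fderiv_real_holo (h0.div_const _),
          (h0.hasDerivAt.div_const _).deriv]
      rw [this]
      refine (ContinuousLinearMap.le_opNorm _ _).trans (mul_le_mul ((hM _).trans (by linarith)) ?_
        (norm_nonneg _) (by linarith))
      rw [norm_mul, hv, one_mul, norm_div, norm_real, Real.norm_of_nonneg (by linarith)]
      exact div_le_div_of_nonneg_right (hl z hz) (by linarith)
    refine (norm_add_le _ _).trans ?_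
    rw [norm_mul, norm_I, one_mul, show 4 * (M + 1) * L / R = 2 * ((M + 1) * (L / (R / 2))) by
      field_simp; ring]
    linarith [h1 1 norm_one, h1 I norm_I]
  have hm : MeasurableSet {z | R / 2 ≤ ‖P z‖ ∧ ‖P z‖ < R} :=
    (isClosed_le continuous_const hP.norm).measurableSet.inter hVo.measurableSet
  have hpt : ∀ z, ‖dbar χ z * k z * (Hn c a N z - s * (z - c 0)⁻¹ + φ z)‖ₑ ≤
      {z | R / 2 ≤ ‖P z‖ ∧ ‖P z‖ < R}.indicator (fun z => ENNReal.ofReal (4 * (M + 1) * L / R * B) *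
        ‖Hn c a N z - s * (z - c 0)⁻¹ + φ z‖ₑ) z := by
    intro z
    by_cases hz : z ∈ {z | R / 2 ≤ ‖P z‖ ∧ ‖P z‖ < R}
    · rw [indicator_of_mem hz, enorm_mul]
      refine mul_le_mul_left ?_ _
      rw [← ofReal_norm, norm_mul]
      exact ENNReal.ofReal_le_ofReal
        (mul_le_mul (hdb z hz.2) (hkB z hz.2) (norm_nonneg _) (by positivity))
    · have : dbar χ z = 0 := by
        by_cases h1 : z ∈ V
        · exact dbar_of_eventually_const (hone z (not_le.mp fun h => hz ⟨h, h1⟩))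
        · exact dbar_of_eventually_const (hzero z h1)
      simp [this]
  have hfin := (enorm_integral_le_lintegral_enorm _).trans (lintegral_mono (μ := volume) hpt)
  rw [lintegral_indicator hm, lintegral_const_mul' _ _ ENNReal.ofReal_ne_top, ← hint,
    ← ofReal_norm, norm_mul, ENNReal.ofReal_mul hκ.le, show 4 * (M + 1) * L / R * B =
      ‖kappa‖ * (4 * (M + 1) / ‖kappa‖ * L * B / R) by field_simp, ENNReal.ofReal_mul hκ.le,
    mul_assoc] at hfin
  exact (ENNReal.mul_le_mul_iff_right (ENNReal.ofReal_pos.mpr hκ).ne' ENNReal.ofReal_ne_top).mp hfin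

/-- the mass of an almost minimal differential in two fundamental annuli -/
theorem mass : ∃ C : ℝ, 0 < C ∧ ∀ (n : ℕ) (hom : ℂ ≃ₜ ℂ) (R ρ Λ : ℝ) (c a : ℕ → ℂ) (M j : ℕ),
    PL n hom R ρ Λ c a M → 1 ≤ j → ∃ (s : ℂ) (φ φ' : ℂ → ℂ),
      DifferentiableOn ℂ φ {u | ‖hom (u ^ n)‖ < R} ∧ DifferentiableOn ℂ φ' (ball 0 R) ∧
      ∫⁻ x in {z | R / 2 ≤ ‖z‖ ∧ ‖z‖ < R}, ‖Hn c a (M + 1) x - s * (x - c 0)⁻¹ + φ' x‖ₑ ≤
        ENNReal.ofReal (C * ρ * (‖a M‖ + ‖s‖)) ∧
      ∫⁻ x in {z | R / 2 ≤ ‖(fun u => hom (u ^ n))^[j] z‖ ∧ ‖(fun u => hom (u ^ n))^[j] z‖ < R},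
        ‖Hn c a M x + φ x‖ₑ ≤ ENNReal.ofReal (C * ρ * (‖a M‖ + ‖s‖)) := by
  set J := ∫⁻ z in ball (0 : ℂ) 1, ‖z⁻¹‖ₑ
  have hJ : J ≠ ⊤ := (inv_int _).ne
  refine ⟨1 + 6 * J.toReal, by positivity, fun n hom R ρ Λ c a M j h hj => ?_⟩
  set G : ℂ → ℂ := fun u => hom (u ^ n) with hG
  have hρ := h.one
  have hR := h.two
  have cG (i : ℕ) : Continuous fun z => ‖G^[i] z‖ :=
    ((hom.continuous.comp (continuous_pow n)).iterate i).norm
  set V : ℕ → Set ℂ := fun i => {z | ‖G^[i] z‖ < R} with hV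
  set A : ℕ → Set ℂ := fun i => {z | R / 2 ≤ ‖G^[i] z‖ ∧ ‖G^[i] z‖ < R} with hA
  have mV (i : ℕ) : MeasurableSet (V i) := (isOpen_lt (cG i) continuous_const).measurableSet
  have mA (i : ℕ) : MeasurableSet (A i) :=
    (isClosed_le continuous_const (cG i)).measurableSet.inter (mV i)
  have hb (β : ℂ) (k i : ℕ) (hi : 1 ≤ i) : ∫⁻ x in V i, ‖β * (x - c k)⁻¹‖ₑ ≤
      ENNReal.ofReal (3 * ρ * J.toReal * ‖β‖) := by
    simp only [enorm_mul]
    rw [lintegral_const_mul _ (by fun_prop), ENNReal.ofReal_mul (by positivity), ofReal_norm,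
      mul_comm, ENNReal.ofReal_mul (by positivity), ENNReal.ofReal_toReal hJ,
      ← inv_scale (by positivity)]
    exact mul_le_mul_left (inv_int_le (h.cρ k).le fun z hz => mem_ball_zero_iff.mpr
      ((h.nest 0 (h.early hi hz)).trans (by linarith))) _
  set Φ : {φ : ℂ → ℂ // Measurable φ ∧ DifferentiableOn ℂ φ (V 1)} → ℝ≥0∞ := fun φ =>
    (∫⁻ x in V 1, ‖Hn c a M x + φ.1 x‖ₑ) + ∫⁻ x in V j, ‖Hn c a M x + φ.1 x‖ₑ with hΦ
  have fin (i : ℕ) (hi : 1 ≤ i) : ∫⁻ x in V i, ‖Hn c a M x + 0‖ₑ ≠ ⊤ := by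
    simp only [add_zero]
    refine ne_top_of_le_ne_top (b := ∑ k ∈ Finset.range M, ENNReal.ofReal (3 * ρ * J.toReal * ‖a k‖))
      (ENNReal.sum_ne_top.mpr fun k _ => ENNReal.ofReal_ne_top)
      ((lintegral_mono fun x => enorm_sum_le _ _).trans ?_)
    rw [lintegral_finsetSum _ fun k _ => by fun_prop]
    exact Finset.sum_le_sum fun k _ => hb _ _ i hi
  have hI : iInf Φ ≠ ⊤ := ne_top_of_le_ne_top (ENNReal.add_ne_top.mpr ⟨fin 1 le_rfl, fin j hj⟩)
    (iInf_le Φ ⟨fun _ => 0, measurable_const, differentiableOn_const 0⟩)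
  obtain ⟨φ, hφ⟩ := iInf_lt_iff.mp (ENNReal.lt_add_right hI
    (ENNReal.ofReal_pos.mpr (norm_pos_iff.mpr (h.a_ne le_rfl))).ne')
  obtain ⟨s, φ', m', d', hp⟩ := h.push φ.2.1 φ.2.2
  have sV (i : ℕ) : V i ⊆ ball 0 R := fun z hz =>
    mem_ball_zero_iff.mpr (h.early (Nat.zero_le i) hz)
  have step (i : ℕ) (hi : 1 ≤ i) : (∫⁻ x in V i, ‖Hn c a M x + φ' x‖ₑ) +
      ∫⁻ x in A i, ‖Hn c a M x + φ.1 x‖ₑ ≤ (∫⁻ x in V i, ‖Hn c a M x + φ.1 x‖ₑ) +
        ENNReal.ofReal (3 * ρ * J.toReal * (‖a M‖ + ‖s‖)) := by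
    have h1 : (∫⁻ x in V (i + 1), ‖Hn c a M x + φ.1 x‖ₑ) + ∫⁻ x in A i, ‖Hn c a M x + φ.1 x‖ₑ ≤
        ∫⁻ x in V i, ‖Hn c a M x + φ.1 x‖ₑ := by
      rw [← lintegral_union (mA i) (disjoint_left.mpr fun z h1 h2 => by
        linarith [h.nest i h1, h2.1])]
      exact lintegral_mono_set (union_subset (fun z hz => h.early (Nat.le_succ i) hz)
        fun z hz => hz.2)
    have h2 : ∫⁻ x in V i, ‖Hn c a M x + φ' x‖ₑ ≤ (∫⁻ x in V (i + 1), ‖Hn c a M x + φ.1 x‖ₑ) +
        ENNReal.ofReal (3 * ρ * J.toReal * (‖a M‖ + ‖s‖)) :=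
      calc _ ≤ ∫⁻ x in V i, ‖Hn c a (M + 1) x - s * (x - c 0)⁻¹ + φ' x‖ₑ +
            (‖-a M * (x - c M)⁻¹‖ₑ + ‖s * (x - c 0)⁻¹‖ₑ) := lintegral_mono fun x => by
            refine le_trans (le_of_eq ?_)
              ((enorm_add_le _ _).trans (add_le_add_right (enorm_add_le _ _) _))
            congr 1
            simp only [Hn, Finset.sum_range_succ]
            ring
        _ ≤ _ := by
            rw [lintegral_add_right _ (by fun_prop), lintegral_add_right _ (by fun_prop), mul_add,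
              ENNReal.ofReal_add (by positivity) (by positivity), ← norm_neg (a M)]
            exact add_le_add (hp _ (sV i) (mV i)) (add_le_add (hb _ _ i hi) (hb _ _ i hi))
    exact (add_le_add_left h2 _).trans (by rw [add_right_comm]; exact add_le_add_left h1 _)
  have key : (∫⁻ x in A 1, ‖Hn c a M x + φ.1 x‖ₑ) + ∫⁻ x in A j, ‖Hn c a M x + φ.1 x‖ₑ ≤
      ENNReal.ofReal ((1 + 6 * J.toReal) * ρ * (‖a M‖ + ‖s‖)) := by
    have h1 := add_le_add (step 1 le_rfl) (step j hj)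
    rw [add_add_add_comm, add_add_add_comm _ (ENNReal.ofReal _)] at h1
    have h2 := (add_le_add_left (iInf_le Φ ⟨φ', m', d'.mono (sV 1)⟩) _).trans
      (h1.trans (add_le_add_left hφ.le _))
    rw [add_assoc, ENNReal.add_le_add_iff_left hI, ← ENNReal.ofReal_add (by positivity)
      (by positivity), ← ENNReal.ofReal_add (by positivity) (by positivity)] at h2
    refine h2.trans (ENNReal.ofReal_le_ofReal ?_)
    nlinarith [norm_nonneg (a M), norm_nonneg s]
  exact ⟨s, φ.1, φ', φ.2.2, d', (hp (A 0) (fun z hz => sV 0 hz.2) (mA 0)).trans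
    (le_self_add.trans key), le_add_self.trans key⟩

/-- the pairing of the weighted orbit with bounded holomorphic functions is controlled by the
transversality sum -/
theorem trv : ∃ C : ℝ, 0 < C ∧ ∀ (n : ℕ) (hom : ℂ ≃ₜ ℂ) (R ρ Λ : ℝ) (c a : ℕ → ℂ) (M j : ℕ)
    (w k : ℂ → ℂ), PL n hom R ρ Λ c a M → C * ρ ≤ R → 1 ≤ j →
    DifferentiableOn ℂ w (hom ⁻¹' ball 0 R) → (∀ y, ‖hom y‖ < R → ‖w y - 1‖ ≤ 1 / 4) →
    DifferentiableOn ℂ k {z | ‖(fun u => hom (u ^ n))^[j] z‖ < R} →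
    (∀ z, ‖(fun u => hom (u ^ n))^[j] z‖ < R → ‖k z‖ ≤ 1) →
    ‖∑ i ∈ Finset.range M, a i * k (c i)‖ ≤
      Λ ^ j * (‖w 0 + ∑ i ∈ Finset.range M, a (i + 1) * w (c i ^ n)‖ + ‖a M‖) := by
  obtain ⟨C1, p1, H1⟩ := pair
  obtain ⟨C2, p2, H2⟩ := mass
  refine ⟨8 * (C1 * C2), by positivity, fun n hom R ρ Λ c a M j w k h hC hj hw hw1 hk hk1 => ?_⟩
  obtain ⟨s, φ, φ', dφ, dφ', m0, mj⟩ := H2 n hom R ρ Λ c a M j h hj
  have hρ := h.one
  have hR : 0 < R := by linarith [h.two]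
  have hΛ : 0 ≤ Λ ^ j := (norm_nonneg _).trans (h.diff j (z := c 0) (h.orb j 0 ▸ h.cb _)).2
  have hb (i : ℕ) : ‖c i‖ < R / 2 := by linarith [h.cρ i, h.two]
  have red {x y : ℝ} {m : ℝ≥0∞} (hy : 0 ≤ y) (h1 : ENNReal.ofReal x ≤
      ENNReal.ofReal (C1 * y / R) * m) (h2 : m ≤ ENNReal.ofReal (C2 * ρ * (‖a M‖ + ‖s‖))) :
      x ≤ y * (‖a M‖ + ‖s‖) / 8 := by
    have h3 := h1.trans (mul_le_mul_right h2 _)
    rw [← ENNReal.ofReal_mul (by positivity), ENNReal.ofReal_le_ofReal_iff (by positivity),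
      div_mul_eq_mul_div] at h3
    refine h3.trans ?_
    rw [div_le_div_iff₀ hR (by norm_num)]
    nlinarith [mul_le_mul_of_nonneg_left hC (by positivity : 0 ≤ y * (‖a M‖ + ‖s‖))]
  have e : {z : ℂ | ‖id z‖ < R} = ball 0 R := by ext; simp
  have h1 := H1 id R 1 (5 / 4) c a (M + 1) s φ' (fun x => w (hom.symm x)) hR one_pos.le
    (by norm_num) continuous_id differentiableOn_id (e ▸ isBounded_ball) (by simp) hb (e ▸ dφ')
    (e ▸ hw.comp h.dinv fun x hx => by simpa using hx) fun z hz => by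
      have := hw1 (hom.symm z) (by simpa using hz)
      linarith [norm_le_norm_sub_add (w (hom.symm z)) 1, norm_one (α := ℂ)]
  rw [mul_assoc] at h1
  have h2 := red (by norm_num) h1 m0
  have h3 := H1 (fun u => hom (u ^ n))^[j] R (Λ ^ j) 1 c a M 0 φ k hR hΛ one_pos.le
    ((hom.continuous.comp (continuous_pow n)).iterate j)
    (fun z hz => (h.diff j hz).1.differentiableWithinAt)
    ((isBounded_ball (x := 0) (r := R)).subset fun z hz =>
      mem_ball_zero_iff.mpr (h.early (Nat.zero_le j) hz))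
    (fun z hz => (h.diff j hz).2) (fun i => h.orb j i ▸ hb _)
    (dφ.mono fun z hz => h.early hj hz) hk hk1
  simp only [zero_mul, sub_zero, mul_one] at h3
  have h4 := red hΛ h3 mj
  simp only [Finset.sum_range_succ', h.cs, h.c0, h.a0, hom.symm_apply_apply, one_mul] at h2
  rw [add_comm _ (w 0)] at h2
  generalize w 0 + ∑ i ∈ Finset.range M, a (i + 1) * w (c i ^ n) = S at h2 ⊢
  have h5 := hw1 0 (h.c0 ▸ h.cb 0)
  have h6 : 3 / 4 ≤ ‖w 0‖ := by
    linarith [norm_le_norm_sub_add (1 : ℂ) (w 0), norm_one (α := ℂ), norm_sub_rev 1 (w 0)]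
  have h7 := norm_sub_le S (S - s * w 0)
  rw [sub_sub_cancel, norm_mul] at h7
  have h8 : ‖a M‖ + ‖s‖ ≤ 8 * (‖S‖ + ‖a M‖) := by
    nlinarith [norm_nonneg s, norm_nonneg S, norm_nonneg (a M)]
  nlinarith

theorem fac_le {τ : ℝ} {N : ℕ} (hN : 0 < N) (h0 : 0 ≤ τ) (h : τ * (N : ℝ) ^ 34 ≤ 1) :
    fac τ ≤ Real.exp (4000 / N) := by
  have hN' : (1 : ℝ) ≤ N := by exact_mod_cast hN
  have h1 : τ ≤ (N : ℝ)⁻¹ ^ 34 := by rwa [inv_pow, ← one_div, le_div_iff₀ (by positivity)]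
  have h2 : τ ^ (1 / 34 : ℝ) ≤ (N : ℝ)⁻¹ := by
    refine (Real.rpow_le_rpow h0 h1 (by norm_num)).trans (le_of_eq ?_)
    rw [← Real.rpow_natCast, ← Real.rpow_mul (by positivity)]
    norm_num
  have h3 := h1.trans (pow_le_of_le_one (by positivity) (inv_le_one_of_one_le₀ hN') (by norm_num))
  refine le_trans ?_ (Real.add_one_le_exp _)
  rw [fac, div_eq_mul_inv (4000 : ℝ)]
  linarith

/-- lower bound for the transversality sum -/
theorem trans : ∃ C : ℝ, 0 < C ∧ ∀ (n : ℕ) (hom : ℂ ≃ₜ ℂ) (R ρ Λ : ℝ) (c a : ℕ → ℂ) (N j : ℕ)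
    (g w : ℂ → ℂ), PL n hom R ρ Λ c a (N + 1) → C * ρ ≤ R → 1 ≤ j → j ≤ N + 1 →
    Differentiable ℂ g → (∀ y, ‖hom y‖ < R → g y = hom y) →
    DifferentiableOn ℂ w (hom ⁻¹' ball 0 R) → (∀ y, ‖hom y‖ < R → ‖w y - 1‖ ≤ 1 / 4) →
    (∀ k, 1 ≤ k → k ≤ N → 4 * R * (N : ℝ) ^ 34 * ‖a j‖ ≤ ‖c k - c 0‖) →
    Real.exp (-4000) ≤ Λ ^ j *
      (‖w 0 + ∑ i ∈ Finset.range (N + 1), a (i + 1) * w (c i ^ n)‖ + ‖a (N + 1)‖) := by
  obtain ⟨C, p, H⟩ := trv
  refine ⟨C, p, fun n hom R ρ Λ c a N j g w h hC hj hjN hg hgh hw hw1 hs => ?_⟩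
  have hR : 0 < R := by linarith [h.two, h.one]
  have ha := norm_pos_iff.mpr (h.a_ne hjN)
  set P := (fun u => g (u ^ n))^[j] with hP
  have dP : Differentiable ℂ P := (hg.comp (differentiable_pow n)).iterate j
  have hsub (z : ℂ) (hz : ‖(fun u => hom (u ^ n))^[j] z‖ < R) : ‖P z‖ < R :=
    (congrArg norm (h.iter_eq hgh j hz)).trans_lt hz
  have hV (k : ℕ) : ‖(fun u => hom (u ^ n))^[j] (c k)‖ < R := h.orb j k ▸ h.cb _
  have hD : a j * deriv P (c 0) = 1 := by
    rw [← h.a_mul hjN]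
    congr 1
    refine EventuallyEq.deriv_eq ?_
    filter_upwards [(isOpen_lt ((hom.continuous.comp (continuous_pow n)).iterate j).norm
      continuous_const).mem_nhds (hV 0)] with z hz using h.iter_eq hgh j hz
  obtain ⟨b, hb1, hb2⟩ : ∃ b, ‖b - c 0‖ = 4 * R * ‖a j‖ ∧ R < ‖P b‖ := by
    by_contra hc
    push Not at hc
    have h1 := Complex.norm_deriv_le_of_forall_mem_sphere_norm_le (c := c 0)
      (R := 4 * R * ‖a j‖) (by positivity) dP.diffContOnCl
      fun z hz => hc z (mem_sphere_iff_norm.mp hz)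
    have h2 := congrArg norm hD
    rw [norm_mul, norm_one] at h2
    rw [le_div_iff₀ (by positivity)] at h1
    nlinarith
  have hne (k : ℕ) (hk : k ∈ Finset.range N) : 0 < ‖c (k + 1) - c 0‖ := by
    have := Finset.mem_range.mp hk
    have : (0 : ℝ) < N := by exact_mod_cast (by omega : 0 < N)
    exact lt_of_lt_of_le (by positivity) (hs (k + 1) (by omega) (by omega))
  choose! B hB hB1 hB0 hBx using fun k (hk : k ∈ Finset.range N) =>
    exists_killer dP hb2 (hsub _ (hV 0)) (hsub _ (hV (k + 1)))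
      (sub_ne_zero.mp (norm_pos_iff.mp (hne k hk)))
  have h1 := H n hom R ρ Λ c a (N + 1) j w (fun z => ∏ k ∈ Finset.range N, B k z) h hC hj hw hw1
    ((DifferentiableOn.fun_finsetProd hB).mono hsub) fun z hz => by
      rw [norm_prod]
      exact Finset.prod_le_one (fun _ _ => norm_nonneg _) fun k hk => hB1 k hk z (hsub z hz)
  rw [Finset.sum_range_succ', Finset.sum_eq_zero fun k hk => by
    rw [Finset.prod_eq_zero hk (hB0 k hk), mul_zero], zero_add, h.a0, one_mul, norm_prod] at h1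
  refine le_trans ?_ h1
  rcases Nat.eq_zero_or_pos N with rfl | hN
  · simp
  calc _ = ∏ _k ∈ Finset.range N, Real.exp (-(4000 / N)) := by
        rw [Finset.prod_const, Finset.card_range, ← Real.exp_nat_mul]
        congr 1
        field_simp
    _ ≤ _ := Finset.prod_le_prod (fun _ _ => (Real.exp_pos _).le) fun k hk => by
        have h2 := fac_le (τ := ‖b - c 0‖ / ‖c (k + 1) - c 0‖) hN (by positivity) (by
          rw [div_mul_eq_mul_div, div_le_one (hne k hk), hb1, mul_right_comm]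
          exact hs _ (by omega) (Finset.mem_range.mp hk))
        rw [Real.exp_neg, inv_le_iff_one_le_mul₀' (Real.exp_pos _)]
        exact (hBx k hk).trans (mul_le_mul_of_nonneg_right h2 (norm_nonneg _))

end RT6
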